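import Pool.Agent.Lib.MP_1a91b9_ntH.F4

/-!
# MP_1a91b9_nt (TwistDensity), part D: definitions of the abstract engine

`ι` is a countable set of primes with norms; a squarefree integer is a finite set of primes.
-/

set_option autoImplicit false

namespace Pool.Agent.Lib.MP_1a91b9_ntH

open Finset

noncomputable section

/-- A set of primes with norms. -/
class PS (ι : Type) where
  N : ι → ℕ
  two_le : ∀ q, 2 ≤ N q
  fin : ∀ x : ℕ, {q | N q ≤ x}.Finite

section Basic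

variable {ι : Type} [DecidableEq ι] [PS ι]

/-- The norm of a squarefree integer. -/
def nm (S : Finset ι) : ℕ := ∏ q ∈ S, PS.N q

/-- The primes of norm at most `x`. -/
def pr (ι : Type) [PS ι] (x : ℕ) : Finset ι := (PS.fin (ι := ι) x).toFinset

/-- The squarefree integers of norm at most `x`. -/
def Sx (ι : Type) [DecidableEq ι] [PS ι] (x : ℕ) : Finset (Finset ι) :=
  (pr ι x).powerset.filter fun S => nm S ≤ x

theorem mem_pr {x : ℕ} {q : ι} : q ∈ pr ι x ↔ PS.N q ≤ x := by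
  simp [pr]

theorem one_le_nm (S : Finset ι) : 1 ≤ nm S := by
  unfold nm
  exact Nat.one_le_iff_ne_zero.2 (prod_ne_zero_iff.2 fun q _ => by
    have := PS.two_le q
    omega)

theorem le_nm {S : Finset ι} {q : ι} (h : q ∈ S) : PS.N q ≤ nm S := by
  unfold nm
  rw [← mul_prod_erase _ _ h]
  exact Nat.le_mul_of_pos_right _ (one_le_nm (S.erase q))

theorem mem_Sx {x : ℕ} {S : Finset ι} : S ∈ Sx ι x ↔ nm S ≤ x := by
  rw [Sx, mem_filter, mem_powerset]
  refine ⟨fun h => h.2, fun h => ⟨fun q hq => mem_pr.2 ((le_nm hq).trans h), h⟩⟩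

theorem nm_union {S T : Finset ι} (h : Disjoint S T) : nm (S ∪ T) = nm S * nm T :=
  prod_union h

theorem nm_empty : nm (∅ : Finset ι) = 1 := prod_empty

end Basic

/-- Chebyshev's bound with the constant `C`. -/
def Cheb (ι : Type) [PS ι] (C : ℝ) : Prop :=
  ∀ x : ℕ, ∑ q ∈ pr ι x, Real.log (PS.N q) ≤ C * x

/-- The pole of the zeta function, with the constant `C`. -/
def Zt (ι : Type) [PS ι] (C : ℝ) : Prop :=
  ∀ (σ : ℝ) (x : ℕ), 1 < σ → σ ≤ 3 → ∏ q ∈ pr ι x, (1 - (PS.N q : ℝ) ^ (-σ))⁻¹ ≤ C / (σ - 1)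

/-- A real function on the primes with values in `[-1,1]`, whose Euler product is at most `B` on
`(1, 3]`. -/
structure CharB {ι : Type} [PS ι] (χ : ι → ℝ) (B : ℝ) : Prop where
  le : ∀ q, |χ q| ≤ 1
  hB : 1 ≤ B
  bound : ∀ σ : ℝ, 1 < σ → σ ≤ 3 → ∀ᶠ x : ℕ in Filter.atTop,
    ∏ q ∈ pr ι x, (1 - χ q * (PS.N q : ℝ) ^ (-σ))⁻¹ ≤ B

/-- The sign `(-1)^x`. -/
def sg (x : ZMod 2) : ℝ := if x = 0 then 1 else -1

section Sys

variable {ι : Type} [DecidableEq ι]

/-- The symbols and the classes modulo 4. -/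
structure Dat (ι : Type) where
  s : ι → ι → ZMod 2
  a : ι → F4

/-- The class of a squarefree integer. -/
def Dat.A (D : Dat ι) (S : Finset ι) : F4 := ∑ q ∈ S, D.a q

/-- The symbol of two squarefree integers. -/
def Dat.ss (D : Dat ι) (S T : Finset ι) : ZMod 2 := ∑ q ∈ S, ∑ p ∈ T, D.s q p

/-- The matrix of a squarefree integer. -/
def Dat.M (D : Dat ι) (S : Finset ι) : Matrix S S F4 := fun i j =>
  if i = j then F4.cj (D.a i) + ∑ k ∈ S.erase (i : ι), F4.of (D.s i k) else F4.of (D.s i j)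

/-- The number of elements of the kernel of the matrix. -/
def Dat.kc (D : Dat ι) (S : Finset ι) : ℕ :=
  Fintype.card {v : S → F4 // (D.M S).mulVec v = 0}

/-- Reciprocity. -/
def Dat.Rec (D : Dat ι) : Prop := ∀ p q, p ≠ q → D.s p q + D.s q p = F4.tr (D.a p * D.a q)

/-- The quadratic character attached to a squarefree integer `T` and `c`. -/
def Dat.ch (D : Dat ι) (T : Finset ι) (c : F4) (q : ι) : ℝ :=
  if q ∈ T then 0 else sg (F4.tr (c * D.a q) + ∑ p ∈ T, D.s q p)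

/-- The nontrivial quadratic characters have bounded Euler products. -/
def Dat.CB (D : Dat ι) [PS ι] (C : ℝ) : Prop :=
  ∀ (T : Finset ι) (c : F4), (T ≠ ∅ ∨ c ≠ 0) → CharB (D.ch T c) (C * (1 + Real.log (nm T)))

/-- The mean values of the nontrivial characters modulo 4 on squarefree integers are zero. -/
def Dat.H3 (D : Dat ι) [PS ι] : Prop :=
  ∀ c : F4, c ≠ 0 → ∀ ε : ℝ, 0 < ε → ∃ X₀ : ℕ, ∀ X : ℕ, X₀ ≤ X →
    |∑ S ∈ Sx ι X, sg (F4.tr (c * D.A S))| ≤ ε * X

/-- The bilinear bound, with the constants `C`, `K` and the saving `c`. -/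
def Dat.BL (D : Dat ι) [PS ι] (C : ℝ) (K : ℕ) (c : ℝ) : Prop :=
  ∀ (A B : Finset ι → ℝ) (X : ℕ) (V : ℝ), (∀ S, |A S| ≤ 1) → (∀ S, |B S| ≤ 1) → 1 ≤ V → 2 ≤ X →
    |∑ S ∈ Sx ι X, ∑ T ∈ Sx ι X, if nm S * nm T ≤ X ∧ V < nm S ∧ V < nm T ∧ Disjoint S T then
        A S * B T * sg (D.ss S T) else 0| ≤
      C * X * (1 + Real.log X) ^ K * V ^ (-c)

/-- All the hypotheses on the system. -/
structure Dat.OK (D : Dat ι) [PS ι] : Prop where
  rec_ : D.Rec
  cheb : ∃ C, Cheb ι C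
  zt : ∃ C, Zt ι C
  cb : ∃ C, D.CB C
  h3 : D.H3
  bl : ∃ C K c, 0 < c ∧ D.BL C K c

end Sys

end

end Pool.Agent.Lib.MP_1a91b9_ntH
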