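import Pool.Agent.Lib.MP_1a91b9_ntH.D.Defs

/-!
# MP_1a91b9_nt (TwistDensity), part D: label systems and families of squarefree integers
-/

set_option autoImplicit false

namespace Pool.Agent.Lib.MP_1a91b9_ntH

open Finset

noncomputable section

/-- A label system: `Phi l m` is the exponent of the symbol `(d_l / d_m)`, `gam l` gives the linear
term, `o` orders the labels and `m` is the size of the maximal unlinked sets. -/
structure LSys (L : Type) where
  Phi : L → L → ZMod 2
  gam : L → F4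
  o : L → ℕ
  m : ℕ

section Labels

variable {L : Type}

/-- Two labels are linked if this is `1`. -/
def LSys.lk (Λ : LSys L) (l m : L) : ZMod 2 := Λ.Phi l m + Λ.Phi m l

/-- Unlinked sets of labels. -/
def LSys.Unl (Λ : LSys L) (U : Finset L) : Prop := ∀ l ∈ U, ∀ m ∈ U, Λ.lk l m = 0

/-- The exponent `θ_U(A)`. -/
def LSys.th (Λ : LSys L) (U : Finset L) (A : L → F4) : ZMod 2 :=
  ∑ l ∈ U, F4.tr (Λ.gam l * A l) +
    ∑ l ∈ U, ∑ m ∈ U, if Λ.o l < Λ.o m then Λ.Phi m l * F4.tr (A l * A m) else 0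

/-- The Fourier coefficient of `(-1)^θ_U` at `h`. -/
def LSys.gh (Λ : LSys L) [Fintype L] [DecidableEq L] (U : Finset L) (h : L → F4) : ℝ :=
  (∑ A : L → F4, sg (Λ.th U A + ∑ l, F4.tr (h l * A l))) / Fintype.card (L → F4)

/-- The average of `(-1)^θ_U` over all class vectors. -/
def LSys.cU (Λ : LSys L) [Fintype L] [DecidableEq L] (U : Finset L) : ℝ :=
  (∑ A : L → F4, sg (Λ.th U A)) / Fintype.card (L → F4)

open Classical in
/-- The unlinked sets of maximal size. -/
def LSys.Us (Λ : LSys L) [Fintype L] : Finset (Finset L) :=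
  univ.filter fun U => Λ.Unl U ∧ U.card = Λ.m

/-- The hypotheses on a label system. -/
structure LSys.OK (Λ : LSys L) : Prop where
  diag : ∀ l, Λ.Phi l l = 0
  inj : Function.Injective Λ.o
  two : 2 ≤ Λ.m
  k1 : ∀ U : Finset L, Λ.Unl U → U.card ≤ Λ.m
  k2 : ∀ U : Finset L, Λ.Unl U → U.card = Λ.m → ∀ x, x ∉ U →
    ∃ l ∈ U, ∃ l' ∈ U, Λ.lk l x ≠ Λ.lk l' x

theorem LSys.mem_Us (Λ : LSys L) [Fintype L] (U : Finset L) :
    U ∈ Λ.Us ↔ Λ.Unl U ∧ U.card = Λ.m := by
  simp [LSys.Us]

theorem LSys.lk_comm (Λ : LSys L) (l m : L) : Λ.lk l m = Λ.lk m l := add_comm _ _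

end Labels

section Families

set_option linter.unusedSectionVars false

variable {ι : Type} [DecidableEq ι] {L : Type} [Fintype L] [DecidableEq L]

/-- Pairwise disjoint families. -/
def PD (d : L → Finset ι) : Prop := ∀ l m, l ≠ m → Disjoint (d l) (d m)

/-- The union of a family. -/
def uni (d : L → Finset ι) : Finset ι := univ.biUnion d

/-- The product of the norms of a family. -/
def nmf [PS ι] (d : L → Finset ι) : ℕ := ∏ l, nm (d l)

open Classical in
/-- The families of disjoint sets with union `S`. -/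
def Fam (L : Type) [Fintype L] [DecidableEq L] (S : Finset ι) : Finset (L → Finset ι) :=
  (Fintype.piFinset fun _ : L => S.powerset).filter fun d => PD d ∧ uni d = S

open Classical in
/-- The families of disjoint sets with union `S` and with `d l = ∅` for `l ∉ U`. -/
def FamU (U : Finset L) (S : Finset ι) : Finset (L → Finset ι) :=
  (Fam L S).filter fun d => ∀ l, l ∉ U → d l = ∅

open Classical in
/-- The families of disjoint sets with product of the norms at most `X`. -/
def Box (ι : Type) [DecidableEq ι] (L : Type) [Fintype L] [DecidableEq L] [PS ι] (X : ℕ) :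
    Finset (L → Finset ι) :=
  (Fintype.piFinset fun _ : L => Sx ι X).filter fun d => PD d ∧ nmf d ≤ X

open Classical in
/-- The part of the box where exactly the variables in `Z` are large. -/
def BoxZ (ι : Type) [DecidableEq ι] [PS ι] (X V : ℕ) (Z : Finset L) : Finset (L → Finset ι) :=
  (Box ι L X).filter fun d => ∀ l, l ∈ Z ↔ V < nm (d l)

open Classical in
/-- The part of the box where the variables outside `U` are small. -/
def BoxS (ι : Type) [DecidableEq ι] [PS ι] (X V : ℕ) (U : Finset L) : Finset (L → Finset ι) :=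
  (Box ι L X).filter fun d => ∀ l, l ∉ U → nm (d l) ≤ V

open Classical in
/-- The small families supported outside `U`. -/
def SmB (ι : Type) [DecidableEq ι] [PS ι] (V : ℕ) (U : Finset L) : Finset (L → Finset ι) :=
  (Fintype.piFinset fun _ : L => Sx ι V).filter fun b => PD b ∧ ∀ l ∈ U, b l = ∅

/-- The exponent of a family. -/
def Dat.ee (D : Dat ι) (Λ : LSys L) (d : L → Finset ι) : ZMod 2 :=
  ∑ l, F4.tr (Λ.gam l * D.A (d l)) + ∑ l, ∑ m, Λ.Phi l m * D.ss (d l) (d m)

/-- The summand after expansion. -/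
def Dat.FF (D : Dat ι) (Λ : LSys L) (d : L → Finset ι) : ℝ :=
  ((Λ.m : ℝ)⁻¹) ^ (uni d).card * sg (D.ee Λ d)

/-- The exponent of a labelling of `S`. -/
def Dat.eS (D : Dat ι) (Λ : LSys L) (S : Finset ι) (f : S → L) : ZMod 2 :=
  ∑ j : S, F4.tr (Λ.gam (f j) * D.a j) + ∑ j : S, ∑ k : S, Λ.Phi (f j) (f k) * D.s j k

variable [PS ι]

omit [PS ι] in
theorem mem_uni {d : L → Finset ι} {q : ι} : q ∈ uni d ↔ ∃ l, q ∈ d l := by
  simp [uni]

omit [PS ι] in
theorem sub_uni (d : L → Finset ι) (l : L) : d l ⊆ uni d := fun _ hq => mem_uni.2 ⟨l, hq⟩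

omit [PS ι] in
theorem mem_Fam {S : Finset ι} {d : L → Finset ι} : d ∈ Fam L S ↔ PD d ∧ uni d = S := by
  simp only [Fam, mem_filter, Fintype.mem_piFinset]
  refine ⟨fun h => h.2, fun h => ⟨fun l => ?_, h⟩⟩
  rw [mem_powerset, ← h.2]
  exact sub_uni d l

omit [PS ι] in
theorem mem_FamU {U : Finset L} {S : Finset ι} {d : L → Finset ι} :
    d ∈ FamU U S ↔ PD d ∧ uni d = S ∧ ∀ l, l ∉ U → d l = ∅ := by
  simp only [FamU, mem_filter, mem_Fam, and_assoc]

theorem one_le_nmf (d : L → Finset ι) : 1 ≤ nmf d := by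
  unfold nmf
  exact Nat.one_le_iff_ne_zero.2 (prod_ne_zero_iff.2 fun l _ => by
    have := one_le_nm (d l)
    omega)

theorem nm_le_nmf (d : L → Finset ι) (l : L) : nm (d l) ≤ nmf d := by
  unfold nmf
  rw [← mul_prod_erase univ _ (mem_univ l)]
  refine Nat.le_mul_of_pos_right _ ?_
  exact Nat.one_le_iff_ne_zero.2 (prod_ne_zero_iff.2 fun l _ => by
    have := one_le_nm (d l)
    omega)

theorem mem_Box {X : ℕ} {d : L → Finset ι} : d ∈ Box ι L X ↔ PD d ∧ nmf d ≤ X := by
  simp only [Box, mem_filter, Fintype.mem_piFinset]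
  refine ⟨fun h => h.2, fun h => ⟨fun l => ?_, h⟩⟩
  rw [mem_Sx]
  exact (nm_le_nmf d l).trans h.2

theorem mem_BoxZ {X V : ℕ} {Z : Finset L} {d : L → Finset ι} :
    d ∈ BoxZ ι X V Z ↔ PD d ∧ nmf d ≤ X ∧ ∀ l, l ∈ Z ↔ V < nm (d l) := by
  simp only [BoxZ, mem_filter, mem_Box, and_assoc]

theorem mem_BoxS {X V : ℕ} {U : Finset L} {d : L → Finset ι} :
    d ∈ BoxS ι X V U ↔ PD d ∧ nmf d ≤ X ∧ ∀ l, l ∉ U → nm (d l) ≤ V := by
  simp only [BoxS, mem_filter, mem_Box, and_assoc]

theorem mem_SmB {V : ℕ} {U : Finset L} {b : L → Finset ι} :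
    b ∈ SmB ι V U ↔ (∀ l, nm (b l) ≤ V) ∧ PD b ∧ ∀ l ∈ U, b l = ∅ := by
  simp only [SmB, mem_filter, Fintype.mem_piFinset, mem_Sx]

theorem nm_uni {d : L → Finset ι} (h : PD d) : nm (uni d) = nmf d := by
  unfold nm nmf uni
  rw [prod_biUnion]
  · rfl
  · intro l _ m _ hlm
    exact h l m hlm

end Families

end

end Pool.Agent.Lib.MP_1a91b9_ntH
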