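import Pool.Agent.Lib.MP_1a91b9_ntH.D.FunFam

/-!
# Part D: the product formula for sums over families

The sum over the families of disjoint sets with union `S` of a product over the elements is the product over `S`
of the sums over the labels.
-/

set_option autoImplicit false

namespace Pool.Agent.Lib.MP_1a91b9_ntH

open Finset

noncomputable section

variable {ι : Type} [DecidableEq ι] {L : Type} [Fintype L] [DecidableEq L]

theorem fam_prod (S : Finset ι) (g : L → ι → ℝ) :
    ∑ d ∈ Fam L S, ∏ l, ∏ q ∈ d l, g l q = ∏ q ∈ S, ∑ l, g l q := by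
  rw [← sum_fun_eq_fam S (fun d => ∏ l, ∏ q ∈ d l, g l q), ← prod_coe_sort S (fun q => ∑ l, g l q),
    prod_univ_sum, Fintype.piFinset_univ]
  refine sum_congr rfl fun f _ => ?_
  have h1 : ∀ l, ∏ q ∈ famOf S f l, g l q = ∏ j : S with f j = l, g (f j) j := by
    intro l
    unfold famOf
    rw [prod_map]
    refine prod_congr rfl fun j hj => ?_
    rw [(mem_filter.1 hj).2]
    rfl
  change ∏ l, ∏ q ∈ famOf S f l, g l q = ∏ j : S, g (f j) j
  rw [prod_congr rfl fun l _ => h1 l]
  exact prod_fiberwise univ f (fun j : S => g (f j) j)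

theorem famU_prod (U : Finset L) (S : Finset ι) (g : L → ι → ℝ) :
    ∑ d ∈ FamU U S, ∏ l, ∏ q ∈ d l, g l q = ∏ q ∈ S, ∑ l ∈ U, g l q := by
  have h1 := fam_prod S (fun (l : L) q => if l ∈ U then g l q else 0)
  have h2 : ∏ q ∈ S, ∑ l : L, (if l ∈ U then g l q else 0) = ∏ q ∈ S, ∑ l ∈ U, g l q := by
    refine prod_congr rfl fun q _ => ?_
    rw [sum_ite_mem, univ_inter]
  rw [h2] at h1
  rw [← h1]
  unfold FamU
  rw [sum_filter]
  refine sum_congr rfl fun d _ => ?_
  by_cases h3 : ∀ l, l ∉ U → d l = ∅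
  · rw [if_pos h3]
    refine prod_congr rfl fun l _ => ?_
    by_cases hl : l ∈ U
    · exact prod_congr rfl fun q _ => (if_pos hl).symm
    · rw [h3 l hl, prod_empty, prod_empty]
  · rw [if_neg h3]
    push Not at h3
    obtain ⟨l, hl, hd⟩ := h3
    obtain ⟨q, hq⟩ := hd
    symm
    refine prod_eq_zero (mem_univ l) (prod_eq_zero hq ?_)
    exact if_neg hl

end

end Pool.Agent.Lib.MP_1a91b9_ntH
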