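import Pool.Agent.Lib.MP_1a91b9_ntH.D.Fam

/-!
# Part D: splitting a family into its small part and its large part

`d ↦ (b, S, d')` with `b l = if l ∈ U then ∅ else d l`, `d' l = if l ∈ U then d l else ∅`, `S = uni d'` is a
bijection onto the index set of the right-hand side; the inverse is `(b, S, d') ↦ fun l => b l ∪ d' l`.
-/

set_option autoImplicit false
set_option linter.unusedSectionVars false

namespace Pool.Agent.Lib.MP_1a91b9_ntH

open Finset

noncomputable section

variable {ι : Type} [DecidableEq ι] [PS ι] {L : Type} [Fintype L] [DecidableEq L]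

open Classical in
private def splitB (U : Finset L) (d : L → Finset ι) : L → Finset ι :=
  fun l => if l ∈ U then ∅ else d l

open Classical in
private def splitD (U : Finset L) (d : L → Finset ι) : L → Finset ι :=
  fun l => if l ∈ U then d l else ∅

omit [PS ι] [Fintype L] in
private theorem splitB_sub (U : Finset L) (d : L → Finset ι) (l : L) : splitB U d l ⊆ d l := by
  unfold splitB
  split
  · exact empty_subset _
  · exact Subset.refl _

omit [PS ι] [Fintype L] in
private theorem splitD_sub (U : Finset L) (d : L → Finset ι) (l : L) : splitD U d l ⊆ d l := by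
  unfold splitD
  split
  · exact Subset.refl _
  · exact empty_subset _

omit [PS ι] [Fintype L] in
private theorem split_union (U : Finset L) (d : L → Finset ι) (l : L) :
    splitB U d l ∪ splitD U d l = d l := by
  unfold splitB splitD
  split <;> simp

private theorem split_nm (U : Finset L) (d : L → Finset ι) (l : L) :
    nm (splitB U d l) * nm (splitD U d l) = nm (d l) := by
  unfold splitB splitD
  split <;> simp [nm_empty]

private theorem split_nmf (U : Finset L) (d : L → Finset ι) :
    nmf (splitB U d) * nmf (splitD U d) = nmf d := by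
  unfold nmf
  rw [← prod_mul_distrib]
  exact prod_congr rfl fun l _ => split_nm U d l

omit [PS ι] [Fintype L] in
private theorem split_PD_mono {d e : L → Finset ι} (h : PD d) (he : ∀ l, e l ⊆ d l) : PD e :=
  fun l m hlm => (h l m hlm).mono (he l) (he m)

omit [PS ι] in
private theorem split_disj {U : Finset L} {d : L → Finset ι} (h : PD d) :
    Disjoint (uni (splitD U d)) (uni (splitB U d)) := by
  rw [disjoint_left]
  intro q hq hq'
  obtain ⟨l, hl⟩ := mem_uni.1 hq
  obtain ⟨m, hm⟩ := mem_uni.1 hq'
  by_cases hlm : l = m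
  · subst hlm
    unfold splitD at hl
    unfold splitB at hm
    by_cases hU : l ∈ U
    · rw [if_pos hU] at hm
      exact absurd hm (notMem_empty q)
    · rw [if_neg hU] at hl
      exact absurd hl (notMem_empty q)
  · exact disjoint_left.1 (h l m hlm) (splitD_sub U d l hl) (splitB_sub U d m hm)

omit [PS ι] in
private theorem split_PD_union {U : Finset L} {b d : L → Finset ι} (hb : PD b) (hd : PD d)
    (hbd : Disjoint (uni d) (uni b)) (_hbU : ∀ l ∈ U, b l = ∅) (_hdU : ∀ l, l ∉ U → d l = ∅) :
    PD (fun l => b l ∪ d l) := by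
  intro l m hlm
  change Disjoint (b l ∪ d l) (b m ∪ d m)
  rw [disjoint_union_left, disjoint_union_right, disjoint_union_right]
  exact ⟨⟨hb l m hlm, (hbd.mono (sub_uni d m) (sub_uni b l)).symm⟩,
    ⟨hbd.mono (sub_uni d l) (sub_uni b m), hd l m hlm⟩⟩

omit [PS ι] [Fintype L] in
private theorem splitB_union {U : Finset L} {b d : L → Finset ι} (hbU : ∀ l ∈ U, b l = ∅)
    (hdU : ∀ l, l ∉ U → d l = ∅) : splitB U (fun l => b l ∪ d l) = b := by
  funext l
  unfold splitB
  by_cases h : l ∈ U
  · rw [if_pos h, hbU l h]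
  · rw [if_neg h]
    change b l ∪ d l = b l
    rw [hdU l h, union_empty]

omit [PS ι] [Fintype L] in
private theorem splitD_union {U : Finset L} {b d : L → Finset ι} (hbU : ∀ l ∈ U, b l = ∅)
    (hdU : ∀ l, l ∉ U → d l = ∅) : splitD U (fun l => b l ∪ d l) = d := by
  funext l
  unfold splitD
  by_cases h : l ∈ U
  · rw [if_pos h]
    change b l ∪ d l = d l
    rw [hbU l h, empty_union]
  · rw [if_neg h, hdU l h]

open Classical in
theorem sum_split (X V : ℕ) (hV : 1 ≤ V) (U : Finset L) (G : (L → Finset ι) → ℝ) :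
    ∑ d ∈ BoxS ι X V U, G d =
      ∑ b ∈ SmB ι V U, ∑ S ∈ (Sx ι (X / nmf b)).filter (fun S => Disjoint S (uni b)),
        ∑ d ∈ FamU U S, G (fun l => b l ∪ d l) := by
  simp_rw [Finset.sum_sigma']
  refine sum_nbij' (fun d => ⟨splitB U d, ⟨uni (splitD U d), splitD U d⟩⟩)
    (fun x => fun l => x.1 l ∪ x.2.2 l) ?_ ?_ ?_ ?_ ?_
  · intro d hd
    rw [mem_BoxS] at hd
    obtain ⟨h1, h2, h3⟩ := hd
    have hD : PD (splitD U d) := split_PD_mono h1 (splitD_sub U d)
    rw [mem_sigma, mem_SmB]
    refine ⟨⟨fun l => ?_, split_PD_mono h1 (splitB_sub U d), fun l hl => ?_⟩, ?_⟩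
    · change nm (splitB U d l) ≤ V
      unfold splitB
      by_cases h : l ∈ U
      · rw [if_pos h, nm_empty]
        exact hV
      · rw [if_neg h]
        exact h3 l h
    · change splitB U d l = ∅
      unfold splitB
      rw [if_pos hl]
    · rw [mem_sigma, mem_filter, mem_Sx, mem_FamU]
      refine ⟨⟨?_, split_disj h1⟩, hD, rfl, fun l hl => ?_⟩
      · change nm (uni (splitD U d)) ≤ X / nmf (splitB U d)
        rw [nm_uni hD, Nat.le_div_iff_mul_le (one_le_nmf _), mul_comm, split_nmf]
        exact h2
      · change splitD U d l = ∅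
        unfold splitD
        rw [if_neg hl]
  · rintro ⟨b, S, d⟩ hx
    rw [mem_sigma, mem_SmB, mem_sigma, mem_filter, mem_Sx, mem_FamU] at hx
    obtain ⟨⟨h1, h2, h3⟩, ⟨h4, h5⟩, h6, h7, h8⟩ := hx
    simp only at h1 h2 h3 h4 h5 h6 h7 h8
    subst h7
    have hPD : PD (fun l => b l ∪ d l) := split_PD_union h2 h6 h5 h3 h8
    rw [mem_BoxS]
    refine ⟨hPD, ?_, fun l hl => ?_⟩
    · change nmf (fun l => b l ∪ d l) ≤ X
      rw [← split_nmf U, splitB_union h3 h8, splitD_union h3 h8]
      rw [nm_uni h6, Nat.le_div_iff_mul_le (one_le_nmf _)] at h4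
      rw [mul_comm]
      exact h4
    · change nm (b l ∪ d l) ≤ V
      rw [h8 l hl, union_empty]
      exact h1 l
  · intro d _
    funext l
    exact split_union U d l
  · rintro ⟨b, S, d⟩ hx
    rw [mem_sigma, mem_SmB, mem_sigma, mem_filter, mem_Sx, mem_FamU] at hx
    obtain ⟨⟨h1, h2, h3⟩, ⟨h4, h5⟩, h6, h7, h8⟩ := hx
    simp only at h1 h2 h3 h4 h5 h6 h7 h8
    subst h7
    simp only [splitB_union h3 h8, splitD_union h3 h8]
  · intro d _
    change G d = G (fun l => splitB U d l ∪ splitD U d l)
    congr 1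
    funext l
    exact (split_union U d l).symm

end

end Pool.Agent.Lib.MP_1a91b9_ntH
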