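import Mathlib

/-!
# Part D: choice of the threshold

With `y = log X` and `V = ⌈y ^ M⌉₊`, where `M * c ≥ K + 1`, all the requirements hold for large `X`.
-/

set_option autoImplicit false

namespace Pool.Agent.Lib.MP_1a91b9_ntH

private theorem chooseV_exp (M n : ℕ) :
    ∀ᶠ y : ℝ in Filter.atTop, (2 * y ^ M) ^ n ≤ Real.exp y := by
  have h := (Real.isLittleO_pow_exp_atTop (n := M * n)).bound
    (show (0 : ℝ) < ((2 : ℝ) ^ n)⁻¹ by positivity)
  filter_upwards [h, Filter.eventually_ge_atTop (0 : ℝ)] with y hy h0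
  rw [Real.norm_of_nonneg (by positivity), Real.norm_of_nonneg (Real.exp_pos y).le] at hy
  have h2 : (0 : ℝ) < (2 : ℝ) ^ n := by positivity
  calc (2 * y ^ M) ^ n = 2 ^ n * y ^ (M * n) := by rw [mul_pow, ← pow_mul]
    _ ≤ 2 ^ n * (((2 : ℝ) ^ n)⁻¹ * Real.exp y) := mul_le_mul_of_nonneg_left hy h2.le
    _ = Real.exp y := by rw [← mul_assoc, mul_inv_cancel₀ h2.ne', one_mul]

private theorem chooseV_log (C δ ε : ℝ) (M J : ℕ) (hδ : 0 < δ) (hε : 0 < ε) :
    ∀ᶠ y : ℝ in Filter.atTop, |C| * y ^ (-δ) * (2 + M * Real.log y) ^ J ≤ ε := by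
  set B : ℝ := |C| * (2 + M) ^ J + 1 with hB
  have hBpos : 0 < B := by positivity
  have h := (isLittleO_log_rpow_rpow_atTop (s := δ) (J : ℝ) hδ).bound
    (show (0 : ℝ) < ε / B by positivity)
  filter_upwards [h, Filter.eventually_ge_atTop (Real.exp 1)] with y hy h1
  have hy0 : 0 < y := lt_of_lt_of_le (Real.exp_pos 1) h1
  have hl : 1 ≤ Real.log y := by
    rw [Real.le_log_iff_exp_le hy0]
    exact h1
  rw [Real.rpow_natCast, Real.norm_of_nonneg (by positivity),
    Real.norm_of_nonneg (Real.rpow_nonneg hy0.le _)] at hy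
  have hM : (0 : ℝ) ≤ M := Nat.cast_nonneg M
  have h2 : (2 + M * Real.log y) ^ J ≤ ((2 + M) * Real.log y) ^ J := by
    refine pow_le_pow_left₀ (by positivity) ?_ J
    nlinarith
  have hyd : 0 < y ^ (-δ) := Real.rpow_pos_of_pos hy0 _
  have hyd' : y ^ (-δ) * y ^ δ = 1 := by
    rw [← Real.rpow_add hy0]
    simp
  have hJ : (0 : ℝ) ≤ Real.log y ^ J := by positivity
  calc |C| * y ^ (-δ) * (2 + M * Real.log y) ^ J
      ≤ |C| * y ^ (-δ) * ((2 + M) * Real.log y) ^ J :=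
        mul_le_mul_of_nonneg_left h2 (by positivity)
    _ = (|C| * (2 + M) ^ J) * (y ^ (-δ) * Real.log y ^ J) := by rw [mul_pow]; ring
    _ ≤ B * (y ^ (-δ) * Real.log y ^ J) := by
        refine mul_le_mul_of_nonneg_right ?_ (by positivity)
        rw [hB]
        linarith
    _ ≤ B * (y ^ (-δ) * (ε / B * y ^ δ)) := by
        refine mul_le_mul_of_nonneg_left ?_ hBpos.le
        exact mul_le_mul_of_nonneg_left hy hyd.le
    _ = ε * (y ^ (-δ) * y ^ δ) := by field_simp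
    _ = ε := by rw [hyd', mul_one]

theorem chooseV (C : ℝ) (K J n : ℕ) (c δ ε : ℝ) (hc : 0 < c) (hδ : 0 < δ) (hε : 0 < ε) :
    ∃ X₀ : ℕ, ∀ X : ℕ, X₀ ≤ X → ∃ V : ℕ, 1 ≤ V ∧ V ^ n ≤ X ∧
      C * (1 + Real.log X) ^ K * (V : ℝ) ^ (-c) ≤ ε ∧
      C * Real.log X ^ (-δ) * (1 + Real.log V) ^ J ≤ ε := by
  obtain ⟨M, hM⟩ := exists_nat_ge (((K : ℝ) + 1) / c)
  have hMc : (K : ℝ) + 1 ≤ M * c := by
    rw [div_le_iff₀ hc] at hM
    exact hM
  have hev : ∀ᶠ y : ℝ in Filter.atTop, (2 * y ^ M) ^ n ≤ Real.exp y ∧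
      |C| * y ^ (-δ) * (2 + M * Real.log y) ^ J ≤ ε ∧ 1 ≤ y ∧ |C| * 2 ^ K / ε ≤ y :=
    (chooseV_exp M n).and ((chooseV_log C δ ε M J hδ hε).and
      ((Filter.eventually_ge_atTop 1).and (Filter.eventually_ge_atTop _)))
  have hX : ∀ᶠ X : ℕ in Filter.atTop, (2 * Real.log X ^ M) ^ n ≤ Real.exp (Real.log X) ∧
      |C| * Real.log X ^ (-δ) * (2 + M * Real.log (Real.log X)) ^ J ≤ ε ∧ 1 ≤ Real.log X ∧
      |C| * 2 ^ K / ε ≤ Real.log X :=
    (Real.tendsto_log_atTop.comp tendsto_natCast_atTop_atTop).eventually hev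
  obtain ⟨X₀, hX₀⟩ := Filter.eventually_atTop.1 hX
  refine ⟨max X₀ 1, fun X hXX => ?_⟩
  obtain ⟨h1, h2, h3, h4⟩ := hX₀ X ((le_max_left _ _).trans hXX)
  have hXpos : (0 : ℝ) < X := by
    have : 1 ≤ X := (le_max_right _ _).trans hXX
    exact_mod_cast this
  set y : ℝ := Real.log X with hy
  have hy0 : 0 < y := by linarith
  have hyM : 1 ≤ y ^ M := one_le_pow₀ h3
  set V : ℕ := ⌈y ^ M⌉₊ with hV
  have hVge : y ^ M ≤ V := Nat.le_ceil _
  have hVle : (V : ℝ) ≤ 2 * y ^ M := by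
    have := Nat.ceil_lt_add_one (show (0 : ℝ) ≤ y ^ M by positivity)
    rw [← hV] at this
    linarith
  have hV1 : (1 : ℝ) ≤ V := hyM.trans hVge
  have hVpos : (0 : ℝ) < V := by linarith
  refine ⟨V, by exact_mod_cast hV1, ?_, ?_, ?_⟩
  · have : ((V ^ n : ℕ) : ℝ) ≤ X := by
      push_cast
      calc (V : ℝ) ^ n ≤ (2 * y ^ M) ^ n := pow_le_pow_left₀ hVpos.le hVle n
        _ ≤ Real.exp y := h1
        _ = X := by rw [hy, Real.exp_log hXpos]
    exact_mod_cast this
  · have hp : (V : ℝ) ^ (-c) ≤ (y ^ (K + 1))⁻¹ := by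
      calc (V : ℝ) ^ (-c) ≤ (y ^ M) ^ (-c) :=
            Real.rpow_le_rpow_of_nonpos (by positivity) hVge (by linarith)
        _ = y ^ (-(M * c)) := by
            rw [← Real.rpow_natCast, ← Real.rpow_mul hy0.le]
            congr 1
            ring
        _ ≤ y ^ (-((K + 1 : ℕ) : ℝ)) := by
            refine Real.rpow_le_rpow_of_exponent_le h3 ?_
            push_cast
            linarith
        _ = (y ^ (K + 1))⁻¹ := by rw [Real.rpow_neg hy0.le, Real.rpow_natCast]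
    have hK : (1 + y) ^ K ≤ (2 * y) ^ K := pow_le_pow_left₀ (by positivity) (by linarith) K
    have hVc : (0 : ℝ) ≤ (V : ℝ) ^ (-c) := Real.rpow_nonneg hVpos.le _
    calc C * (1 + y) ^ K * (V : ℝ) ^ (-c) ≤ |C| * (1 + y) ^ K * (V : ℝ) ^ (-c) := by
          refine mul_le_mul_of_nonneg_right ?_ hVc
          exact mul_le_mul_of_nonneg_right (le_abs_self C) (by positivity)
      _ ≤ |C| * (2 * y) ^ K * (y ^ (K + 1))⁻¹ := by
          refine mul_le_mul ?_ hp hVc (by positivity)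
          exact mul_le_mul_of_nonneg_left hK (abs_nonneg C)
      _ = |C| * 2 ^ K / y := by
          rw [mul_pow, pow_succ]
          field_simp
      _ ≤ ε := by
          rw [div_le_iff₀ hy0]
          rw [div_le_iff₀ hε] at h4
          linarith
  · have hlogV : Real.log V ≤ 1 + M * Real.log y := by
      calc Real.log V ≤ Real.log (2 * y ^ M) := Real.log_le_log hVpos hVle
        _ = Real.log 2 + M * Real.log y := by
            rw [Real.log_mul (by norm_num) (by positivity), Real.log_pow]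
        _ ≤ 1 + M * Real.log y := by
            have := Real.log_two_lt_d9
            linarith
    have hlogV0 : 0 ≤ Real.log V := Real.log_nonneg hV1
    have hyd : 0 ≤ y ^ (-δ) := Real.rpow_nonneg hy0.le _
    calc C * y ^ (-δ) * (1 + Real.log V) ^ J ≤ |C| * y ^ (-δ) * (1 + Real.log V) ^ J := by
          refine mul_le_mul_of_nonneg_right ?_ (by positivity)
          exact mul_le_mul_of_nonneg_right (le_abs_self C) hyd
      _ ≤ |C| * y ^ (-δ) * (2 + M * Real.log y) ^ J := by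
          refine mul_le_mul_of_nonneg_left ?_ (by positivity)
          exact pow_le_pow_left₀ (by positivity) (by linarith) J
      _ ≤ ε := h2

end Pool.Agent.Lib.MP_1a91b9_ntH
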