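import Pool.Agent.Lib.MP_1a91b9_ntH.D.Fam

/-!
# Part D: exponents

Rules for the exponents of families: additivity, reciprocity, the exponent on an unlinked set.  `ee_union`: `D.A` and `D.ss` are additive for disjoint unions (`Finset.sum_union`), `F4.tr` is additive,
`F4` is commutative; expand.
`ee_unl`: for `l ∉ U` the set `d l` is empty, so all sums run over `U`.  The linear parts agree.  For the quadratic part:
`∑ l ∈ U, ∑ m ∈ U, Phi l m * ss (d l) (d m)`.  The diagonal terms vanish (`Phi l l = 0`).  For `l ≠ m` in `U`: `Phi l m = Phi m l`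
(`lk l m = 0` and characteristic 2), and `ss (d l) (d m) + ss (d m) (d l) = tr (A (d l) * A (d m))` (`Rec`, `d l` and `d m` disjoint,
`tr` additive).  So split the double sum over `l ≠ m` according to `o l < o m` or `o m < o l` (`o` is injective), and
swap the roles of `l, m` in the second part (`Finset.sum_comm`).
-/

set_option autoImplicit false

namespace Pool.Agent.Lib.MP_1a91b9_ntH

open Finset

noncomputable section

variable {ι : Type} [DecidableEq ι] {L : Type} [Fintype L] [DecidableEq L]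

theorem trD_add (x y : F4) : F4.tr (x + y) = F4.tr x + F4.tr y := rfl

private theorem exp_tr_zero : F4.tr 0 = 0 := rfl

theorem trD_sum {α : Type} (s : Finset α) (f : α → F4) : F4.tr (∑ i ∈ s, f i) = ∑ i ∈ s, F4.tr (f i) := by
  classical
  induction s using Finset.induction_on with
  | empty => rw [sum_empty, sum_empty, exp_tr_zero]
  | insert i s hi ih => rw [sum_insert hi, sum_insert hi, trD_add, ih]

private theorem exp_cases (x : ZMod 2) : x = 0 ∨ x = 1 := by
  revert x
  decide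

theorem sgD_add (x y : ZMod 2) : sg (x + y) = sg x * sg y := by
  have h10 : (1 : ZMod 2) ≠ 0 := by decide
  have h11 : (1 : ZMod 2) + 1 = 0 := by decide
  rcases exp_cases x with rfl | rfl
  · rw [zero_add]
    unfold sg
    rw [if_pos rfl, one_mul]
  · rcases exp_cases y with rfl | rfl
    · rw [add_zero]
      unfold sg
      rw [if_pos rfl, mul_one]
    · rw [h11]
      unfold sg
      rw [if_pos rfl, if_neg h10]
      norm_num

theorem sgD_sum {α : Type} (s : Finset α) (f : α → ZMod 2) : sg (∑ i ∈ s, f i) = ∏ i ∈ s, sg (f i) := by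
  classical
  induction s using Finset.induction_on with
  | empty =>
    rw [sum_empty, prod_empty]
    unfold sg
    rw [if_pos rfl]
  | insert i s hi ih => rw [sum_insert hi, prod_insert hi, sgD_add, ih]

theorem sgD_abs (x : ZMod 2) : |sg x| = 1 := by
  unfold sg
  split_ifs
  · exact abs_one
  · rw [abs_neg, abs_one]

theorem AD_union (D : Dat ι) {S T : Finset ι} (h : Disjoint S T) : D.A (S ∪ T) = D.A S + D.A T :=
  sum_union h

theorem ssD_union_left (D : Dat ι) {S T : Finset ι} (h : Disjoint S T) (R : Finset ι) :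
    D.ss (S ∪ T) R = D.ss S R + D.ss T R :=
  sum_union h

theorem ssD_union_right (D : Dat ι) {S T : Finset ι} (h : Disjoint S T) (R : Finset ι) :
    D.ss R (S ∪ T) = D.ss R S + D.ss R T := by
  unfold Dat.ss
  rw [← sum_add_distrib]
  exact sum_congr rfl fun q _ => sum_union h

theorem ssD_rec (D : Dat ι) (hD : D.Rec) {S T : Finset ι} (h : Disjoint S T) :
    D.ss S T + D.ss T S = F4.tr (D.A S * D.A T) := by
  unfold Dat.ss Dat.A
  rw [sum_comm (s := T) (t := S), ← sum_add_distrib, sum_mul_sum, trD_sum]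
  refine sum_congr rfl fun q hq => ?_
  rw [← sum_add_distrib, trD_sum]
  refine sum_congr rfl fun p hp => ?_
  refine hD q p ?_
  rintro rfl
  exact (disjoint_left.1 h) hq hp

theorem ee_union (D : Dat ι) (Λ : LSys L) (b d : L → Finset ι) (h : Disjoint (uni b) (uni d)) :
    D.ee Λ (fun l => b l ∪ d l) = D.ee Λ b + D.ee Λ d +
      ∑ l, ∑ m, Λ.Phi l m * (D.ss (b l) (d m) + D.ss (d l) (b m)) := by
  have hdis : ∀ l, Disjoint (b l) (d l) := fun l =>
    disjoint_of_subset_left (sub_uni b l) (disjoint_of_subset_right (sub_uni d l) h)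
  have h1 : ∑ l, F4.tr (Λ.gam l * D.A (b l ∪ d l)) =
      ∑ l, F4.tr (Λ.gam l * D.A (b l)) + ∑ l, F4.tr (Λ.gam l * D.A (d l)) := by
    rw [← sum_add_distrib]
    refine sum_congr rfl fun l _ => ?_
    rw [AD_union D (hdis l), mul_add, trD_add]
  have h2 : ∑ l, ∑ m, Λ.Phi l m * D.ss (b l ∪ d l) (b m ∪ d m) =
      ∑ l, ∑ m, Λ.Phi l m * D.ss (b l) (b m) + ∑ l, ∑ m, Λ.Phi l m * D.ss (d l) (d m) +
        ∑ l, ∑ m, Λ.Phi l m * (D.ss (b l) (d m) + D.ss (d l) (b m)) := by
    rw [← sum_add_distrib, ← sum_add_distrib]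
    refine sum_congr rfl fun l _ => ?_
    rw [← sum_add_distrib, ← sum_add_distrib]
    refine sum_congr rfl fun m _ => ?_
    rw [ssD_union_left D (hdis l), ssD_union_right D (hdis m), ssD_union_right D (hdis m)]
    ring
  unfold Dat.ee
  rw [h1, h2]
  ring

private theorem exp_A_empty (D : Dat ι) : D.A ∅ = 0 := sum_empty

private theorem exp_ss_empty_left (D : Dat ι) (S : Finset ι) : D.ss ∅ S = 0 := sum_empty

private theorem exp_ss_empty_right (D : Dat ι) (S : Finset ι) : D.ss S ∅ = 0 := by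
  unfold Dat.ss
  refine sum_eq_zero fun q _ => ?_
  exact sum_empty

theorem ee_unl (D : Dat ι) (hD : D.Rec) (Λ : LSys L) (hΛ : Λ.OK) (U : Finset L) (hU : Λ.Unl U)
    (d : L → Finset ι) (hd : PD d) (h0 : ∀ l, l ∉ U → d l = ∅) :
    D.ee Λ d = Λ.th U (fun l => D.A (d l)) := by
  have h1 : ∑ l, F4.tr (Λ.gam l * D.A (d l)) = ∑ l ∈ U, F4.tr (Λ.gam l * D.A (d l)) := by
    refine (sum_subset (subset_univ U) fun l _ hl => ?_).symm
    rw [h0 l hl, exp_A_empty, mul_zero, exp_tr_zero]
  have h2 : ∑ l, ∑ m, Λ.Phi l m * D.ss (d l) (d m) =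
      ∑ l ∈ U, ∑ m ∈ U, Λ.Phi l m * D.ss (d l) (d m) := by
    have h3 : ∑ l, ∑ m, Λ.Phi l m * D.ss (d l) (d m) =
        ∑ l ∈ U, ∑ m, Λ.Phi l m * D.ss (d l) (d m) := by
      refine (sum_subset (subset_univ U) fun l _ hl => ?_).symm
      refine sum_eq_zero fun m _ => ?_
      rw [h0 l hl, exp_ss_empty_left, mul_zero]
    rw [h3]
    refine sum_congr rfl fun l _ => ?_
    refine (sum_subset (subset_univ U) fun m _ hm => ?_).symm
    rw [h0 m hm, exp_ss_empty_right, mul_zero]
  have h4 : ∀ l ∈ U, ∀ m ∈ U, Λ.Phi l m * D.ss (d l) (d m) =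
      (if Λ.o l < Λ.o m then Λ.Phi l m * D.ss (d l) (d m) else 0) +
        (if Λ.o m < Λ.o l then Λ.Phi l m * D.ss (d l) (d m) else 0) := by
    intro l _ m _
    rcases lt_trichotomy (Λ.o l) (Λ.o m) with h | h | h
    · rw [if_pos h, if_neg (not_lt.2 h.le), add_zero]
    · have hlm : l = m := hΛ.inj h
      rw [hlm, hΛ.diag, zero_mul, if_neg (lt_irrefl _), add_zero]
    · rw [if_neg (not_lt.2 h.le), if_pos h, zero_add]
  have h5 : ∑ l ∈ U, ∑ m ∈ U, Λ.Phi l m * D.ss (d l) (d m) =
      ∑ l ∈ U, ∑ m ∈ U, (if Λ.o l < Λ.o m then Λ.Phi l m * D.ss (d l) (d m) else 0) +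
        ∑ l ∈ U, ∑ m ∈ U, (if Λ.o l < Λ.o m then Λ.Phi m l * D.ss (d m) (d l) else 0) := by
    rw [sum_comm (s := U) (t := U) (f := fun l m =>
      if Λ.o l < Λ.o m then Λ.Phi m l * D.ss (d m) (d l) else 0), ← sum_add_distrib]
    refine sum_congr rfl fun l hl => ?_
    rw [← sum_add_distrib]
    exact sum_congr rfl fun m hm => h4 l hl m hm
  unfold Dat.ee LSys.th
  rw [h1, h2, h5, ← sum_add_distrib]
  refine congrArg (fun z => ∑ l ∈ U, F4.tr (Λ.gam l * D.A (d l)) + z) ?_
  refine sum_congr rfl fun l hl => ?_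
  rw [← sum_add_distrib]
  refine sum_congr rfl fun m hm => ?_
  by_cases h : Λ.o l < Λ.o m
  · rw [if_pos h, if_pos h, if_pos h]
    have hne : l ≠ m := by
      rintro rfl
      exact lt_irrefl _ h
    have hlk : Λ.Phi l m = Λ.Phi m l := by
      have h6 : Λ.Phi l m + Λ.Phi m l = 0 := hU l hl m hm
      exact CharTwo.add_eq_zero.1 h6
    rw [hlk, ← mul_add, ssD_rec D hD (hd l m hne)]
  · rw [if_neg h, if_neg h, if_neg h, add_zero]

end

end Pool.Agent.Lib.MP_1a91b9_ntH
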