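import Pool.Agent.Lib.MP_1a91b9_ntH.D.K1

/-!
# MP_1a91b9_nt (TwistDensity), part D: the expansion of the powers of the kernel size
-/

set_option autoImplicit false

namespace Pool.Agent.Lib.MP_1a91b9_ntH.Da

open Finset

variable {k : ℕ} {ι : Type} [DecidableEq ι]

/-- The exponent of a labelling of `S`. -/
def eS (D : Dat ι) (c : F4) (S : Finset ι) (f : S → Lab k) : ZMod 2 :=
  ∑ j : S, F4.tr (gam c (f j) * D.a j) + ∑ i : S, ∑ j : S, Phi (f i) (f j) * D.s i j

theorem sg_sum {α : Type} (s : Finset α) (f : α → ZMod 2) :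
    sg (∑ i ∈ s, f i) = ∏ i ∈ s, sg (f i) := by
  classical
  induction s using Finset.induction_on with
  | empty => simp [sg_zero]
  | insert a s ha ih => rw [sum_insert ha, prod_insert ha, sg_add, ih]

theorem sum_dotG {n : Type} [Fintype n] [DecidableEq n] (z : n → F4) :
    ∑ v : n → F4, sg (F4.tr (v ⬝ᵥ z)) = if z = 0 then (4 ^ Fintype.card n : ℝ) else 0 := by
  split_ifs with h
  · subst h
    simp only [dotProduct_zero, F4.tr_zero, sg_zero, sum_const, card_univ, Fintype.card_fun,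
      F4.card_F4, nsmul_eq_mul, mul_one]
    push_cast
    rfl
  · obtain ⟨i, hi⟩ := Function.ne_iff.1 h
    obtain ⟨y, hy⟩ := F4.exists_tr (z i) hi
    refine sum_sg_eq_zero (fun v => F4.tr (v ⬝ᵥ z)) (Pi.single i y) fun v => ?_
    rw [add_dotProduct, F4.tr_add, single_dotProduct, mul_comm y (z i), hy]

theorem M_mulVec' (D : Dat ι) (S : Finset ι) (v : S → F4) (j : S) :
    (D.M S).mulVec v j = F4.cj (D.a j) * v j + ∑ l : S, F4.of (D.s j l) * (v j + v l) := by
  have h1 : ∑ k ∈ S.erase (j : ι), F4.of (D.s j k) = ∑ l : S, F4.of (D.s j l) + F4.of (D.s j j) := by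
    have h2 : ∑ l : S, F4.of (D.s j l) = ∑ k ∈ S, F4.of (D.s j k) :=
      sum_coe_sort S fun k => F4.of (D.s j k)
    rw [h2, ← add_sum_erase S _ j.2, add_comm (F4.of (D.s j j)), add_assoc, F4.add_self, add_zero]
  have h3 : (D.M S).mulVec v j = ∑ l : S, (F4.of (D.s j l) * v l +
      if l = j then (F4.cj (D.a j) + ∑ l : S, F4.of (D.s j l)) * v j else 0) := by
    show ∑ l : S, D.M S j l * v l = _
    refine sum_congr rfl fun l _ => ?_
    by_cases hl : l = j
    · subst hl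
      rw [if_pos rfl, Dat.M, if_pos rfl, h1]
      have h2 : (2 : F4) = 0 := rfl
      linear_combination 0 * h2
    · rw [if_neg hl, Dat.M, if_neg fun h => hl h.symm, add_zero]
  rw [h3, sum_add_distrib, sum_ite_eq', if_pos (mem_univ _)]
  simp only [mul_add, sum_add_distrib]
  rw [← sum_mul]
  ring

theorem exp_eq (D : Dat ι) (S : Finset ι) (g : Fin k → (S → F4) × (S → F4)) :
    ∑ i, F4.tr ((g i).2 ⬝ᵥ (D.M S).mulVec (g i).1) =
      eS D 0 S fun j => (fun i => (g i).1 j, fun i => (g i).2 j) := by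
  have h1 : ∀ i, F4.tr ((g i).2 ⬝ᵥ (D.M S).mulVec (g i).1) =
      ∑ j : S, (F4.tr (F4.cj ((g i).1 j * (g i).2 j) * D.a j) +
        ∑ l : S, F4.tr ((g i).2 j * ((g i).1 j + (g i).1 l)) * D.s j l) := by
    intro i
    rw [dotProduct, F4.tr_sum]
    refine sum_congr rfl fun j _ => ?_
    rw [M_mulVec', mul_add, F4.tr_add, mul_sum, F4.tr_sum]
    congr 1
    · have hd : ∀ x y z : F4, F4.tr (x * (F4.cj y * z)) = F4.tr (F4.cj (z * x) * y) := by decide
      exact hd _ _ _
    · refine sum_congr rfl fun l _ => ?_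
      have hd : ∀ (x y : F4) (s : ZMod 2), F4.tr (x * (F4.of s * y)) = F4.tr (x * y) * s := by
        decide
      exact hd _ _ _
  simp only [h1, sum_add_distrib]
  rw [eS]
  congr 1
  · rw [sum_comm]
    refine sum_congr rfl fun j _ => ?_
    rw [gam, add_zero, dotProduct, F4.cj_sum, sum_mul, F4.tr_sum]
  · rw [sum_comm]
    refine sum_congr rfl fun j _ => ?_
    rw [sum_comm]
    refine sum_congr rfl fun l _ => ?_
    rw [← sum_mul, Phi, dotProduct, F4.tr_sum]
    rfl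

theorem eS_c (D : Dat ι) (c : F4) (S : Finset ι) (f : S → Lab k) :
    eS D c S f = eS D 0 S f + F4.tr (c * D.A S) := by
  have h1 : F4.tr (c * D.A S) = ∑ j : S, F4.tr (c * D.a j) := by
    rw [Dat.A, mul_sum, F4.tr_sum, sum_coe_sort S fun j => F4.tr (c * D.a j)]
  rw [eS, eS, h1]
  have h2 : ∑ j : S, F4.tr (gam c (f j) * D.a j) =
      ∑ j : S, F4.tr (gam 0 (f j) * D.a j) + ∑ j : S, F4.tr (c * D.a j) := by
    rw [← sum_add_distrib]
    refine sum_congr rfl fun j _ => ?_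
    rw [gam, gam, add_zero, add_mul, F4.tr_add]
  rw [h2]
  ring

theorem kc_mul (D : Dat ι) (S : Finset ι) : (D.kc S : ℝ) * 4 ^ S.card =
    ∑ p : (S → F4) × (S → F4), sg (F4.tr (p.2 ⬝ᵥ (D.M S).mulVec p.1)) := by
  rw [Fintype.sum_prod_type]
  have h1 : ∀ v : S → F4, ∑ w : S → F4, sg (F4.tr (w ⬝ᵥ (D.M S).mulVec v)) =
      if (D.M S).mulVec v = 0 then (4 ^ S.card : ℝ) else 0 := by
    intro v
    rw [sum_dotG, Fintype.card_coe]
  simp only [h1]
  rw [← sum_filter, sum_const, nsmul_eq_mul, Dat.kc, Fintype.card_subtype]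

/-- The expansion of the `k`-th power of the kernel size. -/
theorem kc_pow_mul (D : Dat ι) (c : F4) (S : Finset ι) :
    (D.kc S : ℝ) ^ k * sg (F4.tr (c * D.A S)) * (4 ^ k) ^ S.card =
      ∑ f : S → Lab k, sg (eS D c S f) := by
  have h1 : (D.kc S : ℝ) ^ k * (4 ^ k) ^ S.card = ∑ f : S → Lab k, sg (eS D 0 S f) := by
    have e : ((4 : ℝ) ^ k) ^ S.card = (4 ^ S.card) ^ k := by rw [← pow_mul, ← pow_mul, mul_comm]
    rw [e, ← mul_pow, kc_mul, Fintype.sum_pow]
    refine Fintype.sum_equiv (⟨fun g j => (fun i => (g i).1 j, fun i => (g i).2 j),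
      fun f i => (fun j => (f j).1 i, fun j => (f j).2 i), fun _ => rfl, fun _ => rfl⟩ :
      (Fin k → (S → F4) × (S → F4)) ≃ (S → Lab k)) _ _ ?_
    intro g
    rw [← sg_sum, exp_eq]
    rfl
  calc (D.kc S : ℝ) ^ k * sg (F4.tr (c * D.A S)) * (4 ^ k) ^ S.card
      = ((D.kc S : ℝ) ^ k * (4 ^ k) ^ S.card) * sg (F4.tr (c * D.A S)) := by ring
    _ = _ := by
      rw [h1, sum_mul]
      refine sum_congr rfl fun f _ => ?_
      rw [eS_c D c S f, sg_add]

/-- The same with the weight `(4^k)^{-|S|}` on the right. -/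
theorem kc_pow_eq (D : Dat ι) (c : F4) (S : Finset ι) :
    (D.kc S : ℝ) ^ k * sg (F4.tr (c * D.A S)) =
      (∑ f : S → Lab k, sg (eS D c S f)) / (4 ^ k) ^ S.card := by
  rw [← kc_pow_mul, mul_div_assoc, div_self (by positivity), mul_one]

end Pool.Agent.Lib.MP_1a91b9_ntH.Da
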