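import Pool.Agent.Lib.MP_1a91b9_ntH.D.Lab

/-!
# MP_1a91b9_nt (TwistDensity), part D: from the moments to the density
-/

set_option autoImplicit false

namespace Pool.Agent.Lib.MP_1a91b9_ntH.Da

open Finset

noncomputable section

variable {ι : Type} [DecidableEq ι] [PS ι]

/-- The squarefree integers of norm at most `X` in the class `α`. -/
def SA (D : Dat ι) (X : ℕ) (α : F4) : Finset (Finset ι) := (Sx ι X).filter fun S => D.A S = α

/-- The mean value of `g (kc S)` over every class is `v`. -/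
def MF (D : Dat ι) (g : ℝ → ℝ) (v : ℝ) : Prop :=
  ∀ ε : ℝ, 0 < ε → ∃ X₀ : ℕ, ∀ X : ℕ, X₀ ≤ X → ∀ α : F4,
    |∑ S ∈ SA D X α, g (D.kc S) - v * (SA D X α).card| ≤ ε * X

theorem MF.add {D : Dat ι} {g h : ℝ → ℝ} {v w : ℝ} (hg : MF D g v) (hh : MF D h w) :
    MF D (fun x => g x + h x) (v + w) := by
  intro ε hε
  obtain ⟨X1, h1⟩ := hg (ε / 2) (by positivity)
  obtain ⟨X2, h2⟩ := hh (ε / 2) (by positivity)
  refine ⟨max X1 X2, fun X hX α => ?_⟩
  have h3 := h1 X (le_trans (le_max_left _ _) hX) α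
  have h4 := h2 X (le_trans (le_max_right _ _) hX) α
  rw [sum_add_distrib]
  calc |∑ S ∈ SA D X α, g (D.kc S) + ∑ S ∈ SA D X α, h (D.kc S) - (v + w) * (SA D X α).card|
      = |(∑ S ∈ SA D X α, g (D.kc S) - v * (SA D X α).card) +
        (∑ S ∈ SA D X α, h (D.kc S) - w * (SA D X α).card)| := by congr 1; ring
    _ ≤ _ := abs_add_le _ _
    _ ≤ ε / 2 * X + ε / 2 * X := add_le_add h3 h4
    _ = ε * X := by ring

theorem MF.smul {D : Dat ι} {g : ℝ → ℝ} {v : ℝ} (hg : MF D g v) (a : ℝ) :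
    MF D (fun x => a * g x) (a * v) := by
  intro ε hε
  obtain ⟨X1, h1⟩ := hg (ε / (|a| + 1)) (by positivity)
  refine ⟨X1, fun X hX α => ?_⟩
  have h3 := h1 X hX α
  rw [← mul_sum, mul_assoc, ← mul_sub, abs_mul]
  have ha : 0 < |a| + 1 := by positivity
  calc |a| * |∑ S ∈ SA D X α, g (D.kc S) - v * (SA D X α).card|
      ≤ (|a| + 1) * (ε / (|a| + 1) * X) := by
        refine mul_le_mul (by linarith) h3 (abs_nonneg _) ha.le
    _ = ε * X := by field_simp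

theorem MF.congr {D : Dat ι} {g h : ℝ → ℝ} {v w : ℝ} (hg : MF D g v) (h1 : ∀ x, h x = g x)
    (h2 : w = v) : MF D h w := by
  rw [h2, show h = g from funext h1]
  exact hg

/-- The falling products `∏_{i < j} (x - 4^i)`. -/
def Fj (j : ℕ) (x : ℝ) : ℝ := ∏ i ∈ range j, (x - 4 ^ i)

/-- The interpolation polynomials `∏_{i = 1}^{K} (4^i - x) / (4^i - 1)`. -/
def pK (K : ℕ) (x : ℝ) : ℝ := ∏ i ∈ range K, ((4 ^ (i + 1) - x) / (4 ^ (i + 1) - 1))

/-- The partial sums `∑_{j ≤ K} (-1)^j 2^(j^2) / ∏_{i=1}^{j} (4^i - 1)`. -/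
def sK (K : ℕ) : ℝ := ∑ j ∈ range (K + 1), (-1) ^ j * 2 ^ (j ^ 2) / ∏ i ∈ range j, (4 ^ (i + 1) - 1)

theorem Nk_succ' (k : ℕ) : (Nk (k + 1) : ℝ) = Nk k * (1 + 2 * 4 ^ k) := by
  rw [Nk, prod_range_succ, Nk]
  push_cast
  have : (4 : ℝ) ^ k = 2 ^ (2 * k) := by rw [pow_mul]; norm_num
  rw [this]
  ring

theorem MF_Fj {D : Dat ι} (hm : ∀ k, MF D (fun x => x ^ k) (Nk k)) (j : ℕ) :
    ∀ m : ℕ, MF D (fun x => x ^ m * Fj j x) (2 ^ (j ^ 2) * 4 ^ (j * m) * Nk m) := by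
  induction j with
  | zero =>
    intro m
    refine (hm m).congr (fun x => ?_) ?_
    · simp [Fj]
    · simp
  | succ j ih =>
    intro m
    refine ((ih (m + 1)).add ((ih m).smul (-(4 ^ j)))).congr (fun x => ?_) ?_
    · rw [Fj, prod_range_succ, ← Fj]
      ring
    · rw [Nk_succ']
      have e1 : (4 : ℝ) ^ (j * (m + 1)) = 4 ^ (j * m) * 4 ^ j := by rw [← pow_add]; ring_nf
      have e2 : (4 : ℝ) ^ ((j + 1) * m) = 4 ^ (j * m) * 4 ^ m := by rw [← pow_add]; ring_nf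
      have e3 : (2 : ℝ) ^ ((j + 1) ^ 2) = 2 ^ (j ^ 2) * 4 ^ j * 2 := by
        have : (4 : ℝ) ^ j = 2 ^ (2 * j) := by rw [pow_mul]; norm_num
        rw [this, ← pow_add, ← pow_succ]
        ring_nf
      rw [e1, e2, e3]
      ring

theorem one_sub_mul_pK (K : ℕ) (x : ℝ) : (1 - x) * pK K x =
    (-1) ^ (K + 1) * Fj (K + 1) x / ∏ i ∈ range K, (4 ^ (i + 1) - 1) := by
  have h1 : Fj (K + 1) x = (∏ i ∈ range K, (x - 4 ^ (i + 1))) * (x - 1) := by
    rw [Fj, prod_range_succ', pow_zero]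
  have h2 : ∏ i ∈ range K, (x - (4 : ℝ) ^ (i + 1)) =
      (-1) ^ K * ∏ i ∈ range K, ((4 : ℝ) ^ (i + 1) - x) := by
    have hc : (-1 : ℝ) ^ K = ∏ _i ∈ range K, (-1 : ℝ) := by rw [prod_const, card_range]
    rw [hc, ← prod_mul_distrib]
    exact prod_congr rfl fun i _ => by ring
  have h3 : ((-1 : ℝ) ^ K) * (-1) ^ K = 1 := by rw [← mul_pow]; norm_num
  rw [h1, h2, pK, prod_div_distrib, pow_succ]
  linear_combination (-(x - 1) * (∏ i ∈ range K, ((4 : ℝ) ^ (i + 1) - x)) /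
    ∏ i ∈ range K, ((4 : ℝ) ^ (i + 1) - 1)) * (1 - h3)

theorem pK_succ (K : ℕ) (x : ℝ) : pK (K + 1) x = pK K x +
    ((-1) ^ (K + 1) / ∏ i ∈ range (K + 1), (4 ^ (i + 1) - 1)) * (x ^ 0 * Fj (K + 1) x) := by
  have h1 : (4 : ℝ) ^ (K + 1) - 1 ≠ 0 := by
    have : (1 : ℝ) < 4 ^ (K + 1) := one_lt_pow₀ (by norm_num) (by omega)
    linarith
  have h2 := one_sub_mul_pK K x
  rw [pK, prod_range_succ, ← pK, prod_range_succ, pow_zero, one_mul]
  have h3 : (-1) ^ (K + 1) / ((∏ i ∈ range K, ((4 : ℝ) ^ (i + 1) - 1)) * (4 ^ (K + 1) - 1)) *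
      Fj (K + 1) x = (1 - x) * pK K x / (4 ^ (K + 1) - 1) := by
    rw [h2]
    field_simp
  rw [h3]
  field_simp
  ring

theorem MF_pK {D : Dat ι} (hm : ∀ k, MF D (fun x => x ^ k) (Nk k)) (K : ℕ) :
    MF D (pK K) (sK K) := by
  induction K with
  | zero =>
    refine (hm 0).congr (fun x => ?_) ?_
    · simp [pK]
    · simp [sK, Nk]
  | succ K ih =>
    refine (ih.add ((MF_Fj hm (K + 1) 0).smul
      ((-1) ^ (K + 1) / ∏ i ∈ range (K + 1), (4 ^ (i + 1) - 1)))).congr (fun x => pK_succ K x) ?_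
    rw [sK, sum_range_succ, ← sK]
    simp [Nk]
    ring

/-- The number of classes with trivial kernel. -/
def good (D : Dat ι) (X : ℕ) (α : F4) : Finset (Finset ι) :=
  (SA D X α).filter fun S => (D.M S).det ≠ 0

theorem kc_pow (D : Dat ι) (S : Finset ι) : ∃ r : ℕ, D.kc S = 4 ^ r := by
  have h1 : D.kc S = Nat.card (LinearMap.ker (D.M S).mulVecLin) := by
    rw [Dat.kc, ← Nat.card_eq_fintype_card]
    rfl
  have h2 := Module.natCard_eq_pow_finrank (K := F4) (V := LinearMap.ker (D.M S).mulVecLin)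
  rw [← h1, Nat.card_eq_fintype_card, F4.card_F4] at h2
  exact ⟨_, h2⟩

theorem kc_eq_one (D : Dat ι) (S : Finset ι) : D.kc S = 1 ↔ (D.M S).det ≠ 0 := by
  rw [Dat.kc, Fintype.card_eq_one_iff, ne_eq, ← Matrix.exists_mulVec_eq_zero_iff]
  constructor
  · rintro ⟨x, hx⟩ ⟨v, hv, hv0⟩
    have h1 := hx ⟨v, hv0⟩
    have h2 := hx ⟨0, Matrix.mulVec_zero _⟩
    rw [← h2] at h1
    exact hv (congrArg Subtype.val h1)
  · intro h
    refine ⟨⟨0, Matrix.mulVec_zero _⟩, fun y => ?_⟩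
    by_contra hne
    exact h ⟨y.1, fun h0 => hne (Subtype.ext h0), y.2⟩

theorem pK_one (K : ℕ) : pK K 1 = 1 := by
  rw [pK]
  refine prod_eq_one fun i _ => ?_
  have : (1 : ℝ) < 4 ^ (i + 1) := one_lt_pow₀ (by norm_num) (by omega)
  exact div_self (by linarith)

theorem pK_pow (K r : ℕ) (hr : r ≠ 0) : (Odd K → pK K (4 ^ r) ≤ 0) ∧ (Even K → 0 ≤ pK K (4 ^ r)) := by
  by_cases h : r ≤ K
  · have : pK K (4 ^ r) = 0 := by
      rw [pK]
      refine prod_eq_zero (i := r - 1) (mem_range.2 (by omega)) ?_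
      rw [show r - 1 + 1 = r by omega, sub_self, zero_div]
    rw [this]
    exact ⟨fun _ => le_refl _, fun _ => le_refl _⟩
  · have h1 : pK K (4 ^ r) = (-1) ^ K * ∏ i ∈ range K, (((4 : ℝ) ^ r - 4 ^ (i + 1)) /
        (4 ^ (i + 1) - 1)) := by
      have hc : (-1 : ℝ) ^ K = ∏ _i ∈ range K, (-1 : ℝ) := by rw [prod_const, card_range]
      rw [pK, hc, ← prod_mul_distrib]
      exact prod_congr rfl fun i _ => by ring
    have h2 : 0 ≤ ∏ i ∈ range K, (((4 : ℝ) ^ r - 4 ^ (i + 1)) / (4 ^ (i + 1) - 1)) := by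
      refine prod_nonneg fun i hi => ?_
      rw [mem_range] at hi
      have h3 : (4 : ℝ) ^ (i + 1) ≤ 4 ^ r := pow_le_pow_right₀ (by norm_num) (by omega)
      have h4 : (1 : ℝ) < 4 ^ (i + 1) := one_lt_pow₀ (by norm_num) (by omega)
      exact div_nonneg (by linarith) (by linarith)
    constructor
    · intro hK
      rw [h1, hK.neg_one_pow]
      linarith
    · intro hK
      rw [h1, hK.neg_one_pow]
      linarith

/-- The lower bound for the number of `S` with `det M_S ≠ 0` from the moments, `K` odd. -/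
theorem dens_lower {D : Dat ι} (hm : ∀ k, MF D (fun x => x ^ k) (Nk k)) (K : ℕ) (hK : Odd K)
    (ε : ℝ) (hε : 0 < ε) : ∃ X₀ : ℕ, ∀ X : ℕ, X₀ ≤ X → ∀ α : F4,
      sK K * (SA D X α).card - ε * X ≤ (good D X α).card := by
  obtain ⟨X1, h1⟩ := MF_pK hm K ε hε
  refine ⟨X1, fun X hX α => ?_⟩
  have h2 := h1 X hX α
  have h3 : ∑ S ∈ SA D X α, pK K (D.kc S) ≤ (good D X α).card := by
    rw [good, card_eq_sum_ones, sum_filter]
    push_cast
    refine sum_le_sum fun S _ => ?_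
    split_ifs with hd
    · rw [(kc_eq_one D S).2 hd]
      push_cast
      rw [pK_one]
    · obtain ⟨r, hr⟩ := kc_pow D S
      have hr0 : r ≠ 0 := by
        intro h0
        rw [h0, pow_zero] at hr
        exact hd ((kc_eq_one D S).1 hr)
      rw [hr]
      push_cast
      exact (pK_pow K r hr0).1 hK
  have h4 := (abs_le.1 h2).1
  linarith

/-- The upper bound, `K` even. -/
theorem dens_upper {D : Dat ι} (hm : ∀ k, MF D (fun x => x ^ k) (Nk k)) (K : ℕ) (hK : Even K)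
    (ε : ℝ) (hε : 0 < ε) : ∃ X₀ : ℕ, ∀ X : ℕ, X₀ ≤ X → ∀ α : F4,
      (good D X α).card ≤ sK K * (SA D X α).card + ε * X := by
  obtain ⟨X1, h1⟩ := MF_pK hm K ε hε
  refine ⟨X1, fun X hX α => ?_⟩
  have h2 := h1 X hX α
  have h3 : ((good D X α).card : ℝ) ≤ ∑ S ∈ SA D X α, pK K (D.kc S) := by
    rw [good, card_eq_sum_ones, sum_filter]
    push_cast
    refine sum_le_sum fun S _ => ?_
    split_ifs with hd
    · rw [(kc_eq_one D S).2 hd]
      push_cast
      rw [pK_one]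
    · obtain ⟨r, hr⟩ := kc_pow D S
      have hr0 : r ≠ 0 := by
        intro h0
        rw [h0, pow_zero] at hr
        exact hd ((kc_eq_one D S).1 hr)
      rw [hr]
      push_cast
      exact (pK_pow K r hr0).2 hK
  have h4 := (abs_le.1 h2).2
  linarith

theorem sK_eleven : (0.5684 : ℝ) < sK 11 := by
  rw [sK]
  simp only [sum_range_succ, prod_range_succ, prod_range_zero, sum_range_zero]
  norm_num

end

end Pool.Agent.Lib.MP_1a91b9_ntH.Da
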