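import Pool.Agent.Lib.MP_1a91b9_ntH.D.K4
import Pool.Agent.Lib.MP_1a91b9_ntH.D.Mom
import Pool.Agent.Lib.MP_1a91b9_ntH.D.Ex

/-!
# MP_1a91b9_nt (TwistDensity), part D: from twisted moments to moments in classes, and the density
-/

set_option autoImplicit false

namespace Pool.Agent.Lib.MP_1a91b9_ntH.Da

open Finset

noncomputable section

variable {ι : Type} [DecidableEq ι] [PS ι]

/-- The twisted `k`-th moment. -/
def Mo (D : Dat ι) (k : ℕ) (c : F4) (X : ℕ) : ℝ :=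
  ∑ S ∈ Sx ι X, (D.kc S : ℝ) ^ k * sg (F4.tr (c * D.A S))

/-- All the twisted moments have the right size. -/
def MoOK (D : Dat ι) : Prop :=
  ∀ (k : ℕ) (c : F4) (ε : ℝ), 0 < ε → ∃ X₀ : ℕ, ∀ X : ℕ, X₀ ≤ X →
    |Mo D k c X - (if c = 0 then (Nk k : ℝ) else 0) * (Sx ι X).card| ≤ ε * X

theorem sum_class (D : Dat ι) (X : ℕ) (α : F4) (g : Finset ι → ℝ) :
    ∑ S ∈ SA D X α, g S = (∑ c : F4, sg (F4.tr (c * α)) *
      ∑ S ∈ Sx ι X, g S * sg (F4.tr (c * D.A S))) / 4 := by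
  have h1 : ∑ c : F4, sg (F4.tr (c * α)) * ∑ S ∈ Sx ι X, g S * sg (F4.tr (c * D.A S)) =
      ∑ S ∈ Sx ι X, g S * ∑ c : F4, sg (F4.tr ((D.A S + α) * c)) := by
    simp only [mul_sum]
    rw [sum_comm]
    refine sum_congr rfl fun S _ => sum_congr rfl fun c _ => ?_
    rw [add_mul, F4.tr_add, sg_add, mul_comm (D.A S) c, mul_comm α c]
    ring
  rw [h1, SA, sum_filter, sum_div]
  refine sum_congr rfl fun S _ => ?_
  rw [sum_sg_tr]
  have hd : ∀ x y : F4, x + y = 0 ↔ x = y := by decide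
  by_cases h : D.A S = α
  · rw [if_pos h, if_pos ((hd _ _).2 h)]
    ring
  · rw [if_neg h, if_neg fun h' => h ((hd _ _).1 h')]
    ring

theorem card_SA (D : Dat ι) (X : ℕ) (α : F4) :
    ((SA D X α).card : ℝ) = (∑ c : F4, sg (F4.tr (c * α)) * Mo D 0 c X) / 4 := by
  have := sum_class D X α fun _ => 1
  simp only [sum_const, nsmul_eq_mul, mul_one] at this
  rw [this]
  simp only [Mo, pow_zero]

theorem abs_sg (x : ZMod 2) : |sg x| = 1 := by
  rcases zmod_two x with h | h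
  · rw [h, sg_zero, abs_one]
  · rw [h, sg_one, abs_neg, abs_one]

theorem MF_of_moments {D : Dat ι} (h : MoOK D) (k : ℕ) : MF D (fun x => x ^ k) (Nk k) := by
  intro ε hε
  set N : ℝ := (Nk k : ℝ) with hN
  have hN0 : 0 ≤ N := Nat.cast_nonneg _
  have hpos : 0 < ε / (1 + N) := by positivity
  choose X1 h1 using fun c => h k c (ε / (1 + N)) hpos
  choose X2 h2 using fun c => h 0 c (ε / (1 + N)) hpos
  refine ⟨∑ c, X1 c + ∑ c, X2 c, fun X hX α => ?_⟩
  have hX1 : ∀ c, X1 c ≤ X := fun c =>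
    (single_le_sum (fun _ _ => Nat.zero_le _) (mem_univ c)).trans ((Nat.le_add_right _ _).trans hX)
  have hX2 : ∀ c, X2 c ≤ X := fun c =>
    (single_le_sum (fun _ _ => Nat.zero_le _) (mem_univ c)).trans ((Nat.le_add_left _ _).trans hX)
  have e1 : ∑ S ∈ SA D X α, (D.kc S : ℝ) ^ k =
      (∑ c : F4, sg (F4.tr (c * α)) * Mo D k c X) / 4 := sum_class D X α _
  rw [e1, card_SA]
  have e2 : (∑ c : F4, sg (F4.tr (c * α)) * Mo D k c X) / 4 -
      N * ((∑ c : F4, sg (F4.tr (c * α)) * Mo D 0 c X) / 4) =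
      (∑ c : F4, sg (F4.tr (c * α)) * (Mo D k c X - N * Mo D 0 c X)) / 4 := by
    simp only [mul_sub, sum_sub_distrib]
    have : ∑ c : F4, sg (F4.tr (c * α)) * (N * Mo D 0 c X) =
        N * ∑ c : F4, sg (F4.tr (c * α)) * Mo D 0 c X := by
      rw [mul_sum]
      exact sum_congr rfl fun c _ => by ring
    rw [this]
    ring
  rw [e2]
  have e3 : ∀ c, |Mo D k c X - N * Mo D 0 c X| ≤ ε * X := by
    intro c
    have h3 := h1 c X (hX1 c)
    have h4 := h2 c X (hX2 c)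
    have h5 : Mo D k c X - N * Mo D 0 c X =
        (Mo D k c X - (if c = 0 then (Nk k : ℝ) else 0) * (Sx ι X).card) -
        N * (Mo D 0 c X - (if c = 0 then (Nk 0 : ℝ) else 0) * (Sx ι X).card) := by
      rw [← hN]
      split_ifs
      · simp only [Nk, prod_range_zero, Nat.cast_one]
        ring
      · ring
    rw [h5]
    calc _ ≤ |Mo D k c X - (if c = 0 then (Nk k : ℝ) else 0) * (Sx ι X).card| +
          |N * (Mo D 0 c X - (if c = 0 then (Nk 0 : ℝ) else 0) * (Sx ι X).card)| := abs_sub _ _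
      _ ≤ ε / (1 + N) * X + N * (ε / (1 + N) * X) := by
          rw [abs_mul, abs_of_nonneg hN0]
          exact add_le_add h3 (mul_le_mul_of_nonneg_left h4 hN0)
      _ = ε * X := by field_simp
  rw [abs_div, abs_of_pos (by norm_num : (0 : ℝ) < 4), div_le_iff₀ (by norm_num)]
  calc |∑ c : F4, sg (F4.tr (c * α)) * (Mo D k c X - N * Mo D 0 c X)|
      ≤ ∑ c : F4, |sg (F4.tr (c * α)) * (Mo D k c X - N * Mo D 0 c X)| := abs_sum_le_sum_abs _ _
    _ ≤ ∑ _c : F4, ε * X := by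
        refine sum_le_sum fun c _ => ?_
        rw [abs_mul, abs_sg, one_mul]
        exact e3 c
    _ = ε * X * 4 := by
        rw [sum_const, card_univ, F4.card_F4, nsmul_eq_mul]
        push_cast
        ring

/-- The lower bound of the density of the `S` with `det M_S ≠ 0` in every class. -/
theorem dens {D : Dat ι} (h : MoOK D) (ε : ℝ) (hε : 0 < ε) :
    ∃ X₀ : ℕ, ∀ X : ℕ, X₀ ≤ X → ∀ α : F4,
      0.5684 * (SA D X α).card - ε * X ≤ (good D X α).card := by
  obtain ⟨X1, h1⟩ := dens_lower (MF_of_moments h) 11 (by decide) ε hε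
  refine ⟨X1, fun X hX α => le_trans ?_ (h1 X hX α)⟩
  have : (0.5684 : ℝ) * (SA D X α).card ≤ sK 11 * (SA D X α).card :=
    mul_le_mul_of_nonneg_right sK_eleven.le (Nat.cast_nonneg _)
  linarith

/-- The zeroth moments are the mean values of the characters. -/
theorem Mo_zero {D : Dat ι} (h3 : D.H3) (c : F4) (ε : ℝ) (hε : 0 < ε) :
    ∃ X₀ : ℕ, ∀ X : ℕ, X₀ ≤ X →
      |Mo D 0 c X - (if c = 0 then (Nk 0 : ℝ) else 0) * (Sx ι X).card| ≤ ε * X := by
  by_cases hc : c = 0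
  · refine ⟨0, fun X _ => ?_⟩
    rw [if_pos hc, hc]
    simp only [Mo, pow_zero, zero_mul, F4.tr_zero, sg_zero, mul_one, sum_const, nsmul_eq_mul, Nk,
      prod_range_zero, Nat.cast_one, one_mul, sub_self, abs_zero]
    positivity
  · obtain ⟨X1, h1⟩ := h3 c hc ε hε
    refine ⟨X1, fun X hX => ?_⟩
    rw [if_neg hc, zero_mul, sub_zero]
    simp only [Mo, pow_zero, one_mul]
    exact h1 X hX

end

end Pool.Agent.Lib.MP_1a91b9_ntH.Da
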