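import Pool.Agent.Lib.MP_1a91b9_ntH.D.Mom

/-!
# MP_1a91b9_nt (TwistDensity), part D: the limit of the partial sums is an infinite product
-/

set_option autoImplicit false

namespace Pool.Agent.Lib.MP_1a91b9_ntH.Da

open Finset Filter Topology

noncomputable section

/-- The limit density `∏_{i ≥ 0} (1 + 2^{-(2i+1)})⁻¹ = 0.5686...`. -/
def cinf : ℝ := ∏' i : ℕ, (1 + (1 / 2 : ℝ) ^ (2 * i + 1))⁻¹

/-- The coefficients `1 / ∏_{i=1}^{j} (1 - 4^{-i})`. -/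
def ac (j : ℕ) : ℝ := (∏ i ∈ range j, (1 - (1 / 4 : ℝ) ^ (i + 1)))⁻¹

theorem one_sub_pos (i : ℕ) : 0 < 1 - (1 / 4 : ℝ) ^ (i + 1) := by
  have : (1 / 4 : ℝ) ^ (i + 1) < 1 := pow_lt_one₀ (by norm_num) (by norm_num) (by omega)
  linarith

theorem ac_pos (j : ℕ) : 0 < ac j := inv_pos.2 (prod_pos fun i _ => one_sub_pos i)

theorem ac_succ (j : ℕ) : ac (j + 1) * (1 - (1 / 4 : ℝ) ^ (j + 1)) = ac j := by
  have h := one_sub_pos j
  rw [ac, prod_range_succ, mul_inv, ← ac, mul_assoc, inv_mul_cancel₀ h.ne', mul_one]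

theorem prod_lower (j : ℕ) : (2 / 3 : ℝ) + (1 / 3) * (1 / 4) ^ j ≤
    ∏ i ∈ range j, (1 - (1 / 4 : ℝ) ^ (i + 1)) := by
  induction j with
  | zero => norm_num
  | succ j ih =>
    rw [prod_range_succ]
    have h1 := one_sub_pos j
    have hx : 0 < (1 / 4 : ℝ) ^ j := by positivity
    have hx1 : (1 / 4 : ℝ) ^ j ≤ 1 := pow_le_one₀ (by norm_num) (by norm_num)
    refine le_trans ?_ (mul_le_mul_of_nonneg_right ih h1.le)
    rw [pow_succ]
    nlinarith

theorem ac_le (j : ℕ) : ac j ≤ 3 / 2 := by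
  have h1 := prod_lower j
  have h2 : 0 < (1 / 4 : ℝ) ^ j := by positivity
  rw [ac, inv_le_comm₀ (prod_pos fun i _ => one_sub_pos i) (by norm_num)]
  linarith

/-- The series `∑ z^j / ∏_{i=1}^{j} (1 - 4^{-i})`. -/
def fs (z : ℝ) : ℝ := ∑' j, ac j * z ^ j

theorem summable_fs {z : ℝ} (hz : |z| < 1) : Summable fun j => ac j * z ^ j := by
  refine Summable.of_norm_bounded (g := fun j => 3 / 2 * |z| ^ j)
    ((summable_geometric_of_lt_one (abs_nonneg z) hz).mul_left _) fun j => ?_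
  rw [norm_mul, norm_pow, Real.norm_eq_abs, Real.norm_eq_abs, abs_of_pos (ac_pos j)]
  exact mul_le_mul_of_nonneg_right (ac_le j) (by positivity)

theorem fs_eq {z : ℝ} (hz : |z| < 1) : (1 - z) * fs z = fs (z * (1 / 4)) := by
  have hz4 : |z * (1 / 4)| < 1 := by
    rw [abs_mul, abs_of_pos (by norm_num : (0 : ℝ) < 1 / 4)]
    linarith [abs_nonneg z]
  have h1 := summable_fs hz
  have h2 := summable_fs hz4
  have h3 : fs z - fs (z * (1 / 4)) = z * fs z := by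
    rw [fs, fs, ← h1.tsum_sub h2, ← tsum_mul_left,
      (h1.sub h2).tsum_eq_zero_add]
    simp only [pow_zero, mul_one, sub_self, zero_add]
    refine tsum_congr fun j => ?_
    rw [mul_pow]
    have := ac_succ j
    rw [← this]
    ring
  linarith

theorem fs_iter (n : ℕ) : (∏ i ∈ range n, (1 + (1 / 2 : ℝ) ^ (2 * i + 1))) * fs (-1 / 2) =
    fs (-1 / 2 * (1 / 4) ^ n) := by
  induction n with
  | zero => simp
  | succ n ih =>
    have hz : |(-1 / 2 : ℝ) * (1 / 4) ^ n| < 1 := by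
      rw [abs_mul, abs_of_pos (by positivity : (0 : ℝ) < (1 / 4) ^ n)]
      have : (1 / 4 : ℝ) ^ n ≤ 1 := pow_le_one₀ (by norm_num) (by norm_num)
      have h : |(-1 / 2 : ℝ)| = 1 / 2 := by rw [abs_of_neg (by norm_num)]; norm_num
      rw [h]
      linarith
    have h1 := fs_eq hz
    have h2 : (1 / 2 : ℝ) ^ (2 * n + 1) = 1 / 2 * (1 / 4) ^ n := by
      rw [pow_succ, pow_mul]
      norm_num
      ring
    rw [prod_range_succ, h2]
    calc _ = (1 - -1 / 2 * (1 / 4) ^ n) *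
          ((∏ i ∈ range n, (1 + (1 / 2 : ℝ) ^ (2 * i + 1))) * fs (-1 / 2)) := by ring
      _ = fs (-1 / 2 * (1 / 4) ^ n * (1 / 4)) := by rw [ih, h1]
      _ = _ := by rw [pow_succ]; ring_nf

theorem fs_near {z : ℝ} (hz : |z| ≤ 1 / 2) : |fs z - 1| ≤ 3 * |z| := by
  have hz1 : |z| < 1 := by linarith
  have h1 := summable_fs hz1
  have h2 : fs z - 1 = ∑' j, ac (j + 1) * z ^ (j + 1) := by
    rw [fs, h1.tsum_eq_zero_add]
    simp [ac]
  rw [h2, ← Real.norm_eq_abs]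
  have h3 : HasSum (fun j => 3 / 2 * |z| * |z| ^ j) (3 / 2 * |z| * (1 - |z|)⁻¹) :=
    (hasSum_geometric_of_lt_one (abs_nonneg z) hz1).mul_left _
  refine (tsum_of_norm_bounded h3 fun j => ?_).trans ?_
  · rw [norm_mul, norm_pow, Real.norm_eq_abs, Real.norm_eq_abs, abs_of_pos (ac_pos _), pow_succ]
    calc ac (j + 1) * (|z| ^ j * |z|) ≤ 3 / 2 * (|z| ^ j * |z|) :=
          mul_le_mul_of_nonneg_right (ac_le _) (by positivity)
      _ = 3 / 2 * |z| * |z| ^ j := by ring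
  · have h4 : (1 - |z|)⁻¹ ≤ 2 := by
      rw [inv_le_comm₀ (by linarith) (by norm_num)]
      linarith
    nlinarith [abs_nonneg z]

theorem tendsto_prod : Tendsto (fun n => (∏ i ∈ range n, (1 + (1 / 2 : ℝ) ^ (2 * i + 1))) *
    fs (-1 / 2)) atTop (𝓝 1) := by
  simp only [fs_iter]
  rw [tendsto_iff_dist_tendsto_zero]
  have h0 : Tendsto (fun n : ℕ => 3 / 2 * (1 / 4 : ℝ) ^ n) atTop (𝓝 0) := by
    have := (tendsto_pow_atTop_nhds_zero_of_lt_one (r := (1 / 4 : ℝ)) (by norm_num)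
      (by norm_num)).const_mul (3 / 2)
    rwa [mul_zero] at this
  refine squeeze_zero (fun _ => dist_nonneg) (fun n => ?_) h0
  have hp : (0 : ℝ) < (1 / 4) ^ n := by positivity
  have habs : |(-1 / 2 : ℝ) * (1 / 4) ^ n| = 1 / 2 * (1 / 4) ^ n := by
    rw [abs_mul, abs_of_pos hp, abs_of_neg (by norm_num : (-1 / 2 : ℝ) < 0)]
    ring
  rw [Real.dist_eq]
  refine (fs_near ?_).trans ?_
  · rw [habs]
    have : (1 / 4 : ℝ) ^ n ≤ 1 := pow_le_one₀ (by norm_num) (by norm_num)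
    linarith
  · rw [habs]
    linarith

theorem cinf_eq : cinf = fs (-1 / 2) := by
  have hm : Multipliable fun i : ℕ => (1 + (1 / 2 : ℝ) ^ (2 * i + 1)) := by
    refine Real.multipliable_one_add_of_summable ?_
    have h1 : Summable fun i : ℕ => (1 / 2 : ℝ) * (1 / 4) ^ i :=
      (summable_geometric_of_lt_one (by norm_num) (by norm_num)).mul_left _
    refine h1.congr fun i => ?_
    rw [pow_succ, pow_mul]
    norm_num
    ring
  have h1 := hm.hasProd.tendsto_prod_nat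
  have hP1 : ∀ n, 1 ≤ ∏ i ∈ range n, (1 + (1 / 2 : ℝ) ^ (2 * i + 1)) := fun n => by
    refine le_trans (by rw [prod_const_one]) (prod_le_prod (f := fun _ => (1 : ℝ))
      (fun _ _ => zero_le_one) fun i _ => ?_)
    have : (0 : ℝ) ≤ (1 / 2) ^ (2 * i + 1) := by positivity
    linarith
  set P : ℝ := ∏' i : ℕ, (1 + (1 / 2 : ℝ) ^ (2 * i + 1)) with hP
  have hP0 : 1 ≤ P := ge_of_tendsto' h1 hP1
  have h2 : P * fs (-1 / 2) = 1 := tendsto_nhds_unique (h1.mul_const _) tendsto_prod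
  have h3 : HasProd (fun i : ℕ => (1 + (1 / 2 : ℝ) ^ (2 * i + 1))⁻¹) P⁻¹ := by
    have h4 := hm.hasProd
    have h5 : Tendsto (fun s : Finset ℕ => (∏ i ∈ s, (1 + (1 / 2 : ℝ) ^ (2 * i + 1)))⁻¹)
        atTop (𝓝 P⁻¹) := Tendsto.inv₀ h4 (by linarith)
    have h6 : (fun s : Finset ℕ => (∏ i ∈ s, (1 + (1 / 2 : ℝ) ^ (2 * i + 1)))⁻¹) =
        fun s => ∏ i ∈ s, (1 + (1 / 2 : ℝ) ^ (2 * i + 1))⁻¹ := by
      funext s
      rw [prod_inv_distrib]
    rw [h6] at h5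
    exact h5
  rw [cinf, h3.tprod_eq]
  exact inv_eq_of_mul_eq_one_right h2

theorem sK_term (j : ℕ) : (-1 : ℝ) ^ j * 2 ^ (j ^ 2) / ∏ i ∈ range j, (4 ^ (i + 1) - 1) =
    ac j * (-1 / 2) ^ j := by
  induction j with
  | zero => simp [ac]
  | succ j ih =>
    have h4 : (0 : ℝ) < 4 ^ (j + 1) := by positivity
    have h1 : (4 : ℝ) ^ (j + 1) - 1 = 4 ^ (j + 1) * (1 - (1 / 4) ^ (j + 1)) := by
      rw [mul_sub, mul_one, ← mul_pow]
      norm_num
    have h2 := one_sub_pos j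
    have h3 : ac (j + 1) = ac j / (1 - (1 / 4 : ℝ) ^ (j + 1)) := by
      rw [eq_div_iff h2.ne', ac_succ]
    have h5 : (2 : ℝ) ^ ((j + 1) ^ 2) = 2 ^ (j ^ 2) * (4 ^ (j + 1) / 2) := by
      have : (4 : ℝ) ^ (j + 1) = 2 ^ (2 * j + 1) * 2 := by
        rw [← pow_succ, show (4 : ℝ) = 2 ^ 2 by norm_num, ← pow_mul]
        ring_nf
      rw [this, mul_div_assoc, div_self (by norm_num), mul_one, ← pow_add]
      ring_nf
    rw [prod_range_succ, h1, h3, h5, pow_succ (-1 : ℝ), pow_succ (-1 / 2 : ℝ)]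
    have h6 : (-1 : ℝ) ^ j * -1 * (2 ^ (j ^ 2) * (4 ^ (j + 1) / 2)) /
        ((∏ i ∈ range j, ((4 : ℝ) ^ (i + 1) - 1)) * (4 ^ (j + 1) * (1 - (1 / 4) ^ (j + 1)))) =
        ((-1 : ℝ) ^ j * 2 ^ (j ^ 2) / ∏ i ∈ range j, ((4 : ℝ) ^ (i + 1) - 1)) *
          ((-1 / 2) / (1 - (1 / 4) ^ (j + 1))) := by
      field_simp
    rw [h6, ih]
    ring

/-- The partial sums converge to the infinite product. -/
theorem tendsto_sK : Tendsto sK atTop (𝓝 cinf) := by
  have hz : |(-1 / 2 : ℝ)| < 1 := by rw [abs_of_neg (by norm_num)]; norm_num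
  have h1 := (summable_fs hz).hasSum.tendsto_sum_nat
  have h2 : sK = fun K => ∑ j ∈ range (K + 1), ac j * (-1 / 2 : ℝ) ^ j := by
    funext K
    exact sum_congr rfl fun j _ => sK_term j
  rw [h2, cinf_eq]
  exact (tendsto_add_atTop_iff_nat 1).2 h1

end

end Pool.Agent.Lib.MP_1a91b9_ntH.Da
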