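import Pool.Agent.Lib.MP_1a91b9_ntH.D.Engine
import Pool.Agent.Lib.MP_1a91b9_ntH.D.Cls
import Pool.Agent.Lib.MP_1a91b9_ntH.D.Lim

/-!
# MP_1a91b9_nt (TwistDensity), part D: all moments and the density, from the engine
-/

set_option autoImplicit false

namespace Pool.Agent.Lib.MP_1a91b9_ntH.Da

open Finset

noncomputable section

/-- The label system of the `k`-th moment twisted by `c`. -/
def LSk (k : ℕ) (c : F4) : LSys (Lab k) where
  Phi := Phi
  gam := gam c
  o := fun l => (Fintype.equivFin (Lab k) l : ℕ)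
  m := 4 ^ k

theorem LSk_inj (k : ℕ) (c : F4) : Function.Injective (LSk k c).o := fun _ _ h =>
  (Fintype.equivFin (Lab k)).injective (Fin.val_injective h)

theorem LSk_OK {k : ℕ} (hk : 1 ≤ k) (c : F4) : (LSk k c).OK where
  diag := Phi_self
  inj := LSk_inj k c
  two := by
    show 2 ≤ 4 ^ k
    calc 2 ≤ 4 ^ 1 := by norm_num
      _ ≤ 4 ^ k := Nat.pow_le_pow_right (by norm_num) hk
  k1 := fun _ hU => K1 hU
  k2 := fun U hU hc x hx => by
    obtain ⟨l, hl, l', hl', h1, h2⟩ := K2 hU hc hx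
    refine ⟨l, hl, l', hl', ?_⟩
    show Lk l x ≠ Lk l' x
    rw [h1, h2]
    exact one_ne_zero

theorem sum_cU (k : ℕ) (c : F4) : ∑ U ∈ (LSk k c).Us, (LSk k c).cU U =
    if c = 0 then (Nk k : ℝ) else 0 :=
  K3 (LSk k c).o (LSk_inj k c) c

variable {ι : Type} [DecidableEq ι] [PS ι]

theorem moOK {D : Dat ι} (hD : D.OK) : MoOK D := by
  intro k c ε hε
  rcases Nat.eq_zero_or_pos k with rfl | hk
  · exact Mo_zero hD.h3 c ε hε
  · obtain ⟨X0, h0⟩ := engine D hD (LSk k c) (LSk_OK hk c) ε hε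
    refine ⟨X0, fun X hX => ?_⟩
    have h1 := h0 X hX
    rw [sum_cU] at h1
    have h2 : ∑ S ∈ Sx ι X, (((LSk k c).m : ℝ)⁻¹) ^ S.card *
        ∑ f : S → Lab k, sg (D.eS (LSk k c) S f) = Mo D k c X := by
      refine sum_congr rfl fun S _ => ?_
      rw [kc_pow_eq, inv_pow, mul_comm, ← div_eq_mul_inv]
      have e : ((LSk k c).m : ℝ) = 4 ^ k := by
        show (((4 ^ k : ℕ)) : ℝ) = 4 ^ k
        push_cast
        rfl
      rw [e]
      rfl
    rw [h2] at h1
    exact h1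

/-- **Part D.** In every class the lower density of the `S` with `det M_S ≠ 0` is at least
`0.5684`. -/
theorem density {D : Dat ι} (hD : D.OK) (ε : ℝ) (hε : 0 < ε) :
    ∃ X₀ : ℕ, ∀ X : ℕ, X₀ ≤ X → ∀ α : F4,
      0.5684 * (((Sx ι X).filter fun S => D.A S = α).card : ℝ) - ε * X ≤
        ((Sx ι X).filter fun S => D.A S = α ∧ (D.M S).det ≠ 0).card := by
  obtain ⟨X0, h0⟩ := dens (moOK hD) ε hε
  refine ⟨X0, fun X hX α => ?_⟩
  have := h0 X hX α
  rw [SA, good, SA, filter_filter] at this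
  exact this

/-- There are odd `K` with `sK K > κ` for every `κ` smaller than the infinite product. -/
theorem exists_odd {κ : ℝ} (hκ : κ < cinf) : ∃ K, Odd K ∧ κ < sK K := by
  have h1 := tendsto_sK.eventually (lt_mem_nhds hκ)
  obtain ⟨N, hN⟩ := Filter.eventually_atTop.1 h1
  exact ⟨2 * N + 1, ⟨N, rfl⟩, hN _ (by omega)⟩

/-- There are even `K` with `sK K < κ` for every `κ` larger than the infinite product. -/
theorem exists_even {κ : ℝ} (hκ : cinf < κ) : ∃ K, Even K ∧ sK K < κ := by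
  have h1 := tendsto_sK.eventually (gt_mem_nhds hκ)
  obtain ⟨N, hN⟩ := Filter.eventually_atTop.1 h1
  exact ⟨2 * N, ⟨N, by ring⟩, hN _ (by omega)⟩

/-- **Part D**, lower bound with every constant smaller than
`∏_{i ≥ 0} (1 + 2^{-(2i+1)})⁻¹ = 0.5686...`. -/
theorem density_cinf {D : Dat ι} (hD : D.OK) {κ : ℝ} (hκ : κ < cinf) (ε : ℝ) (hε : 0 < ε) :
    ∃ X₀ : ℕ, ∀ X : ℕ, X₀ ≤ X → ∀ α : F4,
      κ * (((Sx ι X).filter fun S => D.A S = α).card : ℝ) - ε * X ≤
        ((Sx ι X).filter fun S => D.A S = α ∧ (D.M S).det ≠ 0).card := by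
  obtain ⟨K, hK, h1⟩ := exists_odd hκ
  obtain ⟨X0, h0⟩ := dens_lower (MF_of_moments (moOK hD)) K hK ε hε
  refine ⟨X0, fun X hX α => ?_⟩
  have h2 := h0 X hX α
  rw [SA, good, SA, filter_filter] at h2
  have h3 := mul_le_mul_of_nonneg_right h1.le
    (Nat.cast_nonneg (α := ℝ) ((Sx ι X).filter fun S => D.A S = α).card)
  linarith

/-- **Part D**, upper bound with every constant larger than the infinite product. -/
theorem density_cinf_upper {D : Dat ι} (hD : D.OK) {κ : ℝ} (hκ : cinf < κ) (ε : ℝ) (hε : 0 < ε) :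
    ∃ X₀ : ℕ, ∀ X : ℕ, X₀ ≤ X → ∀ α : F4,
      (((Sx ι X).filter fun S => D.A S = α ∧ (D.M S).det ≠ 0).card : ℝ) ≤
        κ * ((Sx ι X).filter fun S => D.A S = α).card + ε * X := by
  obtain ⟨K, hK, h1⟩ := exists_even hκ
  obtain ⟨X0, h0⟩ := dens_upper (MF_of_moments (moOK hD)) K hK ε hε
  refine ⟨X0, fun X hX α => ?_⟩
  have h2 := h0 X hX α
  rw [SA, good, SA, filter_filter] at h2
  have h3 := mul_le_mul_of_nonneg_right h1.le
    (Nat.cast_nonneg (α := ℝ) ((Sx ι X).filter fun S => D.A S = α).card)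
  linarith

end

end Pool.Agent.Lib.MP_1a91b9_ntH.Da
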