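import Pool.Agent.Lib.MP_1a91b9_ntH.D.Exp

/-!
# Part D: Fourier analysis on `L → F4`
-/

set_option autoImplicit false

namespace Pool.Agent.Lib.MP_1a91b9_ntH

open Finset

noncomputable section

variable {L : Type} [Fintype L] [DecidableEq L]

private theorem fourier_F4 (y : F4) : ∑ x : F4, sg (F4.tr (y * x)) = if y = 0 then (4 : ℝ) else 0 := by
  have hu : (univ : Finset F4) = {⟨0, 0⟩, ⟨1, 0⟩, ⟨0, 1⟩, ⟨1, 1⟩} := by decide
  have hy : ∀ y : F4, y = ⟨0, 0⟩ ∨ y = ⟨1, 0⟩ ∨ y = ⟨0, 1⟩ ∨ y = ⟨1, 1⟩ := by decide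
  have d1 : ∀ a b : F4, (F4.tr (a * b) = 0) = (decide (F4.tr (a * b) = 0) = true) := by
    intro a b; simp
  rw [hu, sum_insert (by decide), sum_insert (by decide), sum_insert (by decide), sum_singleton]
  unfold sg
  rcases hy y with rfl | rfl | rfl | rfl
  · rw [if_pos (by decide), if_pos (by decide), if_pos (by decide), if_pos (by decide),
      if_pos (by decide)]
    norm_num
  · rw [if_pos (by decide), if_pos (by decide), if_neg (by decide), if_neg (by decide),
      if_neg (by decide)]
    norm_num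
  · rw [if_pos (by decide), if_neg (by decide), if_neg (by decide), if_pos (by decide),
      if_neg (by decide)]
    norm_num
  · rw [if_pos (by decide), if_neg (by decide), if_pos (by decide), if_neg (by decide),
      if_neg (by decide)]
    norm_num

theorem sum_sg (h : L → F4) :
    ∑ A : L → F4, sg (∑ l, F4.tr (h l * A l)) = if h = 0 then (Fintype.card (L → F4) : ℝ) else 0 := by
  have h1 : ∀ A : L → F4, sg (∑ l, F4.tr (h l * A l)) = ∏ l, sg (F4.tr (h l * A l)) := fun A =>
    sgD_sum _ _
  rw [Finset.sum_congr rfl fun A _ => h1 A]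
  have h2 : ∑ A : L → F4, ∏ l, sg (F4.tr (h l * A l)) = ∏ l, ∑ x : F4, sg (F4.tr (h l * x)) := by
    rw [Finset.prod_univ_sum, Fintype.piFinset_univ]
  rw [h2, Finset.prod_congr rfl fun l _ => fourier_F4 (h l)]
  split_ifs with h0
  · subst h0
    simp only [Pi.zero_apply, if_true, Finset.prod_const, Finset.card_univ]
    rw [Fintype.card_fun, F4.card_F4]
    push_cast
    rfl
  · obtain ⟨l, hl⟩ := Function.ne_iff.1 h0
    exact Finset.prod_eq_zero (Finset.mem_univ l) (if_neg hl)

private theorem fourier_add_eq_zero (x y : F4) : x + y = 0 ↔ x = y := by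
  revert x y; decide

private theorem fourier_card_pos : (0 : ℝ) < (Fintype.card (L → F4) : ℝ) := by
  have : 0 < Fintype.card (L → F4) := Fintype.card_pos
  exact_mod_cast this

theorem fourier (Λ : LSys L) (U : Finset L) (A : L → F4) :
    sg (Λ.th U A) = ∑ h : L → F4, Λ.gh U h * sg (∑ l, F4.tr (h l * A l)) := by
  have hc := fourier_card_pos (L := L)
  have h1 : ∀ h : L → F4, Λ.gh U h * sg (∑ l, F4.tr (h l * A l)) =
      (∑ B : L → F4, sg (Λ.th U B) * sg (∑ l, F4.tr ((B l + A l) * h l))) /
        (Fintype.card (L → F4) : ℝ) := by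
    intro h
    unfold LSys.gh
    rw [div_mul_eq_mul_div, Finset.sum_mul]
    congr 1
    refine Finset.sum_congr rfl fun B _ => ?_
    rw [sgD_add, mul_assoc, ← sgD_add, ← Finset.sum_add_distrib]
    congr 2
    refine Finset.sum_congr rfl fun l _ => ?_
    rw [← trD_add]
    congr 1
    ring
  rw [Finset.sum_congr rfl fun h _ => h1 h, ← Finset.sum_div, Finset.sum_comm]
  have h2 : ∀ B : L → F4, ∑ h : L → F4, sg (Λ.th U B) * sg (∑ l, F4.tr ((B l + A l) * h l)) =
      if B = A then sg (Λ.th U B) * (Fintype.card (L → F4) : ℝ) else 0 := by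
    intro B
    rw [← Finset.mul_sum, sum_sg (fun l => B l + A l)]
    have h3 : ((fun l => B l + A l) = 0) ↔ B = A := by
      constructor
      · intro h
        funext l
        exact (fourier_add_eq_zero _ _).1 (congrFun h l)
      · rintro rfl
        funext l
        exact (fourier_add_eq_zero _ _).2 rfl
    by_cases hBA : B = A
    · rw [if_pos (h3.2 hBA), if_pos hBA]
    · rw [if_neg (fun h => hBA (h3.1 h)), if_neg hBA, mul_zero]
  rw [Finset.sum_congr rfl fun B _ => h2 B, Finset.sum_ite_eq', if_pos (Finset.mem_univ _)]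
  rw [mul_div_assoc, div_self hc.ne', mul_one]

theorem gh_abs (Λ : LSys L) (U : Finset L) (h : L → F4) : |Λ.gh U h| ≤ 1 := by
  have hc := fourier_card_pos (L := L)
  unfold LSys.gh
  rw [abs_div, abs_of_pos hc, div_le_one hc]
  refine (Finset.abs_sum_le_sum_abs _ _).trans (le_of_eq ?_)
  rw [Finset.sum_congr rfl fun A _ => sgD_abs _, Finset.sum_const, Finset.card_univ,
    nsmul_eq_mul, mul_one]

theorem gh_zero (Λ : LSys L) (U : Finset L) : Λ.gh U 0 = Λ.cU U := by
  unfold LSys.gh LSys.cU
  congr 1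
  refine Finset.sum_congr rfl fun A _ => ?_
  congr 1
  have : ∑ l, F4.tr ((0 : L → F4) l * A l) = 0 := by
    refine Finset.sum_eq_zero fun l _ => ?_
    rw [Pi.zero_apply, zero_mul]
    rfl
  rw [this, add_zero]

private theorem fourier_exists (x : F4) (hx : x ≠ 0) : ∃ y, F4.tr (x * y) = 1 := by
  revert x; decide

theorem gh_supp (Λ : LSys L) (U : Finset L) (h : L → F4) (l : L) (hl : l ∉ U) (hh : h l ≠ 0) :
    Λ.gh U h = 0 := by
  obtain ⟨c, hc⟩ := fourier_exists (h l) hh
  unfold LSys.gh
  have key : ∑ A : L → F4, sg (Λ.th U A + ∑ l, F4.tr (h l * A l)) =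
      ∑ A : L → F4, - sg (Λ.th U A + ∑ l, F4.tr (h l * A l)) := by
    rw [← Equiv.sum_comp (Equiv.addRight (Pi.single l c : L → F4))]
    refine Finset.sum_congr rfl fun A _ => ?_
    have h1 : Λ.th U (A + Pi.single l c) = Λ.th U A := by
      have h2 : ∀ k ∈ U, (A + Pi.single l c : L → F4) k = A k := by
        intro k hk
        have : k ≠ l := fun h => hl (h ▸ hk)
        rw [Pi.add_apply, Pi.single_eq_of_ne this, add_zero]
      unfold LSys.th
      congr 1
      · exact Finset.sum_congr rfl fun k hk => by rw [h2 k hk]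
      · exact Finset.sum_congr rfl fun k hk => Finset.sum_congr rfl fun k' hk' => by
          rw [h2 k hk, h2 k' hk']
    have h3 : ∑ k, F4.tr (h k * (A + Pi.single l c : L → F4) k) = ∑ k, F4.tr (h k * A k) + 1 := by
      have h4 : ∀ k, F4.tr (h k * (A + Pi.single l c : L → F4) k) =
          F4.tr (h k * A k) + F4.tr (h k * (Pi.single l c : L → F4) k) := by
        intro k
        rw [Pi.add_apply, mul_add, trD_add]
      rw [Finset.sum_congr rfl fun k _ => h4 k, Finset.sum_add_distrib]
      congr 1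
      rw [Finset.sum_eq_single l]
      · rw [Pi.single_eq_same, hc]
      · intro k _ hk
        rw [Pi.single_eq_of_ne hk, mul_zero]
        rfl
      · intro h
        exact absurd (Finset.mem_univ l) h
    rw [Equiv.coe_addRight, h1, h3, ← add_assoc, sgD_add]
    have h5 : sg (1 : ZMod 2) = -1 := by
      unfold sg
      rw [if_neg (by decide)]
    rw [h5]
    ring
  rw [Finset.sum_neg_distrib] at key
  have : ∑ A : L → F4, sg (Λ.th U A + ∑ l, F4.tr (h l * A l)) = 0 := by linarith
  rw [this, zero_div]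

end

end Pool.Agent.Lib.MP_1a91b9_ntH
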