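import Pool.Agent.Lib.MP_1a91b9_ntH.D.UB
import Pool.Agent.Lib.MP_1a91b9_ntH.D.Fam

/-!
# Part D: two small lemmas

`div_log` compares `log (X / P)` with `log X` when `P ^ 2 ≤ X`; `nmf_le_pow` and `harm_fam` are bounds for small families
(`SmB ι V U` is contained in a product of copies of `Sx ι V`).
-/

set_option autoImplicit false

namespace Pool.Agent.Lib.MP_1a91b9_ntH

open Finset

noncomputable section

theorem div_log (X P : ℕ) (δ : ℝ) (hX : 16 ≤ X) (hP : 1 ≤ P) (hPX : P ^ 2 ≤ X) (h0 : 0 < δ) (h1 : δ ≤ 1) :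
    2 ≤ X / P ∧ ((X / P : ℕ) : ℝ) ≤ X * (1 / P) ∧
      Real.log ((X / P : ℕ) : ℝ) ^ (-δ) ≤ 4 * Real.log X ^ (-δ) := by
  have hQ2 : 2 ≤ X / P := by
    rw [Nat.le_div_iff_mul_le (by omega)]
    rcases Nat.lt_or_ge P 2 with h | h
    · have : P = 1 := by omega
      subst this
      omega
    · calc 2 * P ≤ P * P := Nat.mul_le_mul_right P h
        _ = P ^ 2 := (pow_two P).symm
        _ ≤ X := hPX
  refine ⟨hQ2, ?_, ?_⟩
  · calc ((X / P : ℕ) : ℝ) ≤ (X : ℝ) / P := Nat.cast_div_le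
      _ = X * (1 / P) := by rw [mul_one_div]
  · set Q : ℕ := X / P with hQ
    have hlt : X < P * (Q + 1) := by
      rw [hQ]
      exact Nat.lt_mul_div_succ X (by omega)
    have hX2 : X < (Q + 1) ^ 2 := by
      by_contra hcon
      have hcon' : (Q + 1) ^ 2 ≤ X := not_lt.1 hcon
      have h3 : P ^ 2 * (Q + 1) ^ 2 ≤ X * X := Nat.mul_le_mul hPX hcon'
      have h4 : X * X < (P * (Q + 1)) * (P * (Q + 1)) := Nat.mul_self_lt_mul_self hlt
      have h5 : (P * (Q + 1)) * (P * (Q + 1)) = P ^ 2 * (Q + 1) ^ 2 := by ring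
      omega
    have hX4 : X ≤ Q ^ 4 := by
      have h6 : Q + 1 ≤ Q ^ 2 := by nlinarith
      calc X ≤ (Q + 1) ^ 2 := hX2.le
        _ ≤ (Q ^ 2) ^ 2 := Nat.pow_le_pow_left h6 2
        _ = Q ^ 4 := by rw [← pow_mul]
    have hXr : (16 : ℝ) ≤ X := by exact_mod_cast hX
    have hX4r : (X : ℝ) ≤ (Q : ℝ) ^ 4 := by exact_mod_cast hX4
    have hlogX : 0 < Real.log X := Real.log_pos (by linarith)
    have hlog : Real.log X ≤ 4 * Real.log Q := by
      have := Real.log_le_log (by linarith) hX4r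
      rwa [Real.log_pow] at this
    have h7 : (1 / 4 : ℝ) * Real.log X ≤ Real.log Q := by linarith
    have h8 : (1 / 4 : ℝ) ^ (-δ) ≤ 4 := by
      rw [one_div, Real.inv_rpow (by norm_num), Real.rpow_neg (by norm_num), inv_inv]
      calc (4 : ℝ) ^ δ ≤ (4 : ℝ) ^ (1 : ℝ) :=
            Real.rpow_le_rpow_of_exponent_le (by norm_num) h1
        _ = 4 := Real.rpow_one 4
    calc Real.log (Q : ℝ) ^ (-δ) ≤ ((1 / 4 : ℝ) * Real.log X) ^ (-δ) :=
          Real.rpow_le_rpow_of_nonpos (by positivity) h7 (by linarith)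
      _ = (1 / 4 : ℝ) ^ (-δ) * Real.log X ^ (-δ) := Real.mul_rpow (by norm_num) hlogX.le
      _ ≤ 4 * Real.log X ^ (-δ) :=
          mul_le_mul_of_nonneg_right h8 (Real.rpow_nonneg hlogX.le _)

variable {ι : Type} [DecidableEq ι] [PS ι] {L : Type} [Fintype L] [DecidableEq L]

theorem nmf_le_pow {V : ℕ} {U : Finset L} {b : L → Finset ι} (hb : b ∈ SmB ι V U) :
    nmf b ≤ V ^ Fintype.card L := by
  have h := (mem_SmB.1 hb).1
  unfold nmf
  calc ∏ l, nm (b l) ≤ ∏ _l : L, V := prod_le_prod' fun l _ => h l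
    _ = V ^ Fintype.card L := by rw [prod_const, card_univ]

theorem harm_fam {H : ℝ} (hH1 : 1 ≤ H)
    (hH : ∀ x : ℕ, 1 ≤ x → ∑ S ∈ Sx ι x, (1 : ℝ) / nm S ≤ H * (1 + Real.log x))
    (V : ℕ) (hV : 1 ≤ V) (U : Finset L) :
    ∑ b ∈ SmB ι V U, (1 : ℝ) / nmf b ≤ H ^ Fintype.card L * (1 + Real.log V) ^ Fintype.card L := by
  have hV' : (1 : ℝ) ≤ V := by exact_mod_cast hV
  have hlog : 0 ≤ Real.log V := Real.log_nonneg hV'
  have hsub : SmB ι V U ⊆ Fintype.piFinset fun _ : L => Sx ι V := by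
    intro b hb
    rw [Fintype.mem_piFinset]
    exact fun l => mem_Sx.2 ((mem_SmB.1 hb).1 l)
  calc ∑ b ∈ SmB ι V U, (1 : ℝ) / nmf b
      ≤ ∑ b ∈ Fintype.piFinset fun _ : L => Sx ι V, (1 : ℝ) / nmf b :=
        sum_le_sum_of_subset_of_nonneg hsub fun b _ _ => by positivity
    _ = ∑ b ∈ Fintype.piFinset fun _ : L => Sx ι V, ∏ l, (1 : ℝ) / nm (b l) := by
        refine sum_congr rfl fun b _ => ?_
        unfold nmf
        push_cast
        rw [prod_div_distrib, prod_const_one]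
    _ = ∏ _l : L, ∑ S ∈ Sx ι V, (1 : ℝ) / nm S := by
        rw [prod_univ_sum]
    _ ≤ ∏ _l : L, (H * (1 + Real.log V)) :=
        prod_le_prod (fun _ _ => sum_nonneg fun S _ => by positivity) fun _ _ => hH V hV
    _ = H ^ Fintype.card L * (1 + Real.log V) ^ Fintype.card L := by
        rw [prod_const, card_univ, mul_pow]

end

end Pool.Agent.Lib.MP_1a91b9_ntH
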