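import Pool.Agent.Lib.MP_1a91b9_ntH.D.PL

/-!
# Part D: a pattern with a linked pair contributes little

For a linked pair of labels the exponent of a family contains the symbol of the two variables exactly once; after fixing
the class of the first variable the summand is a product of a function of each of them and of this symbol, and the
bilinear bound applies.
-/

set_option autoImplicit false

namespace Pool.Agent.Lib.MP_1a91b9_ntH

open Finset

noncomputable section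

variable {ι : Type} [DecidableEq ι] [PS ι] {L : Type} [Fintype L] [DecidableEq L]

set_option linter.unusedSectionVars false

private theorem linked_base_apply (l0 l1 : L) (d : L → Finset ι) (l : L) :
    base l0 l1 d l = if l = l1 then ∅ else if l = l0 then ∅ else d l := by
  unfold base
  rw [Function.update_apply, Function.update_apply]

private theorem linked_sum {M : Type} [AddCommMonoid M] {l0 l1 : L} (hne : l0 ≠ l1) (d : L → Finset ι)
    (f : L → Finset ι → M) (h0 : ∀ l, f l ∅ = 0) :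
    ∑ l, f l (d l) = f l0 (d l0) + f l1 (d l1) + ∑ l, f l (base l0 l1 d l) := by
  have key : ∀ l, f l (d l) = (if l = l0 then f l0 (d l0) else 0) + (if l = l1 then f l1 (d l1) else 0) +
      f l (base l0 l1 d l) := by
    intro l
    rw [linked_base_apply]
    by_cases h1 : l = l1
    · subst h1
      simp [hne.symm, h0]
    · by_cases h2 : l = l0
      · subst h2
        simp [h1, h0]
      · simp [h1, h2]
  rw [sum_congr rfl fun l _ => key l, sum_add_distrib, sum_add_distrib]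
  simp

private theorem linked_PD_base (l0 l1 : L) {d : L → Finset ι} (hd : PD d) : PD (base l0 l1 d) := by
  intro l m hlm
  rw [linked_base_apply, linked_base_apply]
  split_ifs <;> simp [hd l m hlm]

private theorem linked_disj0 (l0 l1 : L) {d : L → Finset ι} (hd : PD d) :
    Disjoint (d l0) (uni (base l0 l1 d)) := by
  unfold uni
  rw [disjoint_biUnion_right]
  intro l _
  rw [linked_base_apply]
  split_ifs with h1 h2
  · simp
  · simp
  · exact hd l0 l fun h => h2 h.symm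

private theorem linked_disj1 (l0 l1 : L) {d : L → Finset ι} (hd : PD d) :
    Disjoint (d l1) (uni (base l0 l1 d)) := by
  unfold uni
  rw [disjoint_biUnion_right]
  intro l _
  rw [linked_base_apply]
  split_ifs with h1 h2
  · simp
  · simp
  · exact hd l1 l fun h => h1 h.symm

private theorem linked_card_uni {d : L → Finset ι} (hd : PD d) : (uni d).card = ∑ l, (d l).card := by
  unfold uni
  exact card_biUnion fun l _ m _ h => hd l m h

private theorem linked_card {l0 l1 : L} (hne : l0 ≠ l1) {d : L → Finset ι} (hd : PD d) :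
    (uni d).card = (d l0).card + (d l1).card + (uni (base l0 l1 d)).card := by
  rw [linked_card_uni hd, linked_card_uni (linked_PD_base l0 l1 hd)]
  exact linked_sum hne d (fun _ S => S.card) fun _ => card_empty

private theorem linked_A_empty (D : Dat ι) : D.A ∅ = 0 := by
  simp [Dat.A]

private theorem linked_ss_left (D : Dat ι) (S : Finset ι) : D.ss ∅ S = 0 := by
  simp [Dat.ss]

private theorem linked_ss_right (D : Dat ι) (S : Finset ι) : D.ss S ∅ = 0 := by
  simp [Dat.ss]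

private theorem linked_tr_zero : F4.tr 0 = 0 := rfl

private theorem linked_ee {l0 l1 : L} (hne : l0 ≠ l1) (D : Dat ι) (hR : D.Rec) (Λ : LSys L)
    (hdiag : ∀ l, Λ.Phi l l = 0) (hlk : Λ.lk l0 l1 = 1) {d : L → Finset ι} (hd : PD d) :
    D.ee Λ d = D.ee Λ (base l0 l1 d) +
      (F4.tr (Λ.gam l0 * D.A (d l0)) + ∑ k, (Λ.Phi l0 k * D.ss (d l0) (base l0 l1 d k) +
        Λ.Phi k l0 * D.ss (base l0 l1 d k) (d l0))) +
      (F4.tr (Λ.gam l1 * D.A (d l1)) + ∑ k, (Λ.Phi l1 k * D.ss (d l1) (base l0 l1 d k) +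
        Λ.Phi k l1 * D.ss (base l0 l1 d k) (d l1)) +
        Λ.Phi l1 l0 * F4.tr (D.A (d l0) * D.A (d l1))) + D.ss (d l0) (d l1) := by
  have e1 : ∑ l, F4.tr (Λ.gam l * D.A (d l)) = F4.tr (Λ.gam l0 * D.A (d l0)) +
      F4.tr (Λ.gam l1 * D.A (d l1)) + ∑ l, F4.tr (Λ.gam l * D.A (base l0 l1 d l)) :=
    linked_sum hne d (fun l S => F4.tr (Λ.gam l * D.A S)) fun l => by
      show F4.tr (Λ.gam l * D.A ∅) = 0
      rw [linked_A_empty, mul_zero, linked_tr_zero]
  have e2 : ∑ l, ∑ m, Λ.Phi l m * D.ss (d l) (d m) =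
      ∑ m, Λ.Phi l0 m * D.ss (d l0) (d m) + ∑ m, Λ.Phi l1 m * D.ss (d l1) (d m) +
        ∑ l, ∑ m, Λ.Phi l m * D.ss (base l0 l1 d l) (d m) :=
    linked_sum hne d (fun l S => ∑ m, Λ.Phi l m * D.ss S (d m)) fun l => by
      show ∑ m, Λ.Phi l m * D.ss ∅ (d m) = 0
      exact sum_eq_zero fun m _ => by rw [linked_ss_left, mul_zero]
  have e3 : ∀ (l : L) (R : Finset ι), ∑ m, Λ.Phi l m * D.ss R (d m) =
      Λ.Phi l l0 * D.ss R (d l0) + Λ.Phi l l1 * D.ss R (d l1) +
        ∑ m, Λ.Phi l m * D.ss R (base l0 l1 d m) := fun l R =>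
    linked_sum hne d (fun m S => Λ.Phi l m * D.ss R S) fun m => by
      show Λ.Phi l m * D.ss R ∅ = 0
      rw [linked_ss_right, mul_zero]
  have e4 : D.ss (d l1) (d l0) = F4.tr (D.A (d l0) * D.A (d l1)) + D.ss (d l0) (d l1) := by
    have h := ssD_rec D hR (hd l0 l1 hne)
    rw [← h]
    have h2 : D.ss (d l0) (d l1) + D.ss (d l0) (d l1) = 0 := CharTwo.add_self_eq_zero _
    rw [add_right_comm, h2, zero_add]
  have e5 : Λ.Phi l0 l1 = 1 + Λ.Phi l1 l0 := by
    rw [← hlk]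
    unfold LSys.lk
    rw [add_assoc, CharTwo.add_self_eq_zero, add_zero]
  unfold Dat.ee
  rw [e1, e2, e3 l0 (d l0), e3 l1 (d l1), sum_congr rfl fun l _ => e3 l (base l0 l1 d l), e4, hdiag l0, hdiag l1,
    e5]
  simp only [sum_add_distrib]
  have h2 : Λ.Phi l1 l0 * D.ss (d l0) (d l1) + Λ.Phi l1 l0 * D.ss (d l0) (d l1) = 0 :=
    CharTwo.add_self_eq_zero _
  linear_combination h2

open Classical in
private def linked_al (D : Dat ι) (Λ : LSys L) (V : ℕ) (Z : Finset L) (l0 l1 : L) (z : F4)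
    (b : L → Finset ι) (S : Finset ι) : ℝ :=
  if PD b ∧ Disjoint S (uni b) ∧ D.A S = z ∧ (∀ l, l ≠ l0 → l ≠ l1 → (l ∈ Z ↔ V < nm (b l))) then
    ((Λ.m : ℝ)⁻¹) ^ (uni b).card * sg (D.ee Λ b) * (((Λ.m : ℝ)⁻¹) ^ S.card *
      sg (F4.tr (Λ.gam l0 * D.A S) + ∑ k, (Λ.Phi l0 k * D.ss S (b k) + Λ.Phi k l0 * D.ss (b k) S)))
  else 0

open Classical in
private def linked_be (D : Dat ι) (Λ : LSys L) (l0 l1 : L) (z : F4) (b : L → Finset ι) (T : Finset ι) : ℝ :=
  if Disjoint T (uni b) then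
    ((Λ.m : ℝ)⁻¹) ^ T.card * sg (F4.tr (Λ.gam l1 * D.A T) +
      ∑ k, (Λ.Phi l1 k * D.ss T (b k) + Λ.Phi k l1 * D.ss (b k) T) + Λ.Phi l1 l0 * F4.tr (z * D.A T))
  else 0

private theorem linked_inv_nonneg (Λ : LSys L) : (0 : ℝ) ≤ (Λ.m : ℝ)⁻¹ :=
  inv_nonneg.2 (Nat.cast_nonneg _)

private theorem linked_pow_le (Λ : LSys L) (hm : 2 ≤ Λ.m) (n : ℕ) : |((Λ.m : ℝ)⁻¹) ^ n| ≤ 1 := by
  rw [abs_of_nonneg (pow_nonneg (linked_inv_nonneg Λ) n)]
  refine pow_le_one₀ (linked_inv_nonneg Λ) (inv_le_one_of_one_le₀ ?_)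
  exact_mod_cast (by omega : 1 ≤ Λ.m)

private theorem linked_term_le (Λ : LSys L) (hm : 2 ≤ Λ.m) (n : ℕ) (x : ZMod 2) :
    |((Λ.m : ℝ)⁻¹) ^ n * sg x| ≤ 1 := by
  rw [abs_mul, sgD_abs, mul_one]
  exact linked_pow_le Λ hm n

private theorem linked_al_le (D : Dat ι) (Λ : LSys L) (hm : 2 ≤ Λ.m) (V : ℕ) (Z : Finset L) (l0 l1 : L) (z : F4)
    (b : L → Finset ι) (S : Finset ι) : |linked_al D Λ V Z l0 l1 z b S| ≤ 1 := by
  unfold linked_al
  split_ifs with h
  · rw [abs_mul]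
    exact mul_le_one₀ (linked_term_le Λ hm _ _) (abs_nonneg _) (linked_term_le Λ hm _ _)
  · rw [abs_zero]
    exact zero_le_one

private theorem linked_be_le (D : Dat ι) (Λ : LSys L) (hm : 2 ≤ Λ.m) (l0 l1 : L) (z : F4)
    (b : L → Finset ι) (T : Finset ι) : |linked_be D Λ l0 l1 z b T| ≤ 1 := by
  unfold linked_be
  split_ifs with h
  · exact linked_term_le Λ hm _ _
  · rw [abs_zero]
    exact zero_le_one

private theorem linked_al_supp (D : Dat ι) (Λ : LSys L) (V : ℕ) (Z : Finset L) (l0 l1 : L) (z : F4)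
    (b : L → Finset ι) (S : Finset ι) (h : linked_al D Λ V Z l0 l1 z b S ≠ 0) : PD b ∧ Disjoint S (uni b) := by
  unfold linked_al at h
  have c := by_contra fun h' => h (if_neg h')
  exact ⟨c.1, c.2.1⟩

private theorem linked_be_supp (D : Dat ι) (Λ : LSys L) (l0 l1 : L) (z : F4)
    (b : L → Finset ι) (T : Finset ι) (h : linked_be D Λ l0 l1 z b T ≠ 0) : Disjoint T (uni b) := by
  unfold linked_be at h
  exact by_contra fun h' => h (if_neg h')

open Classical in
private theorem linked_main {l0 l1 : L} (hne : l0 ≠ l1) (D : Dat ι) (hR : D.Rec) (Λ : LSys L)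
    (hdiag : ∀ l, Λ.Phi l l = 0) (hlk : Λ.lk l0 l1 = 1) (V : ℕ) (Z : Finset L) {d : L → Finset ι} (hd : PD d) :
    ∑ z : F4, linked_al D Λ V Z l0 l1 z (base l0 l1 d) (d l0) * linked_be D Λ l0 l1 z (base l0 l1 d) (d l1) *
        sg (D.ss (d l0) (d l1)) =
      if ∀ l, l ≠ l0 → l ≠ l1 → (l ∈ Z ↔ V < nm (d l)) then D.FF Λ d else 0 := by
  have hb : (∀ l, l ≠ l0 → l ≠ l1 → (l ∈ Z ↔ V < nm (base l0 l1 d l))) ↔
      ∀ l, l ≠ l0 → l ≠ l1 → (l ∈ Z ↔ V < nm (d l)) := by
    refine forall_congr' fun l => forall_congr' fun h0 => forall_congr' fun h1 => ?_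
    rw [linked_base_apply, if_neg h1, if_neg h0]
  rw [sum_eq_single (D.A (d l0))]
  · unfold linked_al linked_be
    rw [if_pos (linked_disj1 l0 l1 hd)]
    split_ifs with h1 h2 h2
    · unfold Dat.FF
      rw [linked_ee hne D hR Λ hdiag hlk hd, linked_card hne hd, pow_add, pow_add]
      simp only [sgD_add]
      ring
    · exact absurd (hb.1 h1.2.2.2) h2
    · exact absurd ⟨linked_PD_base l0 l1 hd, linked_disj0 l0 l1 hd, rfl, hb.2 h2⟩ h1
    · ring
  · intro z _ hz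
    have : linked_al D Λ V Z l0 l1 z (base l0 l1 d) (d l0) = 0 := by
      unfold linked_al
      exact if_neg fun h => hz h.2.2.1.symm
    rw [this, zero_mul, zero_mul]
  · intro h
    exact absurd (mem_univ _) h

private theorem linked_one_of_ne_zero : ∀ x : ZMod 2, x ≠ 0 → x = 1 := by
  decide

theorem linked_bound (D : Dat ι) (hD : D.OK) (Λ : LSys L) (hΛ : Λ.OK) :
    ∃ (C : ℝ) (K : ℕ) (c : ℝ), 0 < C ∧ 0 < c ∧ ∀ (X V : ℕ) (Z : Finset L) (l0 l1 : L), 2 ≤ X → 1 ≤ V →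
      l0 ∈ Z → l1 ∈ Z → Λ.lk l0 l1 ≠ 0 →
      |∑ d ∈ BoxZ ι X V Z, D.FF Λ d| ≤ C * X * (1 + Real.log X) ^ K * (V : ℝ) ^ (-c) := by
  obtain ⟨C0, K0, c0, hc0, hBL⟩ := hD.bl
  obtain ⟨C2, hZ⟩ := hD.zt
  obtain ⟨H, hH1, hH⟩ := harm hZ
  obtain ⟨C, hC, hpl⟩ := pl (L := L) D hBL hH1 hH
  refine ⟨4 * C, K0 + Fintype.card L, c0, by positivity, hc0, ?_⟩
  intro X V Z l0 l1 hX hV h0 h1 hlk
  have hne : l0 ≠ l1 := by
    intro h
    apply hlk
    rw [h]
    unfold LSys.lk
    rw [hΛ.diag, add_zero]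
  have hlk1 : Λ.lk l0 l1 = 1 := linked_one_of_ne_zero _ hlk
  classical
  have key : ∑ d ∈ BoxZ ι X V Z, D.FF Λ d =
      ∑ z : F4, ∑ d ∈ (Box ι L X).filter (fun d => V < nm (d l0) ∧ V < nm (d l1)),
        linked_al D Λ V Z l0 l1 z (base l0 l1 d) (d l0) * linked_be D Λ l0 l1 z (base l0 l1 d) (d l1) *
          sg (D.ss (d l0) (d l1)) := by
    rw [sum_comm]
    have e1 : ∑ d ∈ (Box ι L X).filter (fun d => V < nm (d l0) ∧ V < nm (d l1)), ∑ z : F4,
        linked_al D Λ V Z l0 l1 z (base l0 l1 d) (d l0) * linked_be D Λ l0 l1 z (base l0 l1 d) (d l1) *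
          sg (D.ss (d l0) (d l1)) =
        ∑ d ∈ (Box ι L X).filter (fun d => V < nm (d l0) ∧ V < nm (d l1)),
          if ∀ l, l ≠ l0 → l ≠ l1 → (l ∈ Z ↔ V < nm (d l)) then D.FF Λ d else 0 := by
      refine sum_congr rfl fun d hd => ?_
      exact linked_main hne D hD.rec_ Λ hΛ.diag hlk1 V Z (mem_Box.1 (mem_filter.1 hd).1).1
    rw [e1, ← sum_filter, filter_filter]
    refine sum_congr ?_ fun _ _ => rfl
    ext d
    rw [mem_BoxZ, mem_filter, mem_Box, and_assoc]
    refine and_congr_right fun _ => and_congr_right fun _ => ⟨fun h => ⟨⟨(h l0).1 h0, (h l1).1 h1⟩,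
      fun l _ _ => h l⟩, fun h l => ?_⟩
    by_cases e0 : l = l0
    · subst e0
      exact ⟨fun _ => h.1.1, fun _ => h0⟩
    · by_cases e1 : l = l1
      · subst e1
        exact ⟨fun _ => h.1.2, fun _ => h1⟩
      · exact h.2 l e0 e1
  rw [key]
  have hz : ∀ z : F4, |∑ d ∈ (Box ι L X).filter (fun d => V < nm (d l0) ∧ V < nm (d l1)),
        linked_al D Λ V Z l0 l1 z (base l0 l1 d) (d l0) * linked_be D Λ l0 l1 z (base l0 l1 d) (d l1) *
          sg (D.ss (d l0) (d l1))| ≤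
      C * X * (1 + Real.log X) ^ (K0 + Fintype.card L) * (V : ℝ) ^ (-c0) := by
    intro z
    refine (le_of_eq ?_).trans (hpl l0 l1 (fun d => linked_al D Λ V Z l0 l1 z (base l0 l1 d) (d l0) *
      linked_be D Λ l0 l1 z (base l0 l1 d) (d l1) * sg (D.ss (d l0) (d l1)))
      (linked_al D Λ V Z l0 l1 z) (linked_be D Λ l0 l1 z) V X hne hV hX
      (fun b S => linked_al_le D Λ hΛ.two V Z l0 l1 z b S)
      (fun b S => linked_be_le D Λ hΛ.two l0 l1 z b S)
      (fun b S h => linked_al_supp D Λ V Z l0 l1 z b S h)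
      (fun b S h => linked_be_supp D Λ l0 l1 z b S h) (fun d _ => rfl))
    refine congrArg abs (sum_congr ?_ fun _ _ => rfl)
    ext d
    simp only [mem_filter]
  refine (abs_sum_le_sum_abs _ _).trans ((sum_le_sum fun z _ => hz z).trans (le_of_eq ?_))
  rw [sum_const, card_univ, F4.card_F4, nsmul_eq_mul]
  push_cast
  ring

end

end Pool.Agent.Lib.MP_1a91b9_ntH
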