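import Pool.Agent.Lib.MP_1a91b9_ntH.D.Defs

/-! # Part D: the Euler product bound (port of QEuler; helper42) -/

set_option autoImplicit false

namespace Pool.Agent.Lib.MP_1a91b9_ntH

open Finset

noncomputable section

variable {ι : Type} [DecidableEq ι] [PS ι]

/-- Weighted arithmetic and geometric means. -/
private theorem eub_amgm (m : ℕ) (hm : 2 ≤ m) (x y : ℝ) (hx : 0 ≤ x) (hy : 0 ≤ y) :
    x ^ (m - 1) * y ≤ (((m - 1 : ℝ) * x + y) / m) ^ m := by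
  have hm2 : (2 : ℝ) ≤ m := by exact_mod_cast hm
  have hm0 : (0 : ℝ) < m := by linarith
  have h := Real.geom_mean_le_arith_mean2_weighted (w₁ := (m - 1 : ℝ) / m) (w₂ := 1 / m)
    (div_nonneg (by linarith) hm0.le) (by positivity) hx hy (by field_simp; ring)
  have h2 : (x ^ ((m - 1 : ℝ) / m) * y ^ (1 / (m : ℝ))) ^ m = x ^ (m - 1) * y := by
    rw [mul_pow, ← Real.rpow_mul_natCast hx, ← Real.rpow_mul_natCast hy,
      div_mul_cancel₀ _ hm0.ne', div_mul_cancel₀ _ hm0.ne', Real.rpow_one]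
    congr 1
    have h3 : (m - 1 : ℝ) = ((m - 1 : ℕ) : ℝ) := by
      rw [Nat.cast_sub (by omega)]
      simp
    rw [h3, Real.rpow_natCast]
  rw [← h2]
  refine (pow_le_pow_left₀ (by positivity) h m).trans (le_of_eq ?_)
  congr 1
  ring

private theorem eub_local (m : ℕ) (hm : 2 ≤ m) (t w c : ℝ) (ht0 : 0 < t) (ht : t ≤ 1 / 2)
    (hw0 : 0 ≤ w) (hw : w ≤ ((m - 1 : ℝ) + c) / m) (hc1 : -1 ≤ c) (hc2 : c ≤ 1) :
    (1 + w * t) ^ m * ((1 - t) ^ (m - 1) * (1 - c * t)) ≤ 1 := by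
  have hm2 : (2 : ℝ) ≤ m := by exact_mod_cast hm
  have hm0 : (0 : ℝ) < m := by linarith
  have h1t : 0 ≤ 1 - t := by linarith
  have hct : 0 ≤ 1 - c * t := by nlinarith
  have hA := eub_amgm m hm (1 - t) (1 - c * t) h1t hct
  obtain ⟨u, hu⟩ : ∃ u : ℝ, u = ((m - 1 : ℝ) + c) / m * t := ⟨_, rfl⟩
  have hq0 : 0 ≤ ((m - 1 : ℝ) + c) / m := div_nonneg (by linarith) hm0.le
  have hq1 : ((m - 1 : ℝ) + c) / m ≤ 1 := by
    rw [div_le_one hm0]
    linarith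
  have hu0 : 0 ≤ u := by
    rw [hu]
    positivity
  have hu1 : u ≤ 1 := by
    rw [hu]
    nlinarith
  have hE : ((m - 1 : ℝ) * (1 - t) + (1 - c * t)) / m = 1 - u := by
    rw [hu]
    field_simp
    ring
  have hwu : 1 + w * t ≤ 1 + u := by
    rw [hu]
    have := mul_le_mul_of_nonneg_right hw ht0.le
    linarith
  have h0 : 0 ≤ 1 + w * t := by positivity
  calc (1 + w * t) ^ m * ((1 - t) ^ (m - 1) * (1 - c * t))
      ≤ (1 + u) ^ m * (1 - u) ^ m := by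
        apply mul_le_mul
        · exact pow_le_pow_left₀ h0 hwu m
        · rw [hE] at hA
          exact hA
        · exact mul_nonneg (pow_nonneg h1t _) hct
        · positivity
    _ = ((1 + u) * (1 - u)) ^ m := by rw [mul_pow]
    _ ≤ 1 := by
        apply pow_le_one₀
        · apply mul_nonneg <;> linarith
        · nlinarith

omit [DecidableEq ι] in
/-- `N^(-σ) ∈ (0, 1/2]`. -/
theorem eubD_rpow_neg (q : ι) (σ : ℝ) (hσ : 1 ≤ σ) :
    0 < (PS.N q : ℝ) ^ (-σ) ∧ (PS.N q : ℝ) ^ (-σ) ≤ 1 / 2 := by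
  have hp2 : (2 : ℝ) ≤ PS.N q := by exact_mod_cast PS.two_le q
  refine ⟨Real.rpow_pos_of_pos (by linarith) _, ?_⟩
  rw [Real.rpow_neg (by linarith), one_div]
  apply inv_anti₀ (by norm_num)
  calc (2 : ℝ) ≤ PS.N q := hp2
    _ = (PS.N q : ℝ) ^ (1 : ℝ) := (Real.rpow_one _).symm
    _ ≤ (PS.N q : ℝ) ^ σ := Real.rpow_le_rpow_of_exponent_le (by linarith) hσ

/-- The sum over squarefree integers is at most the finite product. -/
theorem eubD_sum_le (w : ι → ℝ) (hw : ∀ q, 0 ≤ w q) (σ : ℝ) (x P : ℕ) (hP : x ≤ P) :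
    ∑ S ∈ Sx ι x, (∏ q ∈ S, w q) * (nm S : ℝ) ^ (-σ) ≤
      ∏ q ∈ pr ι P, (1 + w q * (PS.N q : ℝ) ^ (-σ)) := by
  rw [prod_one_add]
  have hterm : ∀ S ∈ Sx ι x, (∏ q ∈ S, w q) * (nm S : ℝ) ^ (-σ) =
      ∏ q ∈ S, (w q * (PS.N q : ℝ) ^ (-σ)) := by
    intro S _
    rw [prod_mul_distrib]
    congr 1
    unfold nm
    push_cast
    rw [Real.finsetProd_rpow _ _ (fun i _ => by positivity)]
  rw [sum_congr rfl hterm]
  apply sum_le_sum_of_subset_of_nonneg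
  · intro S hS
    rw [mem_Sx] at hS
    rw [mem_powerset]
    intro q hq
    rw [mem_pr]
    exact (le_nm hq).trans (hS.trans hP)
  · intro S _ _
    apply prod_nonneg
    intro q _
    exact mul_nonneg (hw q) (by positivity)

theorem euler_ub {C B : ℝ} {χ : ι → ℝ} (hz : Zt ι C) (hχ : CharB χ B) (m : ℕ) (hm : 2 ≤ m)
    (w : ι → ℝ) (hw : ∀ q, 0 ≤ w q ∧ w q ≤ ((m - 1 : ℝ) + χ q) / m) (σ : ℝ) (h1 : 1 < σ)
    (h3 : σ ≤ 3) (x : ℕ) :
    ∑ S ∈ Sx ι x, (∏ q ∈ S, w q) * (nm S : ℝ) ^ (-σ) ≤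
      ((C / (σ - 1)) ^ (m - 1) * B) ^ (1 / (m : ℝ)) := by
  have hm2 : (2 : ℝ) ≤ m := by exact_mod_cast hm
  have hm0 : (0 : ℝ) < m := by linarith
  obtain ⟨S, hS⟩ : ∃ S : ℝ, S = ∑ S ∈ Sx ι x, (∏ q ∈ S, w q) * (nm S : ℝ) ^ (-σ) := ⟨_, rfl⟩
  have hS0 : 0 ≤ S := by
    rw [hS]
    apply sum_nonneg
    intro T _
    exact mul_nonneg (prod_nonneg fun q _ => (hw q).1) (by positivity)
  rw [← hS]
  obtain ⟨P, hP1, hP2⟩ := ((hχ.bound σ h1 h3).and (Filter.eventually_ge_atTop x)).exists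
  have hsum : S ≤ ∏ q ∈ pr ι P, (1 + w q * (PS.N q : ℝ) ^ (-σ)) := by
    rw [hS]
    exact eubD_sum_le w (fun q => (hw q).1) σ x P hP2
  have hprod : (∏ q ∈ pr ι P, (1 + w q * (PS.N q : ℝ) ^ (-σ))) ^ m ≤
      (∏ q ∈ pr ι P, (1 - (PS.N q : ℝ) ^ (-σ))⁻¹) ^ (m - 1) *
        ∏ q ∈ pr ι P, (1 - χ q * (PS.N q : ℝ) ^ (-σ))⁻¹ := by
    rw [← prod_pow, ← prod_pow, ← prod_mul_distrib]
    apply prod_le_prod
    · intro q _
      have := (hw q).1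
      positivity
    · intro q _
      obtain ⟨ht0, ht⟩ := eubD_rpow_neg q σ h1.le
      have hc := abs_le.mp (hχ.le q)
      have hloc := eub_local m hm ((PS.N q : ℝ) ^ (-σ)) (w q) (χ q) ht0 ht (hw q).1 (hw q).2 hc.1 hc.2
      have e1 : 0 < 1 - (PS.N q : ℝ) ^ (-σ) := by linarith
      have e2 : 0 < 1 - χ q * (PS.N q : ℝ) ^ (-σ) := by nlinarith [hc.2]
      have e3 : 0 < (1 - (PS.N q : ℝ) ^ (-σ)) ^ (m - 1) * (1 - χ q * (PS.N q : ℝ) ^ (-σ)) := by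
        positivity
      have e4 : ((1 - (PS.N q : ℝ) ^ (-σ))⁻¹) ^ (m - 1) * (1 - χ q * (PS.N q : ℝ) ^ (-σ))⁻¹ =
          1 / ((1 - (PS.N q : ℝ) ^ (-σ)) ^ (m - 1) * (1 - χ q * (PS.N q : ℝ) ^ (-σ))) := by
        rw [inv_pow, one_div, mul_inv]
      rw [e4, le_div_iff₀ e3]
      exact hloc
  have hZ0 : 0 ≤ ∏ q ∈ pr ι P, (1 - (PS.N q : ℝ) ^ (-σ))⁻¹ := by
    apply prod_nonneg
    intro q _
    obtain ⟨ht0, ht⟩ := eubD_rpow_neg q σ h1.le
    exact inv_nonneg.2 (by linarith)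
  have hZ := hz σ P h1 h3
  have hB : 0 ≤ B := by linarith [hχ.hB]
  have hfin : S ^ m ≤ (C / (σ - 1)) ^ (m - 1) * B := by
    refine (pow_le_pow_left₀ hS0 hsum m).trans (hprod.trans ?_)
    refine (mul_le_mul_of_nonneg_left hP1 (pow_nonneg hZ0 _)).trans ?_
    exact mul_le_mul_of_nonneg_right (pow_le_pow_left₀ hZ0 hZ _) hB
  have hroot : S = (S ^ m) ^ (1 / (m : ℝ)) := by
    rw [← Real.rpow_natCast S m, ← Real.rpow_mul hS0, mul_one_div_cancel hm0.ne', Real.rpow_one]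
  rw [hroot]
  exact Real.rpow_le_rpow (by positivity) hfin (by positivity)

end

end Pool.Agent.Lib.MP_1a91b9_ntH
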