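import Pool.Agent.Lib.MP_1a91b9_ntH.D.FunFam

/-!
# Part D: expansion

The exponent of a labelling is the exponent of its family, and the expansion as a sum over families.  By `sum_fun_eq_fam` with `G d = sg (D.ee Λ d)` it is enough that `D.eS Λ S f = D.ee Λ (famOf S f)`:
`∑ j : S, H (f j) j = ∑ l, ∑ q ∈ famOf S f l, H l q` (fibrewise, `Finset.sum_fiberwise` and `Finset.sum_map`), applied to
`H l q = tr (gam l * a q)` (with `tr` additive: `F4.tr (x + y) = F4.tr x + F4.tr y`, `F4.tr 0 = 0`, so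
`tr (gam l * ∑ a q) = ∑ tr (gam l * a q)`), and twice for the double sum (`Dat.ss` is a double sum).
Then multiply by `m⁻¹ ^ S.card`, `(uni d).card = S.card` for `d ∈ Fam L S`, and use `sum_box`.
-/

set_option autoImplicit false

namespace Pool.Agent.Lib.MP_1a91b9_ntH

open Finset

noncomputable section

variable {ι : Type} [DecidableEq ι] {L : Type} [Fintype L] [DecidableEq L]

private theorem expand_fib {M : Type} [AddCommMonoid M] (S : Finset ι) (f : S → L)
    (H : L → ι → M) : ∑ j : S, H (f j) j = ∑ l, ∑ q ∈ famOf S f l, H l q := by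
  have h1 : ∀ l, ∑ q ∈ famOf S f l, H l q =
      ∑ j ∈ univ.filter (fun j : S => f j = l), H (f j) j := by
    intro l
    unfold famOf
    rw [sum_map]
    refine sum_congr rfl fun j hj => ?_
    rw [(mem_filter.1 hj).2]
    rfl
  rw [sum_congr rfl fun l _ => h1 l]
  exact (sum_fiberwise univ f fun j => H (f j) j).symm

private theorem expand_tr_sum {α : Type} (s : Finset α) (f : α → F4) :
    F4.tr (∑ i ∈ s, f i) = ∑ i ∈ s, F4.tr (f i) := by
  classical
  induction s using Finset.induction_on with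
  | empty =>
    rw [sum_empty, sum_empty]
    rfl
  | insert i s hi ih =>
    rw [sum_insert hi, sum_insert hi, ← ih]
    rfl

theorem eS_eq (D : Dat ι) (Λ : LSys L) (S : Finset ι) (f : S → L) :
    D.eS Λ S f = D.ee Λ (famOf S f) := by
  have h1 : ∑ j : S, F4.tr (Λ.gam (f j) * D.a j) =
      ∑ l, F4.tr (Λ.gam l * D.A (famOf S f l)) := by
    rw [expand_fib S f fun l q => F4.tr (Λ.gam l * D.a q)]
    refine sum_congr rfl fun l _ => ?_
    unfold Dat.A
    rw [mul_sum, expand_tr_sum]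
  have h2 : ∑ j : S, ∑ k : S, Λ.Phi (f j) (f k) * D.s j k =
      ∑ l, ∑ m, Λ.Phi l m * D.ss (famOf S f l) (famOf S f m) := by
    have h3 : ∀ j : S, ∑ k : S, Λ.Phi (f j) (f k) * D.s j k =
        ∑ m, ∑ p ∈ famOf S f m, Λ.Phi (f j) m * D.s j p :=
      fun j => expand_fib S f fun m p => Λ.Phi (f j) m * D.s j p
    rw [sum_congr rfl fun j _ => h3 j,
      expand_fib S f fun l q => ∑ m, ∑ p ∈ famOf S f m, Λ.Phi l m * D.s q p]
    refine sum_congr rfl fun l _ => ?_
    rw [sum_comm]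
    refine sum_congr rfl fun m _ => ?_
    unfold Dat.ss
    rw [mul_sum]
    refine sum_congr rfl fun q _ => ?_
    rw [mul_sum]
  unfold Dat.eS Dat.ee
  rw [h1, h2]

theorem expand [PS ι] (D : Dat ι) (Λ : LSys L) (X : ℕ) :
    ∑ S ∈ Sx ι X, ((Λ.m : ℝ)⁻¹) ^ S.card * ∑ f : S → L, sg (D.eS Λ S f) =
      ∑ d ∈ Box ι L X, D.FF Λ d := by
  rw [sum_box]
  refine sum_congr rfl fun S _ => ?_
  have h1 : ∑ f : S → L, sg (D.eS Λ S f) = ∑ d ∈ Fam L S, sg (D.ee Λ d) := by
    rw [← sum_fun_eq_fam S fun d => sg (D.ee Λ d)]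
    refine sum_congr rfl fun f _ => ?_
    rw [eS_eq]
  rw [h1, mul_sum]
  refine sum_congr rfl fun d hd => ?_
  unfold Dat.FF
  rw [(mem_Fam.1 hd).2]

end

end Pool.Agent.Lib.MP_1a91b9_ntH
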