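import Pool.Agent.Lib.MP_1a91b9_ntH.D.Fam

/-!
# Part D: functions `S → L` and families

The map `f ↦ (l ↦ {j ∈ S | f j = l})` is a bijection from `S → L` to `Fam L S`, and the sum over `Box` is the sum over
`S ∈ Sx` of the sums over `Fam L S`.
-/

set_option autoImplicit false

namespace Pool.Agent.Lib.MP_1a91b9_ntH

open Finset

noncomputable section

variable {ι : Type} [DecidableEq ι] {L : Type} [Fintype L] [DecidableEq L]

/-- The family of a labelling. -/
def famOf (S : Finset ι) (f : S → L) (l : L) : Finset ι :=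
  (univ.filter fun j : S => f j = l).map (Function.Embedding.subtype _)

theorem mem_famOf {S : Finset ι} {f : S → L} {l : L} {q : ι} :
    q ∈ famOf S f l ↔ ∃ h : q ∈ S, f ⟨q, h⟩ = l := by
  unfold famOf
  rw [mem_map]
  constructor
  · rintro ⟨j, hj, rfl⟩
    exact ⟨j.2, (mem_filter.1 hj).2⟩
  · rintro ⟨h, hf⟩
    exact ⟨⟨q, h⟩, mem_filter.2 ⟨mem_univ _, hf⟩, rfl⟩

theorem sum_fun_eq_fam (S : Finset ι) (G : (L → Finset ι) → ℝ) :
    ∑ f : S → L, G (famOf S f) = ∑ d ∈ Fam L S, G d := by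
  classical
  refine sum_bij (fun f _ => famOf S f) ?_ ?_ ?_ (fun _ _ => rfl)
  · intro f _
    rw [mem_Fam]
    constructor
    · intro l m hlm
      rw [disjoint_left]
      intro q h1 h2
      obtain ⟨h3, h4⟩ := mem_famOf.1 h1
      obtain ⟨h5, h6⟩ := mem_famOf.1 h2
      exact hlm (h4.symm.trans h6)
    · ext q
      rw [mem_uni]
      constructor
      · rintro ⟨l, hl⟩
        exact (mem_famOf.1 hl).1
      · intro h
        exact ⟨f ⟨q, h⟩, mem_famOf.2 ⟨h, rfl⟩⟩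
  · intro f _ g _ hfg
    funext j
    have h1 : (j : ι) ∈ famOf S f (f j) := mem_famOf.2 ⟨j.2, rfl⟩
    have hfg' : famOf S f = famOf S g := hfg
    rw [hfg'] at h1
    obtain ⟨h2, h3⟩ := mem_famOf.1 h1
    exact h3.symm
  · intro d hd
    obtain ⟨hPD, hun⟩ := mem_Fam.1 hd
    have hex : ∀ j : S, ∃ l, (j : ι) ∈ d l := by
      intro j
      have h1 : (j : ι) ∈ uni d := by
        rw [hun]
        exact j.2
      exact mem_uni.1 h1
    choose f hf using hex
    refine ⟨f, mem_univ _, ?_⟩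
    funext l
    ext q
    rw [mem_famOf]
    constructor
    · rintro ⟨h1, h2⟩
      have h3 := hf ⟨q, h1⟩
      rw [h2] at h3
      exact h3
    · intro h1
      have h2 : q ∈ S := by
        rw [← hun]
        exact mem_uni.2 ⟨l, h1⟩
      refine ⟨h2, ?_⟩
      by_contra hne
      exact (disjoint_left.1 (hPD _ _ hne)) (hf ⟨q, h2⟩) h1

theorem sum_box [PS ι] (X : ℕ) (G : (L → Finset ι) → ℝ) :
    ∑ d ∈ Box ι L X, G d = ∑ S ∈ Sx ι X, ∑ d ∈ Fam L S, G d := by
  classical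
  have hmap : ∀ d ∈ Box ι L X, uni d ∈ Sx ι X := by
    intro d hd
    obtain ⟨h1, h2⟩ := mem_Box.1 hd
    rw [mem_Sx, nm_uni h1]
    exact h2
  rw [← sum_fiberwise_of_maps_to hmap]
  refine sum_congr rfl fun S hS => sum_congr ?_ fun _ _ => rfl
  ext d
  rw [mem_filter, mem_Box, mem_Fam]
  constructor
  · rintro ⟨⟨h1, -⟩, h2⟩
    exact ⟨h1, h2⟩
  · rintro ⟨h1, h2⟩
    refine ⟨⟨h1, ?_⟩, h2⟩
    rw [← nm_uni h1, h2]
    exact mem_Sx.1 hS

end

end Pool.Agent.Lib.MP_1a91b9_ntH
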