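import Pool.Agent.Lib.MP_1a91b9_ntH.D.Defs

/-! # Part D: Hall's inequality (port of QHall; helper42) -/

set_option autoImplicit false

namespace Pool.Agent.Lib.MP_1a91b9_ntH

open Finset

noncomputable section

variable {ι : Type} [DecidableEq ι] [PS ι]

omit [DecidableEq ι] in
private theorem hall_log (S : Finset ι) : Real.log (nm S) = ∑ q ∈ S, Real.log (PS.N q) := by
  unfold nm
  rw [Nat.cast_prod, Real.log_prod]
  intro q _
  have := PS.two_le q
  have h : PS.N q ≠ 0 := by omega
  exact_mod_cast h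

theorem hall {C : ℝ} (h : Cheb ι C) (w : ι → ℝ) (hw : ∀ q, 0 ≤ w q ∧ w q ≤ 1) (x : ℕ) (hx : 1 ≤ x) :
    (∑ S ∈ Sx ι x, ∏ q ∈ S, w q) * Real.log x ≤
      (C + 1) * x * ∑ S ∈ Sx ι x, (∏ q ∈ S, w q) / nm S := by
  have hC : 0 ≤ C := by
    have h1 := h 1
    have h2 : 0 ≤ ∑ q ∈ pr ι 1, Real.log (PS.N q) := sum_nonneg fun q _ => Real.log_natCast_nonneg _
    push_cast at h1
    linarith
  have hx0 : (0 : ℝ) < x := by exact_mod_cast hx
  have hnm : ∀ S : Finset ι, (0 : ℝ) < nm S := fun S => by exact_mod_cast one_le_nm S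
  obtain ⟨W, hW⟩ : ∃ W : Finset ι → ℝ, ∀ S, W S = ∏ q ∈ S, w q := ⟨fun S => ∏ q ∈ S, w q, fun _ => rfl⟩
  have hW0 : ∀ S, 0 ≤ W S := fun S => by
    rw [hW]
    exact prod_nonneg fun q _ => (hw q).1
  simp only [← hW]
  have hsplit : (∑ S ∈ Sx ι x, W S) * Real.log x =
      ∑ S ∈ Sx ι x, W S * Real.log (nm S) + ∑ S ∈ Sx ι x, W S * Real.log (x / nm S) := by
    rw [sum_mul, ← sum_add_distrib]
    apply sum_congr rfl
    intro S _
    rw [Real.log_div hx0.ne' (hnm S).ne']
    ring
  have hsecond : ∑ S ∈ Sx ι x, W S * Real.log (x / nm S) ≤ x * ∑ S ∈ Sx ι x, W S / nm S := by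
    rw [mul_sum]
    apply sum_le_sum
    intro S _
    have h1 : Real.log (x / nm S) ≤ x / nm S :=
      Real.log_le_self (div_nonneg hx0.le (hnm S).le)
    calc W S * Real.log (x / nm S) ≤ W S * (x / nm S) := mul_le_mul_of_nonneg_left h1 (hW0 S)
      _ = x * (W S / nm S) := by ring
  have hfirst : ∑ S ∈ Sx ι x, W S * Real.log (nm S) ≤ C * x * ∑ S ∈ Sx ι x, W S / nm S := by
    have e1 : ∀ S ∈ Sx ι x, W S * Real.log (nm S) ≤
        ∑ q ∈ S, W (S.erase q) * Real.log (PS.N q) := by
      intro S _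
      rw [hall_log, mul_sum]
      apply sum_le_sum
      intro q hq
      apply mul_le_mul_of_nonneg_right _ (Real.log_natCast_nonneg _)
      have h1 : W S = w q * W (S.erase q) := by
        rw [hW, hW, mul_prod_erase _ _ hq]
      rw [h1]
      exact mul_le_of_le_one_left (hW0 _) (hw q).2
    have e2 : ∑ S ∈ Sx ι x, ∑ q ∈ S, W (S.erase q) * Real.log (PS.N q) ≤
        ∑ T ∈ Sx ι x, ∑ q ∈ pr ι (x / nm T), W T * Real.log (PS.N q) := by
      rw [sum_sigma', sum_sigma']
      have hinj : Set.InjOn (fun a : (_ : Finset ι) × ι => (⟨a.1.erase a.2, a.2⟩ : (_ : Finset ι) × ι))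
          ((Sx ι x).sigma fun S => S : Finset ((_ : Finset ι) × ι)) := by
        rintro ⟨S, q⟩ h1 ⟨S', q'⟩ h2 h3
        simp only [coe_sigma, Set.mem_sigma_iff, mem_coe] at h1 h2
        simp only [Sigma.mk.injEq, heq_eq_eq] at h3
        obtain ⟨h4, rfl⟩ := h3
        have h5 := insert_erase h1.2
        have h6 := insert_erase h2.2
        have h7 : S = S' := by rw [← h5, ← h6, h4]
        subst h7
        rfl
      have himg : (((Sx ι x).sigma fun S => S).image
          (fun a : (_ : Finset ι) × ι => (⟨a.1.erase a.2, a.2⟩ : (_ : Finset ι) × ι))) ⊆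
          (Sx ι x).sigma fun T => pr ι (x / nm T) := by
        intro b hb
        rw [mem_image] at hb
        obtain ⟨⟨S, q⟩, ha, rfl⟩ := hb
        rw [mem_sigma] at ha
        obtain ⟨hS, hq⟩ := ha
        simp only at hS hq
        rw [mem_Sx] at hS
        have h1 : PS.N q * nm (S.erase q) = nm S := by
          unfold nm
          exact mul_prod_erase _ _ hq
        have h2 := one_le_nm (S.erase q)
        have h3 := PS.two_le q
        rw [mem_sigma]
        refine ⟨?_, ?_⟩
        · rw [mem_Sx]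
          simp only
          refine le_trans ?_ hS
          rw [← h1]
          exact Nat.le_mul_of_pos_left _ (by omega)
        · rw [mem_pr]
          simp only
          rw [Nat.le_div_iff_mul_le (by omega), h1]
          exact hS
      calc ∑ a ∈ (Sx ι x).sigma (fun S => S), W (a.1.erase a.2) * Real.log (PS.N a.2)
          = ∑ b ∈ ((Sx ι x).sigma fun S => S).image
              (fun a : (_ : Finset ι) × ι => (⟨a.1.erase a.2, a.2⟩ : (_ : Finset ι) × ι)),
              W b.1 * Real.log (PS.N b.2) := by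
            rw [sum_image hinj]
        _ ≤ ∑ b ∈ (Sx ι x).sigma fun T => pr ι (x / nm T), W b.1 * Real.log (PS.N b.2) := by
            apply sum_le_sum_of_subset_of_nonneg himg
            intro b _ _
            exact mul_nonneg (hW0 _) (Real.log_natCast_nonneg _)
    calc ∑ S ∈ Sx ι x, W S * Real.log (nm S)
        ≤ ∑ S ∈ Sx ι x, ∑ q ∈ S, W (S.erase q) * Real.log (PS.N q) := sum_le_sum e1
      _ ≤ ∑ T ∈ Sx ι x, ∑ q ∈ pr ι (x / nm T), W T * Real.log (PS.N q) := e2
      _ = ∑ T ∈ Sx ι x, W T * ∑ q ∈ pr ι (x / nm T), Real.log (PS.N q) := by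
          apply sum_congr rfl
          intro T _
          rw [← mul_sum]
      _ ≤ ∑ T ∈ Sx ι x, W T * (C * (x / nm T)) := by
          apply sum_le_sum
          intro T _
          apply mul_le_mul_of_nonneg_left _ (hW0 T)
          refine (h _).trans (mul_le_mul_of_nonneg_left ?_ hC)
          exact Nat.cast_div_le
      _ = C * x * ∑ S ∈ Sx ι x, W S / nm S := by
          rw [mul_sum]
          apply sum_congr rfl
          intro T _
          ring
  rw [hsplit]
  linarith

end

end Pool.Agent.Lib.MP_1a91b9_ntH
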