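import Pool.Agent.Lib.MP_1a91b9_ntH.D.Lab

/-!
# MP_1a91b9_nt (TwistDensity), part D: unlinked sets of labels, (K1) and (K2)
-/

set_option autoImplicit false

namespace Pool.Agent.Lib.MP_1a91b9_ntH.Da

open Finset

/-! ### The field with four elements -/



theorem F4.tr_add (x y : F4) : F4.tr (x + y) = F4.tr x + F4.tr y := rfl
theorem F4.tr_zero : F4.tr 0 = 0 := rfl
theorem F4.cj_add (x y : F4) : F4.cj (x + y) = F4.cj x + F4.cj y := by revert x y; decide
theorem F4.cj_mul (x y : F4) : F4.cj (x * y) = F4.cj x * F4.cj y := by revert x y; decide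
theorem F4.cj_zero : F4.cj 0 = 0 := rfl
theorem F4.cj_one : F4.cj 1 = 1 := rfl
theorem F4.cj_cj (x : F4) : F4.cj (F4.cj x) = x := by revert x; decide
theorem F4.tr_cj (x : F4) : F4.tr (F4.cj x) = F4.tr x := rfl
theorem F4.tr_mul_tr (x y : F4) : F4.tr x * F4.tr y = F4.tr (x * y) + F4.tr (x * F4.cj y) := by
  revert x y; decide
theorem F4.tr_sq (x : F4) : F4.tr (x * x) = F4.tr x := by revert x; decide
theorem F4.cj_sq (x : F4) : F4.cj (x * x) = x := by revert x; decide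
theorem F4.add_self (x : F4) : x + x = 0 := by revert x; decide
theorem F4.cj_eq_iff (x : F4) : F4.cj x = x ↔ F4.tr x = 0 := by revert x; decide
theorem F4.exists_tr (x : F4) (hx : x ≠ 0) : ∃ y, F4.tr (x * y) = 1 := by revert x; decide

/-- `tr` as an additive homomorphism. -/
def F4.trHom : F4 →+ ZMod 2 := ⟨⟨F4.tr, rfl⟩, F4.tr_add⟩
/-- `cj` as an additive homomorphism. -/
def F4.cjHom : F4 →+ F4 := ⟨⟨F4.cj, rfl⟩, F4.cj_add⟩

theorem F4.tr_sum {α : Type} (s : Finset α) (f : α → F4) : F4.tr (∑ i ∈ s, f i) = ∑ i ∈ s, F4.tr (f i) :=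
  map_sum F4.trHom f s

theorem F4.cj_sum {α : Type} (s : Finset α) (f : α → F4) : F4.cj (∑ i ∈ s, f i) = ∑ i ∈ s, F4.cj (f i) :=
  map_sum F4.cjHom f s



/-! ### Signs -/

theorem sg_zero : sg 0 = 1 := by simp [sg]
theorem sg_one : sg 1 = -1 := by simp [sg]
theorem sg_add (x y : ZMod 2) : sg (x + y) = sg x * sg y := by
  have h : ∀ x : ZMod 2, x = 0 ∨ x = 1 := by decide
  rcases h x with rfl | rfl <;> rcases h y with rfl | rfl
  · simp [sg]
  · simp [sg]
  · simp [sg]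
  · rw [show (1 + 1 : ZMod 2) = 0 by decide]; simp [sg]

theorem sg_mul_self (x : ZMod 2) : sg x * sg x = 1 := by
  rw [← sg_add, show x + x = 0 by revert x; decide, sg_zero]

theorem zmod_two (x : ZMod 2) : x = 0 ∨ x = 1 := by revert x; decide

theorem zadd_self (x : ZMod 2) : x + x = 0 := by revert x; decide

/-- A sum of signs with a sign reversing involution `x ↦ x + t` is zero. -/
theorem sum_sg_eq_zero {α : Type} [AddCommGroup α] [Fintype α] (F : α → ZMod 2) (t : α)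
    (h : ∀ x, F (x + t) = F x + 1) : ∑ x, sg (F x) = 0 := by
  have h1 : ∑ x, sg (F x) = ∑ x, sg (F (x + t)) :=
    (Equiv.sum_comp (Equiv.addRight t) fun x => sg (F x)).symm
  have h2 : ∑ x, sg (F (x + t)) = -∑ x, sg (F x) := by
    rw [← sum_neg_distrib]
    refine sum_congr rfl fun x _ => ?_
    rw [h, sg_add, sg_one]
    ring
  linarith

variable {k : ℕ}

/-! ### The bilinear form on the labels -/

theorem card_Vk (k : ℕ) : Fintype.card (Fin k → F4) = 4 ^ k := by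
  rw [Fintype.card_fun, Fintype.card_fin, F4.card_F4]

theorem card_Lab (k : ℕ) : Fintype.card (Lab k) = 16 ^ k := by
  rw [Fintype.card_prod, card_Vk, ← mul_pow]; norm_num

theorem vadd_self (x : Fin k → F4) : x + x = 0 := funext fun i => F4.add_self (x i)
theorem ladd_self (x : Lab k) : x + x = 0 := Prod.ext (vadd_self x.1) (vadd_self x.2)
theorem ladd_ladd (x y : Lab k) : x + y + y = x := by rw [add_assoc, ladd_self, add_zero]

theorem cj_dot (x y : Fin k → F4) :
    F4.cj (x ⬝ᵥ y) = (fun i => F4.cj (x i)) ⬝ᵥ (fun i => F4.cj (y i)) := by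
  rw [dotProduct, F4.cj_sum]
  exact sum_congr rfl fun i _ => F4.cj_mul _ _

/-- The quadratic form. -/
def Qf (l : Lab k) : ZMod 2 := F4.tr (l.2 ⬝ᵥ l.1)

/-- Its polar form. -/
def Bf (l m : Lab k) : ZMod 2 := F4.tr (l.2 ⬝ᵥ m.1) + F4.tr (m.2 ⬝ᵥ l.1)

theorem Lk_eq (l m : Lab k) : Lk l m = Qf (l + m) := by
  simp only [Lk, Phi, Qf, Prod.snd_add, Prod.fst_add, add_dotProduct, dotProduct_add, F4.tr_add]
  ring

theorem Qf_add (l m : Lab k) : Qf (l + m) = Qf l + Qf m + Bf l m := by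
  simp only [Qf, Bf, Prod.snd_add, Prod.fst_add, add_dotProduct, dotProduct_add, F4.tr_add]
  ring

theorem Bf_comm (l m : Lab k) : Bf l m = Bf m l := by simp only [Bf]; ring

theorem Bf_add (l m n : Lab k) : Bf l (m + n) = Bf l m + Bf l n := by
  simp only [Bf, Prod.snd_add, Prod.fst_add, add_dotProduct, dotProduct_add, F4.tr_add]
  ring

theorem Bf_add' (l m n : Lab k) : Bf (l + m) n = Bf l n + Bf m n := by
  rw [Bf_comm, Bf_add, Bf_comm n l, Bf_comm n m]

theorem Qf_zero : Qf (0 : Lab k) = 0 := by simp [Qf, F4.tr_zero]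

theorem exists_dot {x : Fin k → F4} (hx : x ≠ 0) : ∃ y, F4.tr (x ⬝ᵥ y) = 1 := by
  obtain ⟨i, hi⟩ := Function.ne_iff.1 hx
  obtain ⟨z, hz⟩ := F4.exists_tr (x i) hi
  refine ⟨Pi.single i z, ?_⟩
  rw [dotProduct_single]
  exact hz

theorem exists_Bf {w : Lab k} (hw : w ≠ 0) : ∃ l, Bf l w = 1 := by
  by_cases h1 : w.1 = 0
  · have h2 : w.2 ≠ 0 := fun h2 => hw (Prod.ext h1 h2)
    obtain ⟨y, hy⟩ := exists_dot h2
    refine ⟨(y, 0), ?_⟩
    simp only [Bf, zero_dotProduct, F4.tr_zero, zero_add]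
    exact hy
  · obtain ⟨y, hy⟩ := exists_dot h1
    refine ⟨(0, y), ?_⟩
    simp only [Bf, dotProduct_zero, F4.tr_zero, add_zero]
    rw [dotProduct_comm]
    exact hy

theorem sum_Bf (w : Lab k) : ∑ l, sg (Bf l w) = if w = 0 then (16 ^ k : ℝ) else 0 := by
  split_ifs with h
  · subst h
    have : ∀ l : Lab k, sg (Bf l 0) = 1 := fun l => by
      simp [Bf, F4.tr_zero, sg_zero]
    simp only [this, sum_const, card_univ, card_Lab, nsmul_eq_mul, mul_one]
    push_cast
    rfl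
  · obtain ⟨t, ht⟩ := exists_Bf h
    exact sum_sg_eq_zero (fun l => Bf l w) t fun l => by rw [Bf_add', ht]

/-- Parseval for the character sums of a set of labels. -/
theorem parseval (W : Finset (Lab k)) :
    ∑ l, (∑ w ∈ W, sg (Bf l w)) ^ 2 = (W.card : ℝ) * 16 ^ k := by
  have h1 : ∀ l : Lab k, (∑ w ∈ W, sg (Bf l w)) ^ 2 =
      ∑ w ∈ W, ∑ w' ∈ W, sg (Bf l (w + w')) := fun l => by
    rw [sq, sum_mul_sum]
    refine sum_congr rfl fun w _ => sum_congr rfl fun w' _ => ?_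
    rw [Bf_add, sg_add]
  simp only [h1]
  rw [sum_comm]
  have h2 : ∀ w ∈ W, ∑ l, ∑ w' ∈ W, sg (Bf l (w + w')) = (16 ^ k : ℝ) := fun w hw => by
    rw [sum_comm]
    simp only [sum_Bf]
    rw [sum_eq_single w]
    · rw [if_pos (ladd_self w)]
    · intro w' _ hne
      rw [if_neg]
      intro h
      apply hne
      have := congrArg (fun z => w + z) h
      simp only [add_zero] at this
      rw [← add_assoc, ladd_self, zero_add] at this
      exact this
    · intro h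
      exact absurd hw h
  rw [sum_congr rfl h2, sum_const, nsmul_eq_mul]

/-! ### Totally isotropic sets -/

/-- Shift of a set of labels. -/
def sh (l0 : Lab k) (U : Finset (Lab k)) : Finset (Lab k) := U.image (· + l0)

theorem card_sh (l0 : Lab k) (U : Finset (Lab k)) : (sh l0 U).card = U.card :=
  card_image_of_injective _ (add_left_injective l0)

theorem mem_sh {l0 l : Lab k} {U : Finset (Lab k)} : l ∈ sh l0 U ↔ l + l0 ∈ U := by
  rw [sh, mem_image]
  constructor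
  · rintro ⟨u, hu, rfl⟩
    rwa [ladd_ladd]
  · intro h
    exact ⟨l + l0, h, ladd_ladd _ _⟩

theorem sh_sh (l0 : Lab k) (U : Finset (Lab k)) : sh l0 (sh l0 U) = U := by
  ext l
  rw [mem_sh, mem_sh, ladd_ladd]

theorem Unl_sh {l0 : Lab k} {U : Finset (Lab k)} (h : Unl U) : Unl (sh l0 U) := by
  intro l hl m hm
  rw [mem_sh] at hl hm
  have := h _ hl _ hm
  rw [Lk_eq] at this ⊢
  rwa [add_add_add_comm, ladd_self, add_zero] at this

theorem Unl.Qf {U : Finset (Lab k)} (h : Unl U) (h0 : 0 ∈ U) {l : Lab k} (hl : l ∈ U) :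
    Qf l = 0 := by
  have := h _ hl _ h0
  rwa [Lk_eq, add_zero] at this

theorem Unl.Bf {U : Finset (Lab k)} (h : Unl U) (h0 : 0 ∈ U) {l m : Lab k} (hl : l ∈ U)
    (hm : m ∈ U) : Bf l m = 0 := by
  have h1 := h _ hl _ hm
  rw [Lk_eq, Qf_add, h.Qf h0 hl, h.Qf h0 hm, add_zero, zero_add] at h1
  exact h1

theorem sum_Bf_mem {W : Finset (Lab k)} {l : Lab k} (hl : ∀ w ∈ W, Bf l w = 0) :
    ∑ w ∈ W, sg (Bf l w) = W.card := by
  rw [sum_congr rfl fun w hw => by rw [hl w hw, sg_zero]]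
  simp

theorem card_sq_le {W : Finset (Lab k)} (h : Unl W) (h0 : 0 ∈ W) : W.card ^ 2 ≤ 16 ^ k := by
  have hp := parseval W
  have h1 : ∑ l ∈ W, (∑ w ∈ W, sg (Bf l w)) ^ 2 ≤ ∑ l, (∑ w ∈ W, sg (Bf l w)) ^ 2 :=
    sum_le_sum_of_subset_of_nonneg (subset_univ _) fun l _ _ => sq_nonneg _
  rw [hp, sum_congr rfl fun l hl => by rw [sum_Bf_mem fun w hw => h.Bf h0 hl hw], sum_const,
    nsmul_eq_mul] at h1
  have hpos : (0 : ℝ) < W.card := by exact_mod_cast card_pos.2 ⟨0, h0⟩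
  have h2 := le_of_mul_le_mul_left h1 hpos
  exact_mod_cast h2

theorem four_pow_sq (k : ℕ) : (4 ^ k) ^ 2 = 16 ^ k := by
  rw [← pow_mul, mul_comm, pow_mul]; norm_num

/-- (K1) -/
theorem K1 {U : Finset (Lab k)} (h : Unl U) : U.card ≤ 4 ^ k := by
  rcases U.eq_empty_or_nonempty with rfl | ⟨l0, hl0⟩
  · simp
  · have h0 : 0 ∈ sh l0 U := by rw [mem_sh, zero_add]; exact hl0
    have h1 := card_sq_le (Unl_sh (l0 := l0) h) h0
    rw [card_sh, ← four_pow_sq] at h1
    exact (Nat.pow_le_pow_iff_left two_ne_zero).1 h1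

/-- A totally singular set of maximal size, containing `0`. -/
structure Mx (W : Finset (Lab k)) : Prop where
  unl : Unl W
  card : W.card = 4 ^ k
  zero : 0 ∈ W

theorem Mx.sum_eq_zero {W : Finset (Lab k)} (h : Mx W) {l : Lab k} (hl : l ∉ W) :
    ∑ w ∈ W, sg (Bf l w) = 0 := by
  have hp := parseval W
  rw [← sum_add_sum_compl W,
    sum_congr rfl fun l hl => by rw [sum_Bf_mem fun w hw => h.unl.Bf h.zero hl hw], sum_const,
    nsmul_eq_mul, h.card] at hp
  have e : ((4 ^ k : ℕ) : ℝ) ^ 2 = 16 ^ k := by exact_mod_cast four_pow_sq k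
  rw [e] at hp
  have hz : ∑ l ∈ Wᶜ, (∑ w ∈ W, sg (Bf l w)) ^ 2 = 0 := by linarith
  have := (sum_eq_zero_iff_of_nonneg fun l _ => sq_nonneg _).1 hz l (mem_compl.2 hl)
  exact pow_eq_zero_iff (two_ne_zero) |>.1 this

theorem Mx.mem_iff {W : Finset (Lab k)} (h : Mx W) {l : Lab k} :
    l ∈ W ↔ ∀ w ∈ W, Bf l w = 0 := by
  constructor
  · intro hl w hw
    exact h.unl.Bf h.zero hl hw
  · intro hl
    by_contra hn
    have h1 := h.sum_eq_zero hn
    rw [sum_Bf_mem hl, h.card] at h1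
    have : (0 : ℝ) < ((4 ^ k : ℕ) : ℝ) := by positivity
    linarith

theorem Mx.add_mem {W : Finset (Lab k)} (h : Mx W) {l m : Lab k} (hl : l ∈ W) (hm : m ∈ W) :
    l + m ∈ W := by
  rw [h.mem_iff]
  intro w hw
  rw [Bf_add', h.unl.Bf h.zero hl hw, h.unl.Bf h.zero hm hw, add_zero]

/-- Every label outside a maximal unlinked set is linked with exactly half of it. -/
theorem K2_sum {U : Finset (Lab k)} (h : Unl U) (hc : U.card = 4 ^ k) {m : Lab k} (hm : m ∉ U) :
    ∑ l ∈ U, sg (Lk l m) = 0 := by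
  have hne : U.Nonempty := by
    rw [← card_pos, hc]; positivity
  obtain ⟨l0, hl0⟩ := hne
  have hW : Mx (sh l0 U) :=
    ⟨Unl_sh h, by rw [card_sh, hc], by rw [mem_sh, zero_add]; exact hl0⟩
  have hm' : m + l0 ∉ sh l0 U := by rw [mem_sh, ladd_ladd]; exact hm
  have h1 := hW.sum_eq_zero hm'
  rw [sh, sum_image fun x _ y _ hxy => add_left_injective l0 hxy] at h1
  have h2 : ∀ l ∈ U, sg (Lk l m) = sg (Qf (m + l0)) * sg (Bf (m + l0) (l + l0)) := by
    intro l hl
    have hl' : l + l0 ∈ sh l0 U := by rw [mem_sh, ladd_ladd]; exact hl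
    rw [← sg_add, Lk_eq]
    congr 1
    have e : l + m = (m + l0) + (l + l0) := by
      rw [add_add_add_comm, ladd_self, add_zero, add_comm]
    rw [e, Qf_add, hW.unl.Qf hW.zero hl', add_zero]
  rw [sum_congr rfl h2, ← mul_sum, h1, mul_zero]

/-- (K2) -/
theorem K2 {U : Finset (Lab k)} (h : Unl U) (hc : U.card = 4 ^ k) {m : Lab k} (hm : m ∉ U) :
    ∃ l ∈ U, ∃ l' ∈ U, Lk l m = 1 ∧ Lk l' m = 0 := by
  have h1 := K2_sum h hc hm
  have hpos : 0 < U.card := by rw [hc]; positivity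
  by_contra hcon
  push Not at hcon
  by_cases ha : ∃ l ∈ U, Lk l m = 1
  · obtain ⟨l, hl, hl1⟩ := ha
    have hall : ∀ l' ∈ U, sg (Lk l' m) = -1 := by
      intro l' hl'
      rcases zmod_two (Lk l' m) with h0 | h0
      · exact absurd h0 (hcon l hl l' hl' hl1)
      · rw [h0, sg_one]
    rw [sum_congr rfl hall, sum_const, nsmul_eq_mul] at h1
    have : (0 : ℝ) < U.card := by exact_mod_cast hpos
    linarith
  · push Not at ha
    have hall : ∀ l' ∈ U, sg (Lk l' m) = 1 := by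
      intro l' hl'
      rcases zmod_two (Lk l' m) with h0 | h0
      · rw [h0, sg_zero]
      · exact absurd h0 (ha l' hl')
    rw [sum_congr rfl hall, sum_const, nsmul_eq_mul] at h1
    have : (0 : ℝ) < U.card := by exact_mod_cast hpos
    linarith

end Pool.Agent.Lib.MP_1a91b9_ntH.Da
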