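import Pool.Agent.Lib.MP_1a91b9_ntH.D.K1

/-!
# MP_1a91b9_nt (TwistDensity), part D: the exponent on a maximal unlinked set
-/

set_option autoImplicit false

namespace Pool.Agent.Lib.MP_1a91b9_ntH.Da

open Finset

variable {k : ℕ}

/-- The hermitian condition. -/
def Her (W : Finset (Lab k)) : Prop := ∀ l ∈ W, ∀ m ∈ W, F4.cj (l.2 ⬝ᵥ m.1) = m.2 ⬝ᵥ l.1

/-- The sum over ordered pairs of a symmetrised function. -/
theorem pair_sum (o : Lab k → ℕ) (ho : Function.Injective o) (U : Finset (Lab k))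
    (F : Lab k → Lab k → ZMod 2) :
    ∑ l ∈ U, ∑ m ∈ U, (if o l < o m then F l m + F m l else 0) =
      ∑ l ∈ U, ∑ m ∈ U, F l m + ∑ l ∈ U, F l l := by
  have h1 : ∑ l ∈ U, ∑ m ∈ U, (if o l < o m then F l m + F m l else 0) =
      ∑ l ∈ U, ∑ m ∈ U, (if o l < o m then F l m else 0) +
        ∑ l ∈ U, ∑ m ∈ U, (if o m < o l then F l m else 0) := by
    rw [sum_comm (f := fun l m => if o m < o l then F l m else 0), ← sum_add_distrib]
    refine sum_congr rfl fun l _ => ?_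
    rw [← sum_add_distrib]
    refine sum_congr rfl fun m _ => ?_
    split_ifs <;> simp
  have h2 : ∑ l ∈ U, F l l = ∑ l ∈ U, ∑ m ∈ U, (if l = m then F l m else 0) := by
    refine sum_congr rfl fun l hl => ?_
    rw [sum_ite_eq, if_pos hl]
  rw [h1, h2, ← sum_add_distrib, ← sum_add_distrib]
  refine sum_congr rfl fun l _ => ?_
  rw [← sum_add_distrib, ← sum_add_distrib]
  refine sum_congr rfl fun m _ => ?_
  rcases lt_trichotomy (o l) (o m) with h | h | h
  · have hne : l ≠ m := fun e => by rw [e] at h; exact lt_irrefl _ h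
    rw [if_pos h, if_neg (by omega), if_neg hne]
  · have he : l = m := ho h
    rw [if_neg (by omega), if_neg (by omega), if_pos he, he, zadd_self, zadd_self]
  · have hne : l ≠ m := fun e => by rw [e] at h; exact lt_irrefl _ h
    rw [if_neg (by omega), if_pos h, if_neg hne]
    ring

/-- The exponent on the coset `l0 + W`. -/
def EE (o : Lab k → ℕ) (c : F4) (W : Finset (Lab k)) (l0 : Lab k) (A : Lab k → F4) : ZMod 2 :=
  ∑ l ∈ W, F4.tr (gam c (l + l0) * A l) +
    ∑ l ∈ W, ∑ m ∈ W, if o l < o m then Phi (m + l0) (l + l0) * F4.tr (A l * A m) else 0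

theorem theta_sh (o : Lab k → ℕ) (c : F4) (W : Finset (Lab k)) (l0 : Lab k) (A : Lab k → F4) :
    theta o c (sh l0 W) A = EE (fun l => o (l + l0)) c W l0 (fun l => A (l + l0)) := by
  have hinj : Set.InjOn (fun x : Lab k => x + l0) (W : Set (Lab k)) :=
    fun x _ y _ hxy => add_left_injective l0 hxy
  rw [theta, EE, sh, sum_image hinj, sum_image hinj]
  congr 1
  refine sum_congr rfl fun l _ => ?_
  rw [sum_image hinj]

theorem Phi_sh (l m l0 : Lab k) : Phi (l + l0) (m + l0) =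
    F4.tr (l.2 ⬝ᵥ l.1) + F4.tr (l.2 ⬝ᵥ m.1) + F4.tr (l0.2 ⬝ᵥ l.1) + F4.tr (l0.2 ⬝ᵥ m.1) := by
  have e : (l + l0).1 + (m + l0).1 = l.1 + m.1 := by
    rw [Prod.fst_add, Prod.fst_add, add_add_add_comm, vadd_self, add_zero]
  rw [Phi, e, Prod.snd_add, add_dotProduct, dotProduct_add, dotProduct_add, F4.tr_add, F4.tr_add,
    F4.tr_add]
  ring

theorem Phi_sh_comm {W : Finset (Lab k)} (hW : Mx W) {l m : Lab k} (hl : l ∈ W) (hm : m ∈ W)
    (l0 : Lab k) : Phi (l + l0) (m + l0) = Phi (m + l0) (l + l0) := by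
  have h1 := hW.unl.Qf hW.zero hl
  have h2 := hW.unl.Qf hW.zero hm
  have h3 := hW.unl.Bf hW.zero hl hm
  rw [Qf] at h1 h2
  rw [Bf] at h3
  rw [Phi_sh, Phi_sh, h1, h2]
  have h4 : F4.tr (l.2 ⬝ᵥ m.1) = F4.tr (m.2 ⬝ᵥ l.1) := by
    have := zadd_self (F4.tr (m.2 ⬝ᵥ l.1))
    exact add_right_cancel (h3.trans this.symm)
  rw [h4]
  ring

theorem Phi_self (l : Lab k) : Phi l l = 0 := by
  rw [Phi, vadd_self, dotProduct_zero, F4.tr_zero]

/-! ### The non hermitian case -/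

/-- The quadratic part. -/
def PP (o : Lab k → ℕ) (W : Finset (Lab k)) (l0 : Lab k) (A : Lab k → F4) : ZMod 2 :=
  ∑ l ∈ W, ∑ m ∈ W, if o l < o m then Phi (m + l0) (l + l0) * F4.tr (A l * A m) else 0

/-- Its polar form. -/
def pol (W : Finset (Lab k)) (l0 : Lab k) (A B : Lab k → F4) : ZMod 2 :=
  ∑ l ∈ W, ∑ m ∈ W, Phi (l + l0) (m + l0) * F4.tr (A l * B m)

theorem PP_add (o : Lab k → ℕ) (ho : Function.Injective o) {W : Finset (Lab k)} (hW : Mx W)
    (l0 : Lab k) (A B : Lab k → F4) :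
    PP o W l0 (A + B) = PP o W l0 A + PP o W l0 B + pol W l0 A B := by
  have h := pair_sum o ho W fun l m => Phi (l + l0) (m + l0) * F4.tr (A l * B m)
  have hz : ∑ l ∈ W, Phi (l + l0) (l + l0) * F4.tr (A l * B l) = 0 :=
    sum_eq_zero fun l _ => by rw [Phi_self, zero_mul]
  rw [hz, add_zero] at h
  rw [pol, ← h, PP, PP, PP, ← sum_add_distrib, ← sum_add_distrib]
  refine sum_congr rfl fun l hl => ?_
  rw [← sum_add_distrib, ← sum_add_distrib]
  refine sum_congr rfl fun m hm => ?_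
  split_ifs
  · rw [Phi_sh_comm hW hl hm]
    have e : F4.tr ((A + B) l * (A + B) m) = F4.tr (A l * A m) + F4.tr (B l * B m) +
        (F4.tr (A l * B m) + F4.tr (A m * B l)) := by
      rw [Pi.add_apply, Pi.add_apply, add_mul, mul_add, mul_add, F4.tr_add, F4.tr_add, F4.tr_add,
        mul_comm (B l) (A m)]
      ring
    rw [e]
    ring
  · ring

theorem pol_add_right (W : Finset (Lab k)) (l0 : Lab k) (A B C : Lab k → F4) :
    pol W l0 A (B + C) = pol W l0 A B + pol W l0 A C := by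
  rw [pol, pol, pol, ← sum_add_distrib]
  refine sum_congr rfl fun l _ => ?_
  rw [← sum_add_distrib]
  refine sum_congr rfl fun m _ => ?_
  rw [Pi.add_apply, mul_add, F4.tr_add]
  ring

theorem pol_single {W : Finset (Lab k)} (l0 : Lab k) (A : Lab k → F4) {q : Lab k} (hq : q ∈ W)
    (t : F4) : pol W l0 A (Pi.single q t) =
      ∑ l ∈ W, Phi (l + l0) (q + l0) * F4.tr (A l * t) := by
  rw [pol]
  refine sum_congr rfl fun l _ => ?_
  rw [sum_eq_single q]
  · rw [Pi.single_eq_same]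
  · intro m _ hm
    rw [Pi.single_eq_of_ne hm, mul_zero, F4.tr_zero, mul_zero]
  · intro h
    exact absurd hq h

theorem pol_single_single {W : Finset (Lab k)} (l0 : Lab k) {p q : Lab k} (hp : p ∈ W)
    (hq : q ∈ W) (s t : F4) :
    pol W l0 (Pi.single p s) (Pi.single q t) = Phi (p + l0) (q + l0) * F4.tr (s * t) := by
  rw [pol_single l0 _ hq, sum_eq_single p]
  · rw [Pi.single_eq_same]
  · intro m _ hm
    rw [Pi.single_eq_of_ne hm, zero_mul, F4.tr_zero, mul_zero]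
  · intro h
    exact absurd hp h

theorem PP_single (o : Lab k → ℕ) (W : Finset (Lab k)) (l0 q : Lab k) (t : F4) :
    PP o W l0 (Pi.single q t) = 0 := by
  refine sum_eq_zero fun l _ => sum_eq_zero fun m _ => ?_
  split_ifs with h
  · have : (Pi.single q t : Lab k → F4) l * (Pi.single q t : Lab k → F4) m = 0 := by
      by_cases h1 : l = q
      · have h2 : m ≠ q := fun h2 => by rw [h1, h2] at h; exact lt_irrefl _ h
        rw [Pi.single_eq_of_ne h2, mul_zero]
      · rw [Pi.single_eq_of_ne h1, zero_mul]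
    rw [this, F4.tr_zero, mul_zero]
  · rfl

theorem Phi_four {l l0 a b : Lab k} : Phi (l + l0) (0 + l0) + Phi (l + l0) (a + l0) +
    Phi (l + l0) (b + l0) + Phi (l + l0) (a + b + l0) = 0 := by
  simp only [Phi_sh, Prod.fst_add, dotProduct_add, F4.tr_add, Prod.fst_zero, dotProduct_zero,
    F4.tr_zero]
  generalize F4.tr (l.2 ⬝ᵥ l.1) = x1
  generalize F4.tr (l.2 ⬝ᵥ a.1) = x2
  generalize F4.tr (l.2 ⬝ᵥ b.1) = x3
  generalize F4.tr (l0.2 ⬝ᵥ l.1) = x4
  generalize F4.tr (l0.2 ⬝ᵥ a.1) = x5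
  generalize F4.tr (l0.2 ⬝ᵥ b.1) = x6
  revert x1 x2 x3 x4 x5 x6
  decide

/-- The linear part. -/
def Ln (c : F4) (W : Finset (Lab k)) (l0 : Lab k) (A : Lab k → F4) : ZMod 2 :=
  ∑ l ∈ W, F4.tr (gam c (l + l0) * A l)

theorem Ln_add (c : F4) (W : Finset (Lab k)) (l0 : Lab k) (A B : Lab k → F4) :
    Ln c W l0 (A + B) = Ln c W l0 A + Ln c W l0 B := by
  rw [Ln, Ln, Ln, ← sum_add_distrib]
  refine sum_congr rfl fun l _ => ?_
  rw [Pi.add_apply, mul_add, F4.tr_add]

theorem Ln_single (c : F4) {W : Finset (Lab k)} (l0 : Lab k) {q : Lab k} (hq : q ∈ W) (t : F4) :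
    Ln c W l0 (Pi.single q t) = F4.tr (gam c (q + l0) * t) := by
  rw [Ln, sum_eq_single q]
  · rw [Pi.single_eq_same]
  · intro m _ hm
    rw [Pi.single_eq_of_ne hm, mul_zero, F4.tr_zero]
  · intro h
    exact absurd hq h

theorem gam_four (c : F4) {l0 a b : Lab k} : gam c (0 + l0) + gam c (a + l0) +
    gam c (b + l0) + gam c (a + b + l0) = F4.cj (a.2 ⬝ᵥ b.1 + b.2 ⬝ᵥ a.1) := by
  simp only [gam, Prod.fst_add, Prod.snd_add, dotProduct_add, add_dotProduct, F4.cj_add,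
    Prod.fst_zero, Prod.snd_zero, dotProduct_zero, zero_dotProduct, F4.cj_zero]
  rw [dotProduct_comm a.2 b.1, dotProduct_comm b.2 a.1]
  generalize F4.cj (l0.1 ⬝ᵥ l0.2) = x1
  generalize F4.cj (l0.1 ⬝ᵥ a.2) = x2
  generalize F4.cj (l0.1 ⬝ᵥ b.2) = x3
  generalize F4.cj (a.1 ⬝ᵥ l0.2) = x4
  generalize F4.cj (a.1 ⬝ᵥ a.2) = x5
  generalize F4.cj (a.1 ⬝ᵥ b.2) = x6
  generalize F4.cj (b.1 ⬝ᵥ l0.2) = x7
  generalize F4.cj (b.1 ⬝ᵥ a.2) = x8
  generalize F4.cj (b.1 ⬝ᵥ b.2) = x9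
  have h2 : (2 : F4) = 0 := rfl
  linear_combination (2 * x1 + 2 * c + x2 + x3 + x4 + x5 + x7 + x9) * h2

/-- If `W` is not hermitian, the average is zero. -/
theorem sum_EE_not_her (o : Lab k → ℕ) (ho : Function.Injective o) (c : F4) {W : Finset (Lab k)}
    (hW : Mx W) (h : ¬ Her W) (l0 : Lab k) : ∑ A, sg (EE o c W l0 A) = 0 := by
  unfold Her at h
  push Not at h
  obtain ⟨a, ha, b, hb, hab⟩ := h
  have hab' : a + b ∈ W := hW.add_mem ha hb
  have hQa := hW.unl.Qf hW.zero ha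
  have hQb := hW.unl.Qf hW.zero hb
  have hB := hW.unl.Bf hW.zero ha hb
  rw [Qf] at hQa hQb
  rw [Bf] at hB
  obtain ⟨t, ht⟩ : ∃ t : F4, F4.tr t = 1 := ⟨F4.w, rfl⟩
  set K : Lab k → F4 := Pi.single 0 t + (Pi.single a t + (Pi.single b t + Pi.single (a + b) t))
    with hK
  refine sum_sg_eq_zero (fun A => EE o c W l0 A) K fun A => ?_
  have e1 : ∀ A, EE o c W l0 A = Ln c W l0 A + PP o W l0 A := fun A => rfl
  rw [e1, e1, Ln_add, PP_add o ho hW]
  have hpol : pol W l0 A K = 0 := by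
    rw [hK, pol_add_right, pol_add_right, pol_add_right, pol_single l0 _ hW.zero,
      pol_single l0 _ ha, pol_single l0 _ hb, pol_single l0 _ hab', ← sum_add_distrib,
      ← sum_add_distrib, ← sum_add_distrib]
    refine sum_eq_zero fun l _ => ?_
    have := Phi_four (l := l) (l0 := l0) (a := a) (b := b)
    linear_combination F4.tr (A l * t) * this
  have hPK : PP o W l0 K = F4.tr (a.2 ⬝ᵥ b.1) := by
    rw [hK, PP_add o ho hW, PP_add o ho hW, PP_add o ho hW, PP_single, PP_single, PP_single,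
      PP_single, pol_add_right, pol_add_right, pol_add_right, pol_single_single l0 hW.zero ha,
      pol_single_single l0 hW.zero hb, pol_single_single l0 hW.zero hab',
      pol_single_single l0 ha hb, pol_single_single l0 ha hab', pol_single_single l0 hb hab',
      F4.tr_sq, ht]
    simp only [Phi_sh, Prod.fst_add, Prod.snd_add, dotProduct_add, add_dotProduct, F4.tr_add,
      Prod.fst_zero, Prod.snd_zero, dotProduct_zero, zero_dotProduct, F4.tr_zero, hQa, hQb]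
    have hB' : F4.tr (b.2 ⬝ᵥ a.1) = F4.tr (a.2 ⬝ᵥ b.1) :=
      add_left_cancel (hB.trans (zadd_self _).symm)
    rw [hB']
    generalize F4.tr (a.2 ⬝ᵥ b.1) = x1
    generalize F4.tr (l0.2 ⬝ᵥ a.1) = x2
    generalize F4.tr (l0.2 ⬝ᵥ b.1) = x3
    revert x1 x2 x3
    decide
  have hLK : Ln c W l0 K = F4.tr (F4.cj (a.2 ⬝ᵥ b.1 + b.2 ⬝ᵥ a.1) * t) := by
    rw [hK, Ln_add, Ln_add, Ln_add, Ln_single c l0 hW.zero, Ln_single c l0 ha,
      Ln_single c l0 hb, Ln_single c l0 hab', ← gam_four c (l0 := l0), add_mul, add_mul, add_mul,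
      F4.tr_add, F4.tr_add, F4.tr_add]
    ring
  have hfin : ∀ x y t : F4, F4.tr x + F4.tr y = 0 → F4.cj x ≠ y → F4.tr t = 1 →
      F4.tr (F4.cj (x + y) * t) + F4.tr x = 1 := by decide
  have hKK := hfin _ _ t hB hab ht
  rw [← hLK, ← hPK] at hKK
  rw [hpol]
  linear_combination hKK

end Pool.Agent.Lib.MP_1a91b9_ntH.Da
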