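import Pool.Agent.Lib.MP_1a91b9_ntH.D.K3a

/-!
# MP_1a91b9_nt (TwistDensity), part D: the hermitian case
-/

set_option autoImplicit false

namespace Pool.Agent.Lib.MP_1a91b9_ntH.Da

open Finset

variable {k : ℕ}

/-- `∑ A_l`. -/
def aT (W : Finset (Lab k)) (A : Lab k → F4) : F4 := ∑ l ∈ W, A l
/-- `∑ A_l x_l`. -/
def vR (W : Finset (Lab k)) (A : Lab k → F4) : Fin k → F4 := ∑ l ∈ W, A l • l.1
/-- `∑ A_l y_l`. -/
def vS (W : Finset (Lab k)) (A : Lab k → F4) : Fin k → F4 := ∑ l ∈ W, A l • l.2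
/-- `∑ conj A_l x_l`. -/
def vR' (W : Finset (Lab k)) (A : Lab k → F4) : Fin k → F4 := ∑ l ∈ W, F4.cj (A l) • l.1
/-- `∑ conj A_l y_l`. -/
def vS' (W : Finset (Lab k)) (A : Lab k → F4) : Fin k → F4 := ∑ l ∈ W, F4.cj (A l) • l.2

theorem tr_cj_mul (x y : F4) : F4.tr (F4.cj x * y) = F4.tr (x * F4.cj y) := by
  revert x y; decide

theorem Ln_eq (c : F4) (W : Finset (Lab k)) (l0 : Lab k) (A : Lab k → F4) :
    Ln c W l0 A = ∑ l ∈ W, F4.tr (l.1 ⬝ᵥ l.2 * F4.cj (A l)) + F4.tr (l0.2 ⬝ᵥ vR' W A) +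
      F4.tr (l0.1 ⬝ᵥ vS' W A) + F4.tr (l0.1 ⬝ᵥ l0.2 * F4.cj (aT W A)) +
      F4.tr (c * aT W A) := by
  rw [vR', vS', aT, dotProduct_sum, dotProduct_sum, F4.cj_sum, mul_sum, mul_sum, F4.tr_sum,
    F4.tr_sum, F4.tr_sum, F4.tr_sum, ← sum_add_distrib, ← sum_add_distrib, ← sum_add_distrib,
    ← sum_add_distrib, Ln]
  refine sum_congr rfl fun l _ => ?_
  rw [gam, add_mul, F4.tr_add, tr_cj_mul, Prod.fst_add, Prod.snd_add, add_dotProduct,
    dotProduct_add, dotProduct_add, add_mul, add_mul, add_mul, F4.tr_add, F4.tr_add, F4.tr_add,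
    dotProduct_smul, dotProduct_smul, smul_eq_mul, smul_eq_mul, dotProduct_comm l.1 l0.2,
    mul_comm (F4.cj (A l)) (l0.2 ⬝ᵥ l.1), mul_comm (F4.cj (A l)) (l0.1 ⬝ᵥ l.2)]
  ring

theorem PP_eq (o : Lab k → ℕ) (ho : Function.Injective o) {W : Finset (Lab k)} (hW : Mx W)
    (h : Her W) (l0 : Lab k) (A : Lab k → F4) :
    PP o W l0 A = F4.tr (aT W A * (l0.2 ⬝ᵥ vR W A)) + F4.tr (F4.cj (aT W A) * (l0.2 ⬝ᵥ vR' W A)) +
      F4.tr (vS W A ⬝ᵥ vR W A) + F4.tr (l0.2 ⬝ᵥ vR W A) + F4.tr (l0.2 ⬝ᵥ vR' W A) +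
      ∑ l ∈ W, F4.tr (l.1 ⬝ᵥ l.2 * F4.cj (A l)) := by
  set F : Lab k → Lab k → ZMod 2 := fun l m =>
    F4.tr (l0.2 ⬝ᵥ l.1) * F4.tr (A l * A m) + F4.tr (A l * A m * (l.2 ⬝ᵥ m.1)) with hF
  have h1 : PP o W l0 A = ∑ l ∈ W, ∑ m ∈ W, (if o l < o m then F l m + F m l else 0) := by
    rw [PP]
    refine sum_congr rfl fun l hl => sum_congr rfl fun m hm => ?_
    split_ifs
    · have hQ := hW.unl.Qf hW.zero hm
      rw [Qf] at hQ
      rw [Phi_sh, hQ, hF]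
      simp only
      have hh : F4.tr (m.2 ⬝ᵥ l.1) * F4.tr (A l * A m) =
          F4.tr (A l * A m * (m.2 ⬝ᵥ l.1)) + F4.tr (A l * A m * (l.2 ⬝ᵥ m.1)) := by
        rw [mul_comm, F4.tr_mul_tr, h m hm l hl]
      rw [mul_comm (A m) (A l)]
      linear_combination hh
    · rfl
  have h2 : ∑ l ∈ W, ∑ m ∈ W, F l m = F4.tr (aT W A * (l0.2 ⬝ᵥ vR W A)) +
      F4.tr (F4.cj (aT W A) * (l0.2 ⬝ᵥ vR' W A)) + F4.tr (vS W A ⬝ᵥ vR W A) := by
    have h3 : F4.tr (vS W A ⬝ᵥ vR W A) = ∑ l ∈ W, ∑ m ∈ W, F4.tr (A l * A m * (l.2 ⬝ᵥ m.1)) := by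
      rw [vS, vR, sum_dotProduct, F4.tr_sum]
      refine sum_congr rfl fun l _ => ?_
      rw [dotProduct_sum, F4.tr_sum]
      refine sum_congr rfl fun m _ => ?_
      rw [smul_dotProduct, dotProduct_smul, smul_eq_mul, smul_eq_mul, ← mul_assoc]
    have h4 : F4.tr (aT W A * (l0.2 ⬝ᵥ vR W A)) + F4.tr (F4.cj (aT W A) * (l0.2 ⬝ᵥ vR' W A)) =
        ∑ l ∈ W, F4.tr (l0.2 ⬝ᵥ l.1) * F4.tr (A l * aT W A) := by
      rw [vR, vR', dotProduct_sum, dotProduct_sum, mul_sum, mul_sum, F4.tr_sum, F4.tr_sum,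
        ← sum_add_distrib]
      refine sum_congr rfl fun l _ => ?_
      rw [F4.tr_mul_tr, dotProduct_smul, dotProduct_smul, smul_eq_mul, smul_eq_mul, F4.cj_mul]
      congr 2 <;> ring
    rw [h3, h4, ← sum_add_distrib]
    refine sum_congr rfl fun l _ => ?_
    rw [aT, mul_sum, F4.tr_sum, mul_sum, ← sum_add_distrib]
  have h5 : ∑ l ∈ W, F l l = F4.tr (l0.2 ⬝ᵥ vR W A) + F4.tr (l0.2 ⬝ᵥ vR' W A) +
      ∑ l ∈ W, F4.tr (l.1 ⬝ᵥ l.2 * F4.cj (A l)) := by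
    rw [vR, vR', dotProduct_sum, dotProduct_sum, F4.tr_sum, F4.tr_sum, ← sum_add_distrib,
      ← sum_add_distrib]
    refine sum_congr rfl fun l hl => ?_
    have hd : ∀ x y z : F4, F4.cj y = y → F4.tr x * F4.tr (z * z) + F4.tr (z * z * y) =
        F4.tr (z * x) + F4.tr (F4.cj z * x) + F4.tr (y * F4.cj z) := by decide
    rw [hF, dotProduct_smul, dotProduct_smul, smul_eq_mul, smul_eq_mul]
    rw [dotProduct_comm l.1 l.2]
    exact hd _ _ _ (h l hl l hl)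
  rw [h1, pair_sum o ho, h2, h5]
  ring

theorem EE_eq (o : Lab k → ℕ) (ho : Function.Injective o) (c : F4) {W : Finset (Lab k)}
    (hW : Mx W) (h : Her W) (l0 : Lab k) (A : Lab k → F4) :
    EE o c W l0 A = F4.tr (c * aT W A) + F4.tr (vS W A ⬝ᵥ vR W A) +
      F4.tr (l0.2 ⬝ᵥ ((aT W A + 1) • vR W A + F4.cj (aT W A) • vR' W A)) +
      F4.tr (l0.1 ⬝ᵥ (F4.cj (aT W A) • l0.2 + vS' W A)) := by
  have e : EE o c W l0 A = Ln c W l0 A + PP o W l0 A := rfl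
  rw [e, Ln_eq, PP_eq o ho hW h]
  simp only [dotProduct_add, dotProduct_smul, smul_eq_mul, add_mul, one_mul, F4.tr_add]
  rw [mul_comm (F4.cj (aT W A)) (l0.1 ⬝ᵥ l0.2)]
  have h2 : (2 : ZMod 2) = 0 := rfl
  linear_combination (∑ l ∈ W, F4.tr (l.1 ⬝ᵥ l.2 * F4.cj (A l)) + F4.tr (l0.2 ⬝ᵥ vR' W A)) * h2

/-! ### Summing over the coset representatives -/

theorem sum_dot (z : Fin k → F4) : ∑ v : Fin k → F4, sg (F4.tr (v ⬝ᵥ z)) =
    if z = 0 then (4 ^ k : ℝ) else 0 := by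
  split_ifs with h
  · subst h
    simp only [dotProduct_zero, F4.tr_zero, sg_zero, sum_const, card_univ, card_Vk, nsmul_eq_mul,
      mul_one]
    push_cast
    rfl
  · obtain ⟨t, ht⟩ := exists_dot h
    refine sum_sg_eq_zero (fun v => F4.tr (v ⬝ᵥ z)) t fun v => ?_
    rw [add_dotProduct, F4.tr_add, dotProduct_comm t z, ht]

theorem her_RS {W : Finset (Lab k)} (h : Her W) (A : Lab k → F4) :
    F4.cj (vS' W A ⬝ᵥ vR' W A) = vS W A ⬝ᵥ vR W A := by
  simp only [vS', vR', vS, vR, sum_dotProduct, dotProduct_sum, smul_dotProduct, dotProduct_smul,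
    smul_eq_mul, F4.cj_sum, F4.cj_mul, F4.cj_cj, mul_sum]
  rw [sum_comm]
  refine sum_congr rfl fun l hl => sum_congr rfl fun m hm => ?_
  rw [h l hl m hm]
  ring

theorem her_SR {W : Finset (Lab k)} (h : Her W) (A : Lab k → F4) :
    F4.cj (vS' W A ⬝ᵥ vR W A) = vS' W A ⬝ᵥ vR W A := by
  simp only [vS', vR, sum_dotProduct, dotProduct_sum, smul_dotProduct, dotProduct_smul,
    smul_eq_mul, F4.cj_sum, F4.cj_mul, F4.cj_cj, mul_sum]
  rw [sum_comm]
  refine sum_congr rfl fun l hl => sum_congr rfl fun m hm => ?_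
  rw [h l hl m hm]
  ring

theorem mem_of_her {W : Finset (Lab k)} (hW : Mx W) (h : Her W) (A : Lab k → F4) :
    ((vR W A, vS' W A) : Lab k) ∈ W := by
  rw [hW.mem_iff]
  intro w hw
  rw [Bf]
  simp only [vS', vR, sum_dotProduct, dotProduct_sum, smul_dotProduct, dotProduct_smul,
    smul_eq_mul, F4.tr_sum]
  rw [← sum_add_distrib]
  refine sum_eq_zero fun l hl => ?_
  have hd : ∀ x y : F4, F4.tr (F4.cj x * y) + F4.tr (x * F4.cj y) = 0 := by decide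
  rw [← h l hl w hw]
  exact hd _ _

theorem sum_l0 (o : Lab k → ℕ) (ho : Function.Injective o) (c : F4) {W : Finset (Lab k)}
    (hW : Mx W) (h : Her W) (A : Lab k → F4) :
    ∑ l0, sg (EE o c W l0 A) = 4 ^ k * (if aT W A ≠ 0 then sg (F4.tr (c * aT W A)) else
      if ((vR W A, vS' W A) : Lab k) = 0 then (4 ^ k : ℝ) else 0) := by
  have h1 : ∑ l0, sg (EE o c W l0 A) = ∑ w0 : Fin k → F4,
      sg (F4.tr (c * aT W A) + F4.tr (vS W A ⬝ᵥ vR W A) +
        F4.tr (w0 ⬝ᵥ ((aT W A + 1) • vR W A + F4.cj (aT W A) • vR' W A))) *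
      (if F4.cj (aT W A) • w0 + vS' W A = 0 then (4 ^ k : ℝ) else 0) := by
    rw [Fintype.sum_prod_type_right]
    refine sum_congr rfl fun w0 _ => ?_
    rw [← sum_dot, mul_sum]
    refine sum_congr rfl fun v0 _ => ?_
    rw [EE_eq o ho c hW h, sg_add]
  rw [h1]
  by_cases hA : aT W A = 0
  · rw [if_neg (by simpa using hA), hA]
    by_cases hS : vS' W A = 0
    · rw [hS]
      simp only [F4.cj_zero, zero_smul, add_zero, if_true, mul_zero, F4.tr_zero, zero_add,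
        one_smul, sg_add, Prod.mk_eq_zero, and_true]
      rw [← sum_mul, ← mul_sum, sum_dot]
      by_cases hR : vR W A = 0
      · rw [if_pos hR, hR, dotProduct_zero, F4.tr_zero, sg_zero]
        ring
      · rw [if_neg hR]
        ring
    · rw [if_neg (by rw [Prod.mk_eq_zero]; tauto), mul_zero (4 ^ k : ℝ)]
      refine sum_eq_zero fun w0 _ => ?_
      rw [if_neg, mul_zero]
      intro hz
      apply hS
      rwa [F4.cj_zero, zero_smul, zero_add] at hz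
  · rw [if_pos hA]
    have hcA : F4.cj (aT W A) ≠ 0 := by
      have : ∀ x : F4, x ≠ 0 → F4.cj x ≠ 0 := by decide
      exact this _ hA
    set w1 : Fin k → F4 := (F4.cj (aT W A))⁻¹ • vS' W A with hw1
    rw [sum_eq_single w1]
    · have hz : F4.cj (aT W A) • w1 + vS' W A = 0 := by
        rw [hw1, smul_smul, mul_inv_cancel₀ hcA, one_smul, vadd_self]
      rw [if_pos hz]
      have h2 : F4.tr (vS W A ⬝ᵥ vR W A) +
          F4.tr (w1 ⬝ᵥ ((aT W A + 1) • vR W A + F4.cj (aT W A) • vR' W A)) = 0 := by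
        rw [dotProduct_add, F4.tr_add, dotProduct_smul, dotProduct_smul, hw1, smul_dotProduct,
          smul_dotProduct, smul_eq_mul, smul_eq_mul, smul_eq_mul, smul_eq_mul, ← mul_assoc,
          ← mul_assoc, mul_inv_cancel₀ hcA, one_mul, ← her_RS h, F4.tr_cj]
        have hd : ∀ x y : F4, x ≠ 0 → F4.cj y = y → F4.tr ((x + 1) * (F4.cj x)⁻¹ * y) = 0 := by
          decide
        rw [hd _ _ hA (her_SR h A), zero_add, zadd_self]
      rw [add_assoc, h2, add_zero]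
      ring
    · intro w0 _ hne
      rw [if_neg, mul_zero]
      intro hz
      apply hne
      have h3 : F4.cj (aT W A) • w0 = vS' W A := by
        have := congrArg (fun z => z + vS' W A) hz
        simp only [add_assoc, vadd_self, add_zero, zero_add] at this
        exact this
      rw [hw1, ← h3, smul_smul, inv_mul_cancel₀ hcA, one_smul]
    · intro h
      exact absurd (mem_univ _) h

end Pool.Agent.Lib.MP_1a91b9_ntH.Da
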