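import Pool.Agent.Lib.MP_1a91b9_ntH.D.K3b

/-!
# MP_1a91b9_nt (TwistDensity), part D: the constant of the main term, (K3)
-/

set_option autoImplicit false

namespace Pool.Agent.Lib.MP_1a91b9_ntH.Da

open Finset

variable {k : ℕ}

/-- The homomorphism `A ↦ (∑ A_l, (∑ A_l x_l, ∑ conj A_l y_l))`. -/
def gH (W : Finset (Lab k)) : (Lab k → F4) →+ F4 × Lab k where
  toFun A := (aT W A, (vR W A, vS' W A))
  map_zero' := by
    simp [aT, vR, vS', F4.cj_zero]
  map_add' A B := by
    simp [aT, vR, vS', F4.cj_add, add_smul, sum_add_distrib]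

theorem gH_single {W : Finset (Lab k)} {q : Lab k} (hq : q ∈ W) (t : F4) :
    gH W (Pi.single q t) = (t, (t • q.1, F4.cj t • q.2)) := by
  have h1 : aT W (Pi.single q t) = t := by
    rw [aT, sum_eq_single q]
    · rw [Pi.single_eq_same]
    · intro m _ hm
      rw [Pi.single_eq_of_ne hm]
    · intro h; exact absurd hq h
  have h2 : vR W (Pi.single q t) = t • q.1 := by
    rw [vR, sum_eq_single q]
    · rw [Pi.single_eq_same]
    · intro m _ hm
      rw [Pi.single_eq_of_ne hm, zero_smul]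
    · intro h; exact absurd hq h
  have h3 : vS' W (Pi.single q t) = F4.cj t • q.2 := by
    rw [vS', sum_eq_single q]
    · rw [Pi.single_eq_same]
    · intro m _ hm
      rw [Pi.single_eq_of_ne hm, F4.cj_zero, zero_smul]
    · intro h; exact absurd hq h
  show (aT W (Pi.single q t), (vR W (Pi.single q t), vS' W (Pi.single q t))) = _
  rw [h1, h2, h3]

theorem gH_surj {W : Finset (Lab k)} (hW : Mx W) (a : F4) {l : Lab k} (hl : l ∈ W) :
    ∃ A, gH W A = (a, l) := by
  refine ⟨Pi.single 0 (a + 1) + Pi.single l 1, ?_⟩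
  rw [map_add, gH_single hW.zero, gH_single hl]
  have : a + 1 + 1 = a := by rw [add_assoc, F4.add_self, add_zero]
  simp [F4.cj_one, this]

/-- The number of class vectors over `0`. -/
noncomputable def kap (W : Finset (Lab k)) : ℕ :=
  (univ.filter fun A : Lab k → F4 => gH W A = 0).card

theorem fun_add_self (A : Lab k → F4) : A + A = 0 := funext fun l => F4.add_self (A l)

theorem card_fib {W : Finset (Lab k)} (hW : Mx W) (a : F4) {l : Lab k} (hl : l ∈ W) :
    (univ.filter fun A : Lab k → F4 => gH W A = (a, l)).card = kap W := by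
  obtain ⟨A0, hA0⟩ := gH_surj hW a hl
  rw [kap]
  refine card_nbij' (fun A => A + A0) (fun A => A + A0) ?_ ?_ ?_ ?_
  · intro A hA
    simp only [coe_filter, mem_univ, true_and, Set.mem_ofPred_eq] at hA ⊢
    have h1 : gH W A0 + gH W A0 = 0 := by rw [← map_add, fun_add_self, map_zero]
    rw [map_add, hA, ← hA0, h1]
  · intro A hA
    simp only [coe_filter, mem_univ, true_and, Set.mem_ofPred_eq] at hA ⊢
    rw [map_add, hA, hA0, zero_add]
  · intro A _
    show A + A0 + A0 = A
    rw [add_assoc, fun_add_self, add_zero]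
  · intro A _
    show A + A0 + A0 = A
    rw [add_assoc, fun_add_self, add_zero]

theorem gH_mem {W : Finset (Lab k)} (hW : Mx W) (h : Her W) (A : Lab k → F4) :
    gH W A ∈ (univ : Finset F4) ×ˢ W := by
  rw [mem_product]
  exact ⟨mem_univ _, mem_of_her hW h A⟩

theorem sum_gH {W : Finset (Lab k)} (hW : Mx W) (h : Her W) (f : F4 × Lab k → ℝ) :
    ∑ A : Lab k → F4, f (gH W A) = kap W * ∑ a : F4, ∑ l ∈ W, f (a, l) := by
  rw [← sum_product', ← sum_fiberwise_of_maps_to (s := univ) (g := fun A => gH W A)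
    (fun A _ => gH_mem hW h A), mul_sum]
  refine sum_congr rfl fun y hy => ?_
  rw [mem_product] at hy
  rw [sum_congr rfl (g := fun _ => f y) fun A hA => by rw [(mem_filter.1 hA).2], sum_const,
    nsmul_eq_mul]
  congr 1
  exact_mod_cast card_fib hW y.1 hy.2

theorem sum_sg_tr (c : F4) : ∑ a : F4, sg (F4.tr (c * a)) = if c = 0 then 4 else 0 := by
  split_ifs with h
  · subst h
    simp [F4.tr_zero, sg_zero, F4.card_F4]
  · obtain ⟨t, ht⟩ := F4.exists_tr c h
    exact sum_sg_eq_zero (fun a => F4.tr (c * a)) t fun a => by rw [mul_add, F4.tr_add, ht]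

/-- The hermitian case. -/
theorem sum_EE_her (o : Lab k → ℕ) (ho : Function.Injective o) (c : F4) {W : Finset (Lab k)}
    (hW : Mx W) (h : Her W) : ∑ l0, ∑ A, sg (EE (fun l => o (l + l0)) c W l0 A) =
      if c = 0 then (4 ^ k : ℝ) * Fintype.card (Lab k → F4) else 0 := by
  have ho' : ∀ l0, Function.Injective fun l : Lab k => o (l + l0) := fun l0 =>
    ho.comp (add_left_injective l0)
  have hr : ∀ l0 A, EE (fun l => o (l + l0)) c W l0 A = EE o c W l0 A := fun l0 A => by
    rw [EE_eq _ (ho' l0) c hW h, EE_eq o ho c hW h]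
  simp only [hr]
  rw [sum_comm]
  simp only [sum_l0 o ho c hW h]
  have h1 := sum_gH hW h (fun y : F4 × Lab k => (4 : ℝ) ^ k *
    (if y.1 ≠ 0 then sg (F4.tr (c * y.1)) else if y.2 = 0 then (4 ^ k : ℝ) else 0))
  refine Eq.trans h1 ?_
  have h2 : (Fintype.card (Lab k → F4) : ℝ) = kap W * (4 * 4 ^ k) := by
    have := sum_gH hW h fun _ => 1
    simp only [sum_const, card_univ, nsmul_eq_mul, mul_one, F4.card_F4, hW.card] at this
    rw [this]
    push_cast
    ring
  have h3 : ∑ a : F4, ∑ l ∈ W, (4 : ℝ) ^ k * (if a ≠ 0 then sg (F4.tr (c * a)) else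
      if l = 0 then (4 ^ k : ℝ) else 0) = 4 ^ k * 4 ^ k * ∑ a : F4, sg (F4.tr (c * a)) := by
    rw [mul_sum]
    refine sum_congr rfl fun a _ => ?_
    rw [← mul_sum, mul_assoc]
    congr 1
    by_cases ha : a = 0
    · subst ha
      simp only [ne_eq, not_true_eq_false, if_false, mul_zero, F4.tr_zero, sg_zero, mul_one]
      rw [sum_ite_eq', if_pos hW.zero]
    · simp only [ne_eq, ha, not_false_eq_true, if_true]
      rw [sum_const, hW.card, nsmul_eq_mul]
      push_cast
      ring
  simp only at h3 ⊢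
  rw [h3, sum_sg_tr]
  split_ifs with hc
  · rw [h2]; ring
  · ring

open Classical in
/-- The Lagrangians. -/
noncomputable def Lgs (k : ℕ) : Finset (Finset (Lab k)) := univ.filter fun W => Mx W ∧ Her W

/-- Sums over maximal unlinked sets, via their translates through `0`. -/
theorem sum_Us (f : Finset (Lab k) → ℝ) : by
    classical exact (4 : ℝ) ^ k * ∑ U ∈ Us k, f U =
      ∑ W ∈ univ.filter (fun W => Mx W), ∑ l0, f (sh l0 W) := by
  classical
  have h1 : (4 : ℝ) ^ k * ∑ U ∈ Us k, f U = ∑ U ∈ Us k, ∑ l0 ∈ U, f U := by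
    rw [mul_sum]
    refine sum_congr rfl fun U hU => ?_
    rw [sum_const, nsmul_eq_mul, (mem_filter.1 hU).2.2]
    push_cast
    rfl
  rw [h1]
  have h2 : ∑ U ∈ Us k, ∑ l0 ∈ U, f U = ∑ l0 : Lab k, ∑ U ∈ (Us k).filter (fun U => l0 ∈ U), f U := by
    rw [sum_comm' (t' := univ) (s' := fun l0 => (Us k).filter fun U => l0 ∈ U)]
    intro U l0
    simp [mem_filter]
  rw [h2, sum_comm (s := univ.filter (fun W => Mx W))]
  refine sum_congr rfl fun l0 _ => ?_
  refine sum_nbij' (fun U => sh l0 U) (fun U => sh l0 U) ?_ ?_ ?_ ?_ ?_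
  · intro U hU
    rw [mem_filter] at hU
    have hU1 := (mem_filter.1 hU.1).2
    exact mem_filter.2 ⟨mem_univ _, Unl_sh hU1.1, by rw [card_sh, hU1.2],
      by rw [mem_sh, zero_add]; exact hU.2⟩
  · intro W hW
    have hW1 := (mem_filter.1 hW).2
    refine mem_filter.2 ⟨mem_filter.2 ⟨mem_univ _, Unl_sh hW1.unl, by rw [card_sh, hW1.card]⟩, ?_⟩
    rw [mem_sh, ladd_self]
    exact hW1.zero
  · intro U _
    exact sh_sh l0 U
  · intro U _
    exact sh_sh l0 U
  · intro U _
    rw [sh_sh]

/-- (K3), with the number of Lagrangians. -/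
theorem K3_Lgs (o : Lab k → ℕ) (ho : Function.Injective o) (c : F4) :
    ∑ U ∈ Us k, cU o c U = if c = 0 then ((Lgs k).card : ℝ) else 0 := by
  classical
  have hpos : (0 : ℝ) < Fintype.card (Lab k → F4) := by exact_mod_cast Fintype.card_pos
  have h4 : (0 : ℝ) < 4 ^ k := by positivity
  have h0 := sum_Us (k := k) fun U => ∑ A : Lab k → F4, sg (theta o c U A)
  have h1 : ∀ W ∈ univ.filter (fun W : Finset (Lab k) => Mx W),
      ∑ l0, ∑ A : Lab k → F4, sg (theta o c (sh l0 W) A) =
      if Her W then (if c = 0 then (4 ^ k : ℝ) * Fintype.card (Lab k → F4) else 0) else 0 := by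
    intro W hW
    have hW1 := (mem_filter.1 hW).2
    have h2 : ∀ l0, ∑ A : Lab k → F4, sg (theta o c (sh l0 W) A) =
        ∑ A : Lab k → F4, sg (EE (fun l => o (l + l0)) c W l0 A) := by
      intro l0
      refine Fintype.sum_equiv (Equiv.arrowCongr (Equiv.addRight l0) (Equiv.refl F4)) _ _ ?_
      intro A
      rw [theta_sh]
      congr 2
    simp only [h2]
    split_ifs with hH hc
    · rw [sum_EE_her o ho c hW1 hH, if_pos hc]
    · rw [sum_EE_her o ho c hW1 hH, if_neg hc]
    · exact sum_eq_zero fun l0 _ => sum_EE_not_her _ (ho.comp (add_left_injective l0)) c hW1 hH l0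
  rw [sum_congr rfl h1, ← sum_filter, filter_filter] at h0
  have h5 : univ.filter (fun W : Finset (Lab k) => Mx W ∧ Her W) = Lgs k := by
    rw [Lgs]
  have h6 : ∑ U ∈ Us k, cU o c U =
      (∑ U ∈ Us k, ∑ A : Lab k → F4, sg (theta o c U A)) / Fintype.card (Lab k → F4) := by
    rw [sum_div]
    rfl
  rw [h6]
  rw [h5, sum_const, nsmul_eq_mul] at h0
  split_ifs at h0 ⊢ with hc
  · rw [div_eq_iff hpos.ne']
    have := mul_left_cancel₀ h4.ne' (h0.trans (show (4 : ℝ) ^ k * ((Lgs k).card *
      Fintype.card (Lab k → F4)) = _ by ring).symm)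
    exact this
  · rw [mul_zero] at h0
    rcases mul_eq_zero.1 h0 with h | h
    · exact absurd h h4.ne'
    · rw [h, zero_div]

end Pool.Agent.Lib.MP_1a91b9_ntH.Da
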