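import Pool.Agent.Lib.MP_1a91b9_ntH.D.K3c

/-!
# MP_1a91b9_nt (TwistDensity), part D: the number of Lagrangians
-/

set_option autoImplicit false

namespace Pool.Agent.Lib.MP_1a91b9_ntH.Da

open Finset

variable {k : ℕ}

/-- The action of `F4` on the labels. -/
def st (t : F4) (l : Lab k) : Lab k := (t • l.1, F4.cj t • l.2)

/-- The hermitian form. -/
def Hf (l m : Lab k) : F4 := F4.cj (l.2 ⬝ᵥ m.1) + m.2 ⬝ᵥ l.1

theorem Hf_add (l m n : Lab k) : Hf (l + m) n = Hf l n + Hf m n := by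
  simp only [Hf, Prod.snd_add, Prod.fst_add, add_dotProduct, dotProduct_add, F4.cj_add]
  ring

theorem Hf_add' (l m n : Lab k) : Hf l (m + n) = Hf l m + Hf l n := by
  simp only [Hf, Prod.snd_add, Prod.fst_add, add_dotProduct, dotProduct_add, F4.cj_add]
  ring

theorem Hf_st (t : F4) (l m : Lab k) : Hf (st t l) m = t * Hf l m := by
  simp only [Hf, st, smul_dotProduct, dotProduct_smul, smul_eq_mul, F4.cj_mul, F4.cj_cj]
  ring

theorem Hf_st' (t : F4) (l m : Lab k) : Hf l (st t m) = F4.cj t * Hf l m := by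
  simp only [Hf, st, smul_dotProduct, dotProduct_smul, smul_eq_mul, F4.cj_mul]
  ring

theorem Hf_comm (l m : Lab k) : Hf m l = F4.cj (Hf l m) := by
  simp only [Hf, F4.cj_add, F4.cj_cj]
  ring

theorem tr_Hf (l m : Lab k) : F4.tr (Hf l m) = Bf l m := by
  rw [Hf, F4.tr_add, F4.tr_cj, Bf]

theorem Hf_self (l : Lab k) : Hf l l = 0 ↔ Qf l = 0 := by
  have h : ∀ x : F4, F4.cj x + x = 0 ↔ F4.tr x = 0 := by decide
  exact h _

theorem her_iff (W : Finset (Lab k)) : Her W ↔ ∀ l ∈ W, ∀ m ∈ W, Hf l m = 0 := by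
  have h : ∀ x y : F4, F4.cj x = y ↔ F4.cj x + y = 0 := by decide
  constructor
  · intro hW l hl m hm
    exact (h _ _).1 (hW l hl m hm)
  · intro hW l hl m hm
    exact (h _ _).2 (hW l hl m hm)

theorem st_zero (l : Lab k) : st 0 l = 0 := by simp [st, F4.cj_zero]
theorem st_one (l : Lab k) : st 1 l = l := by simp [st, F4.cj_one]
theorem st_add (s t : F4) (l : Lab k) : st (s + t) l = st s l + st t l := by
  simp [st, F4.cj_add, add_smul]
theorem st_st (s t : F4) (l : Lab k) : st s (st t l) = st (s * t) l := by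
  simp [st, F4.cj_mul, mul_smul]

/-- A totally isotropic subspace with `4 ^ j` elements. -/
structure Iso (j : ℕ) (X : Finset (Lab k)) : Prop where
  zero : 0 ∈ X
  add : ∀ x ∈ X, ∀ y ∈ X, x + y ∈ X
  smul : ∀ (t : F4), ∀ x ∈ X, st t x ∈ X
  iso : ∀ x ∈ X, ∀ y ∈ X, Hf x y = 0
  card : X.card = 4 ^ j

theorem mem_Lgs {W : Finset (Lab k)} : W ∈ Lgs k ↔ Mx W ∧ Her W := by
  classical
  rw [Lgs, mem_filter]
  exact ⟨fun h => h.2, fun h => ⟨mem_univ _, h⟩⟩

theorem Iso.of_Lgs {W : Finset (Lab k)} (h : W ∈ Lgs k) : Iso k W := by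
  rw [mem_Lgs] at h
  obtain ⟨h1, h2⟩ := h
  have h3 := (her_iff W).1 h2
  refine ⟨h1.zero, fun x hx y hy => h1.add_mem hx hy, ?_, h3, h1.card⟩
  intro t x hx
  rw [h1.mem_iff]
  intro w hw
  rw [← tr_Hf, Hf_st, h3 x hx w hw, mul_zero, F4.tr_zero]

theorem Iso.to_Lgs {W : Finset (Lab k)} (h : Iso k W) : W ∈ Lgs k := by
  rw [mem_Lgs]
  refine ⟨⟨?_, h.card, h.zero⟩, (her_iff W).2 h.iso⟩
  intro l hl m hm
  rw [Lk_eq, ← Hf_self]
  exact h.iso _ (h.add l hl m hm) _ (h.add l hl m hm)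

/-- The orthogonal complement. -/
def perp (X : Finset (Lab k)) : Finset (Lab k) :=
  univ.filter fun l => ∀ x ∈ X, Bf l x = 0

theorem mem_perp {X : Finset (Lab k)} {l : Lab k} : l ∈ perp X ↔ ∀ x ∈ X, Bf l x = 0 := by
  rw [perp, mem_filter]
  exact ⟨fun h => h.2, fun h => ⟨mem_univ _, h⟩⟩

theorem Iso.perp_iff {j : ℕ} {X : Finset (Lab k)} (h : Iso j X) {l : Lab k} :
    l ∈ perp X ↔ ∀ x ∈ X, Hf l x = 0 := by
  rw [mem_perp]
  constructor
  · intro hl x hx
    by_contra hne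
    obtain ⟨t, ht⟩ := F4.exists_tr _ hne
    have h1 := hl _ (h.smul (F4.cj t) x hx)
    rw [← tr_Hf, Hf_st', F4.cj_cj, mul_comm, ht] at h1
    exact one_ne_zero h1
  · intro hl x hx
    rw [← tr_Hf, hl x hx, F4.tr_zero]

theorem Iso.sum_char {j : ℕ} {X : Finset (Lab k)} (h : Iso j X) (l : Lab k) :
    ∑ x ∈ X, sg (Bf l x) = if l ∈ perp X then (4 ^ j : ℝ) else 0 := by
  split_ifs with hl
  · rw [sum_Bf_mem (mem_perp.1 hl), h.card]
    push_cast
    rfl
  · rw [mem_perp] at hl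
    push Not at hl
    obtain ⟨t, ht, hlt⟩ := hl
    have hlt1 : Bf l t = 1 := (zmod_two _).resolve_left hlt
    have h1 : ∑ x ∈ X, sg (Bf l x) = ∑ x ∈ X, sg (Bf l (x + t)) := by
      refine sum_nbij' (fun x => x + t) (fun x => x + t) ?_ ?_ ?_ ?_ ?_
      · intro x hx; exact h.add x hx t ht
      · intro x hx; exact h.add x hx t ht
      · intro x _; exact ladd_ladd x t
      · intro x _; exact ladd_ladd x t
      · intro x _
        rw [ladd_ladd]
    have h2 : ∑ x ∈ X, sg (Bf l (x + t)) = -∑ x ∈ X, sg (Bf l x) := by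
      rw [← sum_neg_distrib]
      refine sum_congr rfl fun x _ => ?_
      rw [Bf_add, hlt1, sg_add, sg_one]
      ring
    linarith

theorem sum_Qf (k : ℕ) : ∑ l : Lab k, sg (Qf l) = 4 ^ k := by
  rw [Fintype.sum_prod_type]
  have h1 : ∀ x : Fin k → F4, ∑ y : Fin k → F4, sg (Qf ((x, y) : Lab k)) =
      if x = 0 then (4 ^ k : ℝ) else 0 := fun x => sum_dot x
  simp only [h1, sum_ite_eq', mem_univ, if_true]

theorem Iso.card_perp {j : ℕ} {X : Finset (Lab k)} (h : Iso j X) :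
    (4 ^ j : ℝ) * (perp X).card = 16 ^ k := by
  have h1 : ∑ l, ∑ x ∈ X, sg (Bf l x) = (16 ^ k : ℝ) := by
    rw [sum_comm]
    simp only [sum_Bf]
    rw [sum_ite_eq', if_pos h.zero]
  simp only [h.sum_char] at h1
  rw [← sum_filter, sum_const, nsmul_eq_mul] at h1
  have h2 : univ.filter (fun l => l ∈ perp X) = perp X := by ext l; simp
  rw [h2] at h1
  linarith

theorem Iso.sum_perp {j : ℕ} {X : Finset (Lab k)} (h : Iso j X) :
    ∑ l ∈ perp X, sg (Qf l) = 4 ^ k := by
  have h1 : ∑ l, ∑ x ∈ X, sg (Qf l) * sg (Bf l x) = (4 ^ j : ℝ) * 4 ^ k := by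
    rw [sum_comm]
    have h2 : ∀ x ∈ X, ∑ l, sg (Qf l) * sg (Bf l x) = (4 ^ k : ℝ) := by
      intro x hx
      have hQ : Qf x = 0 := (Hf_self x).1 (h.iso x hx x hx)
      rw [← sum_Qf, ← Equiv.sum_comp (Equiv.addRight x) fun l => sg (Qf l)]
      refine sum_congr rfl fun l _ => ?_
      rw [← sg_add]
      congr 1
      show Qf l + Bf l x = Qf (l + x)
      rw [Qf_add, hQ, add_zero]
    rw [sum_congr rfl h2, sum_const, nsmul_eq_mul, h.card]
    push_cast
    rfl
  have h3 : ∑ l, ∑ x ∈ X, sg (Qf l) * sg (Bf l x) = 4 ^ j * ∑ l ∈ perp X, sg (Qf l) := by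
    simp only [← mul_sum, h.sum_char]
    have e : ∑ l ∈ perp X, (4 : ℝ) ^ j * sg (Qf l) =
        ∑ l, if l ∈ perp X then (4 : ℝ) ^ j * sg (Qf l) else 0 := by
      rw [← sum_filter]
      congr 1
      ext l
      simp
    rw [mul_sum, e]
    refine sum_congr rfl fun l _ => ?_
    split_ifs <;> ring
  have h4 : (0 : ℝ) < 4 ^ j := by positivity
  exact mul_left_cancel₀ h4.ne' (h3.symm.trans h1)

/-- The isotropic vectors orthogonal to `X` and outside `X`. -/
def nw (X : Finset (Lab k)) : Finset (Lab k) := (perp X).filter fun l => Qf l = 0 ∧ l ∉ X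

theorem Iso.card_nw {j : ℕ} {X : Finset (Lab k)} (h : Iso j X) :
    (2 : ℝ) * 4 ^ j * ((nw X).card + 4 ^ j) = 16 ^ k + 4 ^ j * 4 ^ k := by
  have h1 : ((perp X).filter fun l => Qf l = 0).card = (nw X).card + 4 ^ j := by
    have hX : X ⊆ (perp X).filter fun l => Qf l = 0 := by
      intro x hx
      rw [mem_filter, h.perp_iff]
      exact ⟨fun y hy => h.iso x hx y hy, (Hf_self x).1 (h.iso x hx x hx)⟩
    have e : nw X = ((perp X).filter fun l => Qf l = 0) \ X := by
      ext l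
      rw [nw, mem_filter, mem_sdiff, mem_filter]
      tauto
    rw [e, card_sdiff_of_subset hX, h.card]
    have := card_le_card hX
    rw [h.card] at this
    omega
  have h2 : ∑ l ∈ perp X, sg (Qf l) = 2 * ((perp X).filter fun l => Qf l = 0).card -
      (perp X).card := by
    have h3 : ∀ l ∈ perp X, sg (Qf l) = 2 * (if Qf l = 0 then (1 : ℝ) else 0) - 1 := by
      intro l _
      rcases zmod_two (Qf l) with h0 | h0
      · rw [h0, sg_zero]; norm_num
      · rw [h0, sg_one]; norm_num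
    rw [sum_congr rfl h3, sum_sub_distrib, ← mul_sum, ← sum_filter, sum_const, sum_const,
      nsmul_eq_mul, nsmul_eq_mul, mul_one, mul_one]
  rw [h.sum_perp, h1] at h2
  push_cast at h2
  have h3 := h.card_perp
  have h4 : (2 : ℝ) * (((nw X).card : ℝ) + 4 ^ j) = 4 ^ k + (perp X).card := by linarith
  calc (2 : ℝ) * 4 ^ j * ((nw X).card + 4 ^ j) = 4 ^ j * (2 * (((nw X).card : ℝ) + 4 ^ j)) := by
        ring
    _ = 4 ^ j * (4 ^ k + (perp X).card) := by rw [h4]
    _ = _ := by rw [mul_add, h3]; ring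

/-- The span of `X` and `l`. -/
def sp (X : Finset (Lab k)) (l : Lab k) : Finset (Lab k) :=
  (X ×ˢ (univ : Finset F4)).image fun p => p.1 + st p.2 l

theorem mem_sp {X : Finset (Lab k)} {l m : Lab k} :
    m ∈ sp X l ↔ ∃ x ∈ X, ∃ t : F4, x + st t l = m := by
  rw [sp, mem_image]
  constructor
  · rintro ⟨p, hp, rfl⟩
    exact ⟨p.1, (mem_product.1 hp).1, p.2, rfl⟩
  · rintro ⟨x, hx, t, rfl⟩
    exact ⟨(x, t), mem_product.2 ⟨hx, mem_univ _⟩, rfl⟩

theorem Iso.span {j : ℕ} {X : Finset (Lab k)} (h : Iso j X) {l : Lab k} (hl : l ∈ nw X) :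
    Iso (j + 1) (sp X l) := by
  rw [nw, mem_filter, h.perp_iff] at hl
  obtain ⟨hl1, hl2, hl3⟩ := hl
  have hll : Hf l l = 0 := (Hf_self l).2 hl2
  refine ⟨?_, ?_, ?_, ?_, ?_⟩
  · exact mem_sp.2 ⟨0, h.zero, 0, by rw [st_zero, add_zero]⟩
  · intro x hx y hy
    obtain ⟨a, ha, s, rfl⟩ := mem_sp.1 hx
    obtain ⟨b, hb, t, rfl⟩ := mem_sp.1 hy
    exact mem_sp.2 ⟨a + b, h.add a ha b hb, s + t, by rw [st_add, add_add_add_comm]⟩
  · intro r x hx
    obtain ⟨a, ha, s, rfl⟩ := mem_sp.1 hx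
    refine mem_sp.2 ⟨st r a, h.smul r a ha, r * s, ?_⟩
    rw [← st_st]
    simp [st]
  · intro x hx y hy
    obtain ⟨a, ha, s, rfl⟩ := mem_sp.1 hx
    obtain ⟨b, hb, t, rfl⟩ := mem_sp.1 hy
    have h1 : Hf a l = 0 := by rw [Hf_comm, hl1 a ha, F4.cj_zero]
    rw [Hf_add, Hf_add', Hf_add', Hf_st, Hf_st, Hf_st', Hf_st', h.iso a ha b hb, h1, hl1 b hb, hll]
    ring
  · rw [sp, card_image_of_injOn, card_product, h.card, card_univ, F4.card_F4, pow_succ]
    rintro ⟨a, s⟩ hp ⟨b, t⟩ hq hpq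
    simp only [coe_product, Set.mem_prod, mem_coe] at hp hq
    simp only at hpq
    have h2 : st (s + t) l = a + b := by
      rw [st_add]
      have := congrArg (fun z => z + st t l + a) hpq
      rw [ladd_ladd] at this
      rw [add_comm b a] at this
      rw [← this]
      have e : a + st s l + st t l + a = (a + a) + (st s l + st t l) := by abel
      rw [e, ladd_self, zero_add]
    have hst : s + t = 0 := by
      by_contra hne
      apply hl3
      have h3 := h.smul (s + t)⁻¹ _ (h.add a hp.1 b hq.1)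
      rw [← h2, st_st, inv_mul_cancel₀ hne, st_one] at h3
      exact h3
    have hs : s = t := by
      have hd : ∀ s t : F4, s + t = 0 → s = t := by decide
      exact hd _ _ hst
    rw [hst, st_zero] at h2
    have hab : a = b := by
      have := congrArg (fun z => z + b) h2
      simp only [zero_add] at this
      rw [ladd_ladd] at this
      exact this.symm
    rw [hs, hab]

open Classical in
/-- The number of Lagrangians containing `X`. -/
noncomputable def NX (X : Finset (Lab k)) : ℕ := ((Lgs k).filter fun W => X ⊆ W).card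

theorem Nk_succ (k : ℕ) : Nk (k + 1) = Nk k * (1 + 2 ^ (2 * k + 1)) := by
  rw [Nk, prod_range_succ, Nk]

theorem NX_eq (d : ℕ) : ∀ j : ℕ, j + d = k → ∀ X : Finset (Lab k), Iso j X → NX X = Nk d := by
  classical
  induction d with
  | zero =>
    intro j hj X hX
    rw [add_zero] at hj
    subst hj
    have : (Lgs j).filter (fun W => X ⊆ W) = {X} := by
      ext W
      rw [mem_filter, mem_singleton]
      constructor
      · rintro ⟨hW, hXW⟩
        refine (eq_of_subset_of_card_le hXW ?_).symm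
        rw [hX.card, (Iso.of_Lgs hW).card]
      · rintro rfl
        exact ⟨hX.to_Lgs, Subset.refl _⟩
    rw [NX, this, card_singleton]
    simp [Nk]
  | succ d ih =>
    intro j hj X hX
    have h1 : ∑ W ∈ (Lgs k).filter (fun W => X ⊆ W), ∑ l ∈ W \ X, 1 =
        ∑ l ∈ nw X, ∑ W ∈ (Lgs k).filter (fun W => sp X l ⊆ W), 1 := by
      refine sum_comm' ?_
      intro W l
      rw [mem_filter, mem_filter, mem_sdiff]
      constructor
      · rintro ⟨⟨hW, hXW⟩, hlW, hlX⟩
        have hI := Iso.of_Lgs hW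
        refine ⟨⟨hW, ?_⟩, ?_⟩
        · intro m hm
          obtain ⟨x, hx, t, rfl⟩ := mem_sp.1 hm
          exact hI.add _ (hXW hx) _ (hI.smul t l hlW)
        · rw [nw, mem_filter, hX.perp_iff]
          exact ⟨fun x hx => hI.iso l hlW x (hXW hx), (Hf_self l).1 (hI.iso l hlW l hlW), hlX⟩
      · rintro ⟨⟨hW, hsW⟩, hl⟩
        refine ⟨⟨hW, ?_⟩, ?_, ?_⟩
        · intro x hx
          exact hsW (mem_sp.2 ⟨x, hx, 0, by rw [st_zero, add_zero]⟩)
        · exact hsW (mem_sp.2 ⟨0, hX.zero, 1, by rw [st_one, zero_add]⟩)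
        · rw [nw, mem_filter] at hl
          exact hl.2.2
    have h2 : ∀ W ∈ (Lgs k).filter (fun W => X ⊆ W), ∑ l ∈ W \ X, 1 = 4 ^ k - 4 ^ j := by
      intro W hW
      rw [mem_filter] at hW
      rw [sum_const, smul_eq_mul, mul_one, card_sdiff_of_subset hW.2, hX.card,
        (Iso.of_Lgs hW.1).card]
    have h3 : ∀ l ∈ nw X, ∑ W ∈ (Lgs k).filter (fun W => sp X l ⊆ W), 1 = Nk d := by
      intro l hl
      rw [sum_const, smul_eq_mul, mul_one]
      exact ih (j + 1) (by omega) (sp X l) (hX.span hl)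
    rw [sum_congr rfl h2, sum_congr rfl h3, sum_const, sum_const, smul_eq_mul, smul_eq_mul] at h1
    have h4 := hX.card_nw
    have h5 : NX X * (4 ^ k - 4 ^ j) = (nw X).card * Nk d := h1
    have hk : (4 : ℕ) ^ k = 4 ^ j * 4 ^ (d + 1) := by rw [← pow_add, hj]
    have hle : (4 : ℕ) ^ j ≤ 4 ^ k := Nat.pow_le_pow_right (by norm_num) (by omega)
    have h6 : (NX X : ℝ) * (4 ^ k - 4 ^ j) = (nw X).card * Nk d := by
      have := congrArg (fun n : ℕ => (n : ℝ)) h5
      push_cast [Nat.cast_sub hle] at this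
      exact this
    have h16 : (16 : ℝ) ^ k = 4 ^ k * 4 ^ k := by rw [← mul_pow]; norm_num
    have hkr : (4 : ℝ) ^ k = 4 ^ j * 4 ^ (d + 1) := by rw [← pow_add, hj]
    have hb : (0 : ℝ) < 4 ^ j := by positivity
    have ha : (1 : ℝ) < 4 ^ (d + 1) := one_lt_pow₀ (by norm_num) (by omega)
    have h2d : (4 : ℝ) ^ (d + 1) = 2 * 2 ^ (2 * d + 1) := by
      rw [show (4 : ℝ) = 2 ^ 2 by norm_num, ← pow_mul, ← pow_succ']
      congr 1
    rw [h16, hkr] at h4
    rw [hkr] at h6
    set a : ℝ := 4 ^ (d + 1) with hadef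
    set b : ℝ := 4 ^ j with hbdef
    have h7 : (2 : ℝ) * (nw X).card = b * ((a - 1) * (a + 2)) := by
      have : b * (2 * (nw X).card) = b * (b * ((a - 1) * (a + 2))) := by linear_combination h4
      exact mul_left_cancel₀ hb.ne' this
    have h8 : b * (a - 1) * (2 * (NX X : ℝ)) = b * (a - 1) * ((a + 2) * Nk d) := by
      linear_combination 2 * h6 + Nk d * h7
    have h9 : (2 : ℝ) * NX X = (a + 2) * Nk d := by
      have hne : b * (a - 1) ≠ 0 := by
        have : 0 < b * (a - 1) := mul_pos hb (by linarith)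
        exact this.ne'
      exact mul_left_cancel₀ hne h8
    rw [h2d] at h9
    have h10 : (NX X : ℝ) = (Nk (d + 1) : ℕ) := by
      rw [Nk_succ]
      push_cast
      linarith
    exact_mod_cast h10

/-- The number of Lagrangians. -/
theorem card_Lgs (k : ℕ) : (Lgs k).card = Nk k := by
  classical
  have h0 : Iso 0 ({0} : Finset (Lab k)) := by
    refine ⟨mem_singleton_self _, ?_, ?_, ?_, by simp⟩
    · intro x hx y hy
      rw [mem_singleton] at hx hy ⊢
      rw [hx, hy, add_zero]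
    · intro t x hx
      rw [mem_singleton] at hx ⊢
      rw [hx]
      simp [st]
    · intro x hx y hy
      rw [mem_singleton] at hx hy
      rw [hx, hy]
      simp [Hf, F4.cj_zero]
  rw [← NX_eq k 0 (by omega) {0} h0, NX]
  congr 1
  ext W
  rw [mem_filter, singleton_subset_iff]
  constructor
  · intro h
    exact ⟨h, (Iso.of_Lgs h).zero⟩
  · intro h
    exact h.1

/-- (K3) -/
theorem K3 (o : Lab k → ℕ) (ho : Function.Injective o) (c : F4) :
    ∑ U ∈ Us k, cU o c U = if c = 0 then (Nk k : ℝ) else 0 := by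
  rw [K3_Lgs o ho c, card_Lgs]

end Pool.Agent.Lib.MP_1a91b9_ntH.Da
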