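import Pool.Agent.Lib.MP_1a91b9_ntH.D.Defs

/-!
# MP_1a91b9_nt (TwistDensity), part D: the labels of the `k`-th moment

`Lab k = F4^k × F4^k`. Statements (K1), (K2), (K3) for every `k`.
-/

set_option autoImplicit false

namespace Pool.Agent.Lib.MP_1a91b9_ntH.Da

open Finset

noncomputable section

/-- The labels `(v, w)` of the `k`-th moment. -/
abbrev Lab (k : ℕ) : Type := (Fin k → F4) × (Fin k → F4)

variable {k : ℕ}

/-- The exponent of the symbol `(d_l / d_m)`. -/
def Phi (l m : Lab k) : ZMod 2 := F4.tr (l.2 ⬝ᵥ (l.1 + m.1))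

/-- Two labels are linked if this is `1`. -/
def Lk (l m : Lab k) : ZMod 2 := Phi l m + Phi m l

/-- Unlinked sets of labels. -/
def Unl (U : Finset (Lab k)) : Prop := ∀ l ∈ U, ∀ m ∈ U, Lk l m = 0

/-- The linear term: `γ_l = conj (v_l · w_l) + c`. -/
def gam (c : F4) (l : Lab k) : F4 := F4.cj (l.1 ⬝ᵥ l.2) + c

/-- The exponent `θ_U(A)`; `o` is any injective function used to order the pairs. -/
def theta (o : Lab k → ℕ) (c : F4) (U : Finset (Lab k)) (A : Lab k → F4) : ZMod 2 :=
  ∑ l ∈ U, F4.tr (gam c l * A l) +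
    ∑ l ∈ U, ∑ m ∈ U, if o l < o m then Phi m l * F4.tr (A l * A m) else 0

/-- The average of `(-1)^θ` over all class vectors. -/
def cU (o : Lab k → ℕ) (c : F4) (U : Finset (Lab k)) : ℝ :=
  (∑ A : Lab k → F4, sg (theta o c U A)) / Fintype.card (Lab k → F4)

open Classical in
/-- The unlinked sets of maximal size. -/
def Us (k : ℕ) : Finset (Finset (Lab k)) := univ.filter fun U => Unl U ∧ U.card = 4 ^ k

/-- The limit of the `k`-th moment. -/
def Nk (k : ℕ) : ℕ := ∏ i ∈ range k, (1 + 2 ^ (2 * i + 1))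

end

end Pool.Agent.Lib.MP_1a91b9_ntH.Da
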