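import Pool.Agent.Lib.MP_1a91b9_ntH.D.UB
import Pool.Agent.Lib.MP_1a91b9_ntH.D.Exp

/-!
# Part D: fix all variables but two and apply the bilinear bound

`C = |C0| * H ^ (card L) + 1`, `H` from `harm`.  Group the families `d` by
`b = base l0 l1 d` (`b l0 = b l1 = ∅`), put `S = d l0`, `T = d l1`.  `b` runs over families with `b l ∈ Sx ι X`; only `b` with `PD b` and
`nmf b ≤ X` occur.  For such `b` the families `d` with `base d = b` in the set are: `S, T` disjoint from `uni b` and from each other,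
`nm S * nm T * nmf b ≤ X`, i.e. `nm S * nm T ≤ X' := X / nmf b`, `V < nm S`, `V < nm T`.  By `hα`, `hβ` the disjointness from `uni b`
may be dropped (the summand is `0` otherwise), so the inner sum is the sum in `BL` for `X'`, `A = α b`, `B = β b`
(if `PD b` fails `α b = 0`).  If `X' < 2` it is empty (`V ≥ 1`).  `(1 + log X')^K ≤ (1 + log X)^K`, `X' ≤ X / nmf b`, and
`∑_b 1 / nmf b ≤ ∏_l ∑_{S ∈ Sx X} 1 / nm S ≤ (H (1 + log X)) ^ card L` (`Finset.prod_univ_sum`).
-/

set_option autoImplicit false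

namespace Pool.Agent.Lib.MP_1a91b9_ntH

open Finset

noncomputable section

variable {ι : Type} [DecidableEq ι] [PS ι] {L : Type} [Fintype L] [DecidableEq L]

/-- The family with the variables `l0`, `l1` replaced by `∅`. -/
def base (l0 l1 : L) (d : L → Finset ι) : L → Finset ι :=
  Function.update (Function.update d l0 ∅) l1 ∅

/-- insertion of two values -/
private def plIns (l0 l1 : L) (b : L → Finset ι) (p : Finset ι × Finset ι) : L → Finset ι :=
  Function.update (Function.update b l0 p.1) l1 p.2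

omit [DecidableEq ι] [PS ι] [Fintype L] in
private theorem pl_ins_at0 {l0 l1 : L} (h : l0 ≠ l1) (b : L → Finset ι) (p : Finset ι × Finset ι) :
    plIns l0 l1 b p l0 = p.1 := by
  unfold plIns
  rw [Function.update_of_ne h, Function.update_self]

omit [DecidableEq ι] [PS ι] [Fintype L] in
private theorem pl_ins_at1 {l0 l1 : L} (b : L → Finset ι) (p : Finset ι × Finset ι) :
    plIns l0 l1 b p l1 = p.2 := by
  unfold plIns
  rw [Function.update_self]

omit [DecidableEq ι] [PS ι] [Fintype L] in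
private theorem pl_ins_ne {l0 l1 l : L} (h0 : l ≠ l0) (h1 : l ≠ l1) (b : L → Finset ι)
    (p : Finset ι × Finset ι) : plIns l0 l1 b p l = b l := by
  unfold plIns
  rw [Function.update_of_ne h1, Function.update_of_ne h0]

omit [DecidableEq ι] [PS ι] [Fintype L] in
private theorem pl_base_ins {l0 l1 : L} {b : L → Finset ι} (hb0 : b l0 = ∅)
    (hb1 : b l1 = ∅) (p : Finset ι × Finset ι) : base l0 l1 (plIns l0 l1 b p) = b := by
  funext l
  unfold base
  by_cases e1 : l = l1
  · subst e1
    rw [Function.update_self, hb1]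
  · rw [Function.update_of_ne e1]
    by_cases e0 : l = l0
    · subst e0
      rw [Function.update_self, hb0]
    · rw [Function.update_of_ne e0, pl_ins_ne e0 e1]

omit [DecidableEq ι] [PS ι] [Fintype L] in
private theorem pl_ins_base {l0 l1 : L} (h : l0 ≠ l1) (d : L → Finset ι) :
    plIns l0 l1 (base l0 l1 d) (d l0, d l1) = d := by
  funext l
  by_cases e1 : l = l1
  · subst e1
    rw [pl_ins_at1]
  · by_cases e0 : l = l0
    · subst e0
      rw [pl_ins_at0 h]
    · rw [pl_ins_ne e0 e1]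
      unfold base
      rw [Function.update_of_ne e1, Function.update_of_ne e0]

omit [DecidableEq ι] [PS ι] [Fintype L] in
private theorem pl_base_sub (l0 l1 : L) (d : L → Finset ι) (l : L) : base l0 l1 d l ⊆ d l := by
  unfold base
  by_cases e1 : l = l1
  · subst e1
    rw [Function.update_self]
    exact empty_subset _
  · rw [Function.update_of_ne e1]
    by_cases e0 : l = l0
    · subst e0
      rw [Function.update_self]
      exact empty_subset _
    · rw [Function.update_of_ne e0]

omit [DecidableEq ι] [PS ι] [Fintype L] in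
private theorem pl_base_at0 {l0 l1 : L} (h : l0 ≠ l1) (d : L → Finset ι) : base l0 l1 d l0 = ∅ := by
  unfold base
  rw [Function.update_of_ne h, Function.update_self]

omit [DecidableEq ι] [PS ι] [Fintype L] in
private theorem pl_base_at1 (l0 l1 : L) (d : L → Finset ι) : base l0 l1 d l1 = ∅ := by
  unfold base
  rw [Function.update_self]

omit [DecidableEq ι] [PS ι] [Fintype L] in
private theorem pl_base_ne {l0 l1 l : L} (h0 : l ≠ l0) (h1 : l ≠ l1) (d : L → Finset ι) :
    base l0 l1 d l = d l := by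
  unfold base
  rw [Function.update_of_ne h1, Function.update_of_ne h0]

private theorem pl_prod_ins {l0 l1 : L} (h : l0 ≠ l1) {b : L → Finset ι} (hb0 : b l0 = ∅)
    (hb1 : b l1 = ∅) (p : Finset ι × Finset ι) :
    nmf (plIns l0 l1 b p) = nm p.1 * nm p.2 * nmf b := by
  have h1 : l1 ∈ univ.erase l0 := Finset.mem_erase.2 ⟨h.symm, Finset.mem_univ _⟩
  unfold nmf
  rw [← Finset.mul_prod_erase univ (fun l => nm (plIns l0 l1 b p l)) (Finset.mem_univ l0),
    ← Finset.mul_prod_erase _ (fun l => nm (plIns l0 l1 b p l)) h1,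
    ← Finset.mul_prod_erase univ (fun l => nm (b l)) (Finset.mem_univ l0),
    ← Finset.mul_prod_erase _ (fun l => nm (b l)) h1,
    pl_ins_at0 h, pl_ins_at1, hb0, hb1]
  have e : ∏ x ∈ (univ.erase l0).erase l1, nm (plIns l0 l1 b p x)
      = ∏ x ∈ (univ.erase l0).erase l1, nm (b x) := by
    refine Finset.prod_congr rfl fun x hx => ?_
    rw [Finset.mem_erase, Finset.mem_erase] at hx
    rw [pl_ins_ne hx.2.1 hx.1 b p]
  rw [e, nm_empty]
  ring

omit [PS ι] in
private theorem pl_PD_ins {l0 l1 : L} (h : l0 ≠ l1) {b : L → Finset ι} (hb : PD b)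
    {p : Finset ι × Finset ι} (h0 : Disjoint p.1 (uni b)) (h1 : Disjoint p.2 (uni b))
    (h01 : Disjoint p.1 p.2) : PD (plIns l0 l1 b p) := by
  have k0 : ∀ l, Disjoint p.1 (b l) := fun l => h0.mono_right (sub_uni b l)
  have k1 : ∀ l, Disjoint p.2 (b l) := fun l => h1.mono_right (sub_uni b l)
  intro l m hlm
  by_cases a1 : l = l1
  · by_cases c0 : m = l0
    · rw [a1, c0, pl_ins_at1, pl_ins_at0 h]
      exact h01.symm
    · have c1 : m ≠ l1 := fun hc => hlm (a1.trans hc.symm)
      rw [a1, pl_ins_at1, pl_ins_ne c0 c1]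
      exact k1 m
  · by_cases a0 : l = l0
    · by_cases c1 : m = l1
      · rw [a0, c1, pl_ins_at1, pl_ins_at0 h]
        exact h01
      · have c0 : m ≠ l0 := fun hc => hlm (a0.trans hc.symm)
        rw [a0, pl_ins_at0 h, pl_ins_ne c0 c1]
        exact k0 m
    · rw [pl_ins_ne a0 a1]
      by_cases c1 : m = l1
      · rw [c1, pl_ins_at1]
        exact (k1 l).symm
      · by_cases c0 : m = l0
        · rw [c0, pl_ins_at0 h]
          exact (k0 l).symm
        · rw [pl_ins_ne c0 c1]
          exact hb l m hlm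

open Classical in
theorem pl (D : Dat ι) {C0 c0 H : ℝ} {K0 : ℕ} (hBL : D.BL C0 K0 c0) (hH1 : 1 ≤ H)
    (hH : ∀ x : ℕ, 1 ≤ x → ∑ S ∈ Sx ι x, (1 : ℝ) / nm S ≤ H * (1 + Real.log x)) :
    ∃ C : ℝ, 0 < C ∧ ∀ (l0 l1 : L) (F : (L → Finset ι) → ℝ)
      (α β : (L → Finset ι) → Finset ι → ℝ) (V X : ℕ), l0 ≠ l1 → 1 ≤ V → 2 ≤ X →
      (∀ b S, |α b S| ≤ 1) → (∀ b S, |β b S| ≤ 1) →
      (∀ b S, α b S ≠ 0 → PD b ∧ Disjoint S (uni b)) →
      (∀ b S, β b S ≠ 0 → Disjoint S (uni b)) →
      (∀ d, PD d → F d = α (base l0 l1 d) (d l0) * β (base l0 l1 d) (d l1) *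
        sg (D.ss (d l0) (d l1))) →
      |∑ d ∈ (Box ι L X).filter (fun d => V < nm (d l0) ∧ V < nm (d l1)), F d| ≤
        C * X * (1 + Real.log X) ^ (K0 + Fintype.card L) * (V : ℝ) ^ (-c0) := by
  have hHC : (0 : ℝ) < |C0| * H ^ Fintype.card L + 1 := by positivity
  refine ⟨|C0| * H ^ Fintype.card L + 1, hHC, ?_⟩
  intro l0 l1 F α β V X hne hV hX hα hβ hαs hβs hF
  set S : Finset (L → Finset ι) := (Box ι L X).filter
    (fun d => V < nm (d l0) ∧ V < nm (d l1)) with hS
  set T : Finset (L → Finset ι) := (Fintype.piFinset fun _ : L => Sx ι X).filter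
    (fun b => b l0 = ∅ ∧ b l1 = ∅) with hT
  have hlogX : 0 ≤ Real.log X := Real.log_nonneg (by exact_mod_cast (by omega : 1 ≤ X))
  have hV1 : (1 : ℝ) ≤ V := by exact_mod_cast hV
  have hVp : (0 : ℝ) < (V : ℝ) ^ (-c0) := Real.rpow_pos_of_pos (by linarith) _
  have hmaps : ∀ d ∈ S, base l0 l1 d ∈ T := by
    intro d hd
    rw [hS, Finset.mem_filter, mem_Box] at hd
    rw [hT, Finset.mem_filter, Fintype.mem_piFinset]
    refine ⟨fun l => ?_, pl_base_at0 hne d, pl_base_at1 l0 l1 d⟩
    by_cases e1 : l = l1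
    · rw [e1, pl_base_at1, mem_Sx, nm_empty]
      omega
    · by_cases e0 : l = l0
      · rw [e0, pl_base_at0 hne, mem_Sx, nm_empty]
        omega
      · rw [pl_base_ne e0 e1, mem_Sx]
        exact (nm_le_nmf d l).trans hd.1.2
  have hinner : ∀ b ∈ T, |∑ d ∈ S with base l0 l1 d = b, F d| ≤
      |C0| * X * (1 + Real.log X) ^ K0 * (V : ℝ) ^ (-c0) * ∏ l, ((nm (b l) : ℝ))⁻¹ := by
    intro b hb
    rw [hT, Finset.mem_filter, Fintype.mem_piFinset] at hb
    obtain ⟨hbI, hb0, hb1⟩ := hb
    by_cases hPD : PD b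
    swap
    · have hz : ∑ d ∈ S with base l0 l1 d = b, F d = 0 := by
        refine Finset.sum_eq_zero fun d hd => ?_
        rw [Finset.mem_filter, hS, Finset.mem_filter, mem_Box] at hd
        refine absurd ?_ hPD
        rw [← hd.2]
        exact fun l m hlm => (hd.1.1.1 l m hlm).mono (pl_base_sub l0 l1 d l) (pl_base_sub l0 l1 d m)
      rw [hz, abs_zero]
      positivity
    set P : ℕ := nmf b with hP
    have hPpos : 0 < P := one_le_nmf b
    have hPR : (0 : ℝ) < P := by exact_mod_cast hPpos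
    have hPinv : ∏ l, ((nm (b l) : ℝ))⁻¹ = (P : ℝ)⁻¹ := by
      rw [Finset.prod_inv_distrib, hP]
      unfold nmf
      push_cast
      rfl
    set X' : ℕ := X / P with hX'
    have hX'X : X' ≤ X := Nat.div_le_self _ _
    have hdouble : ∑ d ∈ S with base l0 l1 d = b, F d =
        ∑ m ∈ Sx ι X', ∑ n ∈ Sx ι X',
          if nm m * nm n ≤ X' ∧ (V : ℝ) < nm m ∧ (V : ℝ) < nm n ∧ Disjoint m n then
            α b m * β b n * sg (D.ss m n) else 0 := by
      have hr : ∀ m ∈ Sx ι X', ∀ n ∈ Sx ι X',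
          (if nm m * nm n ≤ X' ∧ (V : ℝ) < nm m ∧ (V : ℝ) < nm n ∧ Disjoint m n then
            α b m * β b n * sg (D.ss m n) else 0) =
          if nm m * nm n ≤ X' ∧ (V < nm m ∧ V < nm n) ∧ Disjoint m n ∧ Disjoint m (uni b) ∧
            Disjoint n (uni b) then α b m * β b n * sg (D.ss m n) else 0 := by
        intro m _ n _
        by_cases h1 : nm m * nm n ≤ X' ∧ (V < nm m ∧ V < nm n) ∧ Disjoint m n ∧
            Disjoint m (uni b) ∧ Disjoint n (uni b)
        · rw [if_pos h1, if_pos]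
          exact ⟨h1.1, by exact_mod_cast h1.2.1.1, by exact_mod_cast h1.2.1.2, h1.2.2.1⟩
        · rw [if_neg h1]
          by_cases h2 : nm m * nm n ≤ X' ∧ (V : ℝ) < nm m ∧ (V : ℝ) < nm n ∧ Disjoint m n
          · rw [if_pos h2]
            by_cases h3 : α b m = 0
            · rw [h3, zero_mul, zero_mul]
            · by_cases h4 : β b n = 0
              · rw [h4, mul_zero, zero_mul]
              · exact absurd ⟨h2.1, ⟨by exact_mod_cast h2.2.1, by exact_mod_cast h2.2.2.1⟩,
                  h2.2.2.2, (hαs b m h3).2, hβs b n h4⟩ h1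
          · rw [if_neg h2]
      rw [Finset.sum_congr rfl fun m hm => Finset.sum_congr rfl fun n hn => hr m hm n hn]
      rw [← Finset.sum_product', ← Finset.sum_filter]
      refine Finset.sum_nbij' (fun d => (d l0, d l1)) (fun p => plIns l0 l1 b p) ?_ ?_ ?_ ?_ ?_
      · intro d hd
        rw [Finset.mem_filter] at hd
        obtain ⟨hd1, hd2⟩ := hd
        rw [hS, Finset.mem_filter, mem_Box] at hd1
        obtain ⟨⟨hd1, hd3⟩, hd4, hd5⟩ := hd1
        have hprod : nm (d l0) * nm (d l1) * P ≤ X := by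
          have e2 := pl_prod_ins hne hb0 hb1 (d l0, d l1)
          have e3 := pl_ins_base hne d
          rw [hd2] at e3
          rw [e3] at e2
          rw [← hP] at e2
          rw [← e2]
          exact hd3
        have hmn : nm (d l0) * nm (d l1) ≤ X' := (Nat.le_div_iff_mul_le hPpos).2 hprod
        have hdj : ∀ l, l = l0 ∨ l = l1 → Disjoint (d l) (uni b) := by
          intro l hl
          rw [Finset.disjoint_left]
          intro q hq hqb
          obtain ⟨m, hm⟩ := mem_uni.1 hqb
          rw [← hd2] at hm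
          by_cases hlm : l = m
          · subst hlm
            rcases hl with rfl | rfl
            · rw [pl_base_at0 hne] at hm
              exact notMem_empty _ hm
            · rw [pl_base_at1] at hm
              exact notMem_empty _ hm
          · exact Finset.disjoint_left.1 (hd1 l m hlm) hq (pl_base_sub l0 l1 d m hm)
        rw [Finset.mem_filter, Finset.mem_product, mem_Sx, mem_Sx]
        refine ⟨⟨?_, ?_⟩, hmn, ⟨hd4, hd5⟩, hd1 l0 l1 hne, hdj l0 (Or.inl rfl), hdj l1 (Or.inr rfl)⟩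
        · exact le_trans (Nat.le_mul_of_pos_right _ (one_le_nm _)) hmn
        · exact le_trans (Nat.le_mul_of_pos_left _ (one_le_nm _)) hmn
      · intro p hp
        rw [Finset.mem_filter, Finset.mem_product, mem_Sx, mem_Sx] at hp
        obtain ⟨⟨hp1, hp2⟩, hp3, hp4, hp5, hp6, hp7⟩ := hp
        rw [Finset.mem_filter]
        refine ⟨?_, pl_base_ins hb0 hb1 p⟩
        rw [hS, Finset.mem_filter, mem_Box]
        refine ⟨⟨pl_PD_ins hne hPD hp6 hp7 hp5, ?_⟩, ?_, ?_⟩
        · rw [pl_prod_ins hne hb0 hb1]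
          exact (Nat.le_div_iff_mul_le hPpos).1 hp3
        · rw [pl_ins_at0 hne]
          exact hp4.1
        · rw [pl_ins_at1]
          exact hp4.2
      · intro d hd
        rw [Finset.mem_filter] at hd
        have e3 := pl_ins_base hne d
        rw [hd.2] at e3
        exact e3
      · intro p _
        rw [pl_ins_at0 hne, pl_ins_at1]
      · intro d hd
        rw [Finset.mem_filter, hS, Finset.mem_filter, mem_Box] at hd
        rw [hF d hd.1.1.1, hd.2]
    rw [hdouble, hPinv]
    have hX'R : (X' : ℝ) ≤ X * (P : ℝ)⁻¹ := by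
      rw [hX', ← div_eq_mul_inv]
      exact Nat.cast_div_le
    by_cases h2 : 2 ≤ X'
    · have hb := hBL (α b) (β b) X' V (hα b) (hβ b) hV1 h2
      have hb' : |∑ m ∈ Sx ι X', ∑ n ∈ Sx ι X',
          if nm m * nm n ≤ X' ∧ (V : ℝ) < nm m ∧ (V : ℝ) < nm n ∧ Disjoint m n then
            α b m * β b n * sg (D.ss m n) else 0| ≤
          C0 * X' * (1 + Real.log X') ^ K0 * (V : ℝ) ^ (-c0) := by
        exact hb
      refine hb'.trans ?_
      have hlog1 : Real.log X' ≤ Real.log X :=
        Real.log_le_log (by exact_mod_cast (by omega : 0 < X')) (by exact_mod_cast hX'X)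
      have hlog0 : 0 ≤ Real.log X' := Real.log_nonneg (by exact_mod_cast (by omega : 1 ≤ X'))
      have hpow : (1 + Real.log X') ^ K0 ≤ (1 + Real.log X) ^ K0 :=
        pow_le_pow_left₀ (by linarith) (by linarith) K0
      have hX'0 : (0 : ℝ) ≤ X' := Nat.cast_nonneg _
      calc C0 * X' * (1 + Real.log X') ^ K0 * (V : ℝ) ^ (-c0)
          ≤ |C0| * X' * (1 + Real.log X') ^ K0 * (V : ℝ) ^ (-c0) := by
            have := le_abs_self C0
            gcongr
        _ ≤ |C0| * (X * (P : ℝ)⁻¹) * (1 + Real.log X) ^ K0 * (V : ℝ) ^ (-c0) := by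
            gcongr
        _ = |C0| * X * (1 + Real.log X) ^ K0 * (V : ℝ) ^ (-c0) * (P : ℝ)⁻¹ := by ring
    · have hz : ∑ m ∈ Sx ι X', ∑ n ∈ Sx ι X',
          (if nm m * nm n ≤ X' ∧ (V : ℝ) < nm m ∧ (V : ℝ) < nm n ∧ Disjoint m n then
            α b m * β b n * sg (D.ss m n) else 0) = 0 := by
        refine Finset.sum_eq_zero fun m hm => Finset.sum_eq_zero fun n hn => ?_
        rw [if_neg]
        rintro ⟨-, h3, -⟩
        have hm1 : nm m ≤ 1 := by
          have := mem_Sx.1 hm
          omega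
        have : (nm m : ℝ) ≤ 1 := by exact_mod_cast hm1
        linarith
      rw [hz, abs_zero]
      positivity
  -- summation
  rw [← Finset.sum_fiberwise_of_maps_to hmaps]
  refine (Finset.abs_sum_le_sum_abs _ _).trans ?_
  refine (Finset.sum_le_sum hinner).trans ?_
  rw [← Finset.mul_sum]
  have hsumT : ∑ b ∈ T, ∏ l, ((nm (b l) : ℝ))⁻¹ ≤ (H * (1 + Real.log X)) ^ Fintype.card L := by
    calc ∑ b ∈ T, ∏ l, ((nm (b l) : ℝ))⁻¹
        ≤ ∑ b ∈ Fintype.piFinset (fun _ : L => Sx ι X), ∏ l, ((nm (b l) : ℝ))⁻¹ := by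
          refine Finset.sum_le_sum_of_subset_of_nonneg (Finset.filter_subset _ _) ?_
          intro b _ _
          exact Finset.prod_nonneg fun l _ => by positivity
      _ = ∏ _l : L, ∑ n ∈ Sx ι X, ((nm n : ℝ))⁻¹ := by
          rw [Finset.prod_univ_sum]
      _ = (∑ n ∈ Sx ι X, ((nm n : ℝ))⁻¹) ^ Fintype.card L := by
          rw [Finset.prod_const, Finset.card_univ]
      _ ≤ (H * (1 + Real.log X)) ^ Fintype.card L := by
          refine pow_le_pow_left₀ (Finset.sum_nonneg fun n _ => by positivity) ?_ _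
          have e := hH X (by omega)
          simp only [one_div] at e
          exact e
  have h1 : |C0| * H ^ Fintype.card L ≤ |C0| * H ^ Fintype.card L + 1 := by linarith
  calc |C0| * X * (1 + Real.log X) ^ K0 * (V : ℝ) ^ (-c0) * ∑ b ∈ T, ∏ l, ((nm (b l) : ℝ))⁻¹
      ≤ |C0| * X * (1 + Real.log X) ^ K0 * (V : ℝ) ^ (-c0) * (H * (1 + Real.log X)) ^ Fintype.card L := by
        refine mul_le_mul_of_nonneg_left hsumT (by positivity)
    _ = (|C0| * H ^ Fintype.card L) * X * (1 + Real.log X) ^ (K0 + Fintype.card L) *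
        (V : ℝ) ^ (-c0) := by
        rw [pow_add, mul_pow]
        ring
    _ ≤ (|C0| * H ^ Fintype.card L + 1) * X * (1 + Real.log X) ^ (K0 + Fintype.card L) *
        (V : ℝ) ^ (-c0) := by
        gcongr

end

end Pool.Agent.Lib.MP_1a91b9_ntH
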