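import Pool.Agent.Lib.MP_1a91b9_ntH.D.Hall
import Pool.Agent.Lib.MP_1a91b9_ntH.D.Euler

/-!
# Part D: the upper bound

Hall's inequality together with the bound for the Euler product at `σ = 1 + 1 / log x`.
-/

set_option autoImplicit false

namespace Pool.Agent.Lib.MP_1a91b9_ntH

open Finset

noncomputable section

variable {ι : Type} [DecidableEq ι] [PS ι]

/-- Comparison of the sums with `nm⁻¹` and with `nm ^ (-σ)`, `σ = 1 + 1 / log x`. -/
private theorem ub_compare (w : ι → ℝ) (hw : ∀ q, 0 ≤ w q) (x : ℕ) (hx : 2 ≤ x) :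
    ∑ S ∈ Sx ι x, (∏ q ∈ S, w q) / nm S ≤
      Real.exp 1 * ∑ S ∈ Sx ι x, (∏ q ∈ S, w q) * (nm S : ℝ) ^ (-(1 + 1 / Real.log x)) := by
  have hxr : (2 : ℝ) ≤ x := by exact_mod_cast hx
  have hL : 0 < Real.log x := Real.log_pos (by linarith)
  rw [Finset.mul_sum]
  refine Finset.sum_le_sum fun S hS => ?_
  have hn0 : (0 : ℝ) < nm S := by exact_mod_cast one_le_nm S
  have hnx : (nm S : ℝ) ≤ x := by exact_mod_cast mem_Sx.1 hS
  have h4 : (nm S : ℝ) ^ (1 / Real.log x) ≤ Real.exp 1 := by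
    refine (Real.rpow_le_rpow hn0.le hnx (by positivity)).trans (le_of_eq ?_)
    rw [Real.rpow_def_of_pos (by linarith), mul_one_div_cancel hL.ne']
  have h5 : (nm S : ℝ)⁻¹ = (nm S : ℝ) ^ (-(1 + 1 / Real.log x)) * (nm S : ℝ) ^ (1 / Real.log x) := by
    rw [← Real.rpow_add hn0, ← Real.rpow_neg_one]
    congr 1
    ring
  have h6 : 0 ≤ (∏ q ∈ S, w q) * (nm S : ℝ) ^ (-(1 + 1 / Real.log x)) :=
    mul_nonneg (Finset.prod_nonneg fun q _ => hw q) (Real.rpow_nonneg hn0.le _)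
  calc (∏ q ∈ S, w q) / nm S = ((∏ q ∈ S, w q) * (nm S : ℝ) ^ (-(1 + 1 / Real.log x))) *
        (nm S : ℝ) ^ (1 / Real.log x) := by rw [div_eq_mul_inv, h5]; ring
    _ ≤ ((∏ q ∈ S, w q) * (nm S : ℝ) ^ (-(1 + 1 / Real.log x))) * Real.exp 1 :=
        mul_le_mul_of_nonneg_left h4 h6
    _ = _ := by ring

private theorem ub_sigma (x : ℕ) (hx : 2 ≤ x) :
    1 < 1 + 1 / Real.log x ∧ 1 + 1 / Real.log x ≤ 3 ∧ 1 ≤ 2 * Real.log x := by
  have hxr : (2 : ℝ) ≤ x := by exact_mod_cast hx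
  have hL : 0 < Real.log x := Real.log_pos (by linarith)
  have hL2 : 1 ≤ 2 * Real.log x := by
    have h1 : Real.log 2 ≤ Real.log x := Real.log_le_log (by norm_num) hxr
    have h2 := Real.log_two_gt_d9
    linarith
  refine ⟨by have : 0 < 1 / Real.log x := one_div_pos.2 hL
             linarith, ?_, hL2⟩
  have : 1 / Real.log x ≤ 2 := by
    rw [div_le_iff₀ hL]
    exact hL2
  linarith

theorem ub {C1 C2 : ℝ} (h1 : Cheb ι C1) (h2 : Zt ι C2) (m : ℕ) (hm : 2 ≤ m) :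
    ∃ K : ℝ, 0 < K ∧ ∀ (χ : ι → ℝ) (B : ℝ), CharB χ B → ∀ w : ι → ℝ,
      (∀ q, 0 ≤ w q ∧ w q ≤ ((m - 1 : ℝ) + χ q) / m) → ∀ x : ℕ, 2 ≤ x →
      ∑ S ∈ Sx ι x, ∏ q ∈ S, w q ≤
        K * x * Real.log x ^ (-(1 / (m : ℝ))) * B ^ (1 / (m : ℝ)) := by
  have hm0 : (0 : ℝ) < m := by exact_mod_cast (by omega : 0 < m)
  set D : ℝ := max C2 1 with hD
  set E : ℝ := max (C1 + 1) 1 with hE
  have hD1 : 1 ≤ D := le_max_right _ _
  have hE1 : 1 ≤ E := le_max_right _ _
  refine ⟨E * Real.exp 1 * (D ^ (m - 1)) ^ (1 / (m : ℝ)), by positivity, ?_⟩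
  intro χ B hχ w hw x hx
  have hxr : (2 : ℝ) ≤ x := by exact_mod_cast hx
  have hL : 0 < Real.log x := Real.log_pos (by linarith)
  have hB : 0 ≤ B := by linarith [hχ.hB]
  obtain ⟨s1, s2, -⟩ := ub_sigma x hx
  have hw1 : ∀ q, 0 ≤ w q ∧ w q ≤ 1 := by
    intro q
    obtain ⟨h3, h4⟩ := hw q
    have h5 := (abs_le.1 (hχ.le q)).2
    refine ⟨h3, h4.trans ?_⟩
    rw [div_le_one hm0]
    linarith
  have hall' := hall h1 w hw1 x (by omega)
  have heul := euler_ub h2 hχ m hm w hw (1 + 1 / Real.log x) s1 s2 x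
  have e1 : C2 / (1 + 1 / Real.log x - 1) = C2 * Real.log x := by
    rw [show 1 + 1 / Real.log x - 1 = 1 / Real.log x by ring, div_div_eq_mul_div, div_one]
  rw [e1] at heul
  have hcmp := ub_compare w (fun q => (hw q).1) x hx
  -- the Zt constant is at least one
  have hC2 : 0 ≤ C2 * Real.log x := by
    have h6 := h2 (1 + 1 / Real.log x) x s1 s2
    rw [e1] at h6
    refine le_trans ?_ h6
    refine Finset.prod_nonneg fun q _ => ?_
    have hq : (2 : ℝ) ≤ PS.N q := by exact_mod_cast PS.two_le q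
    rw [inv_nonneg, sub_nonneg]
    refine Real.rpow_le_one_of_one_le_of_nonpos (by linarith) (by linarith)
  have h7 : ((C2 * Real.log x) ^ (m - 1) * B) ^ (1 / (m : ℝ)) ≤
      (D ^ (m - 1)) ^ (1 / (m : ℝ)) * (Real.log x ^ (1 - 1 / (m : ℝ)) * B ^ (1 / (m : ℝ))) := by
    have h8 : (C2 * Real.log x) ^ (m - 1) * B ≤ D ^ (m - 1) * Real.log x ^ (m - 1) * B := by
      refine mul_le_mul_of_nonneg_right ?_ hB
      rw [← mul_pow]
      refine pow_le_pow_left₀ hC2 ?_ _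
      exact mul_le_mul_of_nonneg_right (le_max_left _ _) hL.le
    refine (Real.rpow_le_rpow (by positivity) h8 (by positivity)).trans (le_of_eq ?_)
    rw [Real.mul_rpow (by positivity) hB, Real.mul_rpow (by positivity) (by positivity), mul_assoc]
    congr 2
    rw [← Real.rpow_natCast, ← Real.rpow_mul hL.le]
    congr 1
    rw [Nat.cast_sub (by omega)]
    push_cast
    field_simp
  have hsum0 : 0 ≤ ∑ S ∈ Sx ι x, ∏ q ∈ S, w q :=
    Finset.sum_nonneg fun S _ => Finset.prod_nonneg fun q _ => (hw q).1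
  have hsum1 : 0 ≤ ∑ S ∈ Sx ι x, (∏ q ∈ S, w q) / nm S :=
    Finset.sum_nonneg fun S _ => div_nonneg (Finset.prod_nonneg fun q _ => (hw q).1)
      (Nat.cast_nonneg _)
  refine le_of_mul_le_mul_right ?_ hL
  refine hall'.trans ?_
  have h9 : (C1 + 1) * x * ∑ S ∈ Sx ι x, (∏ q ∈ S, w q) / nm S ≤
      E * x * ∑ S ∈ Sx ι x, (∏ q ∈ S, w q) / nm S := by
    refine mul_le_mul_of_nonneg_right ?_ hsum1
    exact mul_le_mul_of_nonneg_right (le_max_left _ _) (Nat.cast_nonneg _)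
  refine h9.trans ?_
  have h10 : E * x * ∑ S ∈ Sx ι x, (∏ q ∈ S, w q) / nm S ≤
      E * x * (Real.exp 1 * ((D ^ (m - 1)) ^ (1 / (m : ℝ)) *
        (Real.log x ^ (1 - 1 / (m : ℝ)) * B ^ (1 / (m : ℝ))))) := by
    refine mul_le_mul_of_nonneg_left ?_ (by positivity)
    exact hcmp.trans (mul_le_mul_of_nonneg_left (heul.trans h7) (Real.exp_pos 1).le)
  refine h10.trans (le_of_eq ?_)
  have h11 : Real.log x ^ (1 - 1 / (m : ℝ)) = Real.log x ^ (-(1 / (m : ℝ))) * Real.log x := by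
    rw [← Real.rpow_add_one hL.ne']
    congr 1
    ring
  rw [h11]
  ring

/-- The sum over the squarefree integers of norm at most `x` is at most the Euler product. -/
private theorem ub_euler (x : ℕ) (σ : ℝ) (hσ : 1 < σ) :
    ∑ S ∈ Sx ι x, (nm S : ℝ) ^ (-σ) ≤ ∏ q ∈ pr ι x, (1 - (PS.N q : ℝ) ^ (-σ))⁻¹ := by
  have h1 : ∑ S ∈ Sx ι x, (nm S : ℝ) ^ (-σ) ≤ ∏ q ∈ pr ι x, (1 + (PS.N q : ℝ) ^ (-σ)) := by
    rw [Finset.prod_one_add]
    have h2 : ∀ S ∈ Sx ι x, (nm S : ℝ) ^ (-σ) = ∏ q ∈ S, (PS.N q : ℝ) ^ (-σ) := by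
      intro S _
      unfold nm
      push_cast
      rw [Real.finsetProd_rpow _ _ (fun i _ => Nat.cast_nonneg _)]
    rw [Finset.sum_congr rfl h2]
    refine Finset.sum_le_sum_of_subset_of_nonneg (Finset.filter_subset _ _) ?_
    intro S _ _
    exact Finset.prod_nonneg fun q _ => Real.rpow_nonneg (Nat.cast_nonneg _) _
  refine h1.trans (Finset.prod_le_prod (fun q _ => ?_) fun q _ => ?_)
  · have : (0 : ℝ) ≤ (PS.N q : ℝ) ^ (-σ) := Real.rpow_nonneg (Nat.cast_nonneg _) _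
    linarith
  · have hq : (2 : ℝ) ≤ PS.N q := by exact_mod_cast PS.two_le q
    have ht0 : (0 : ℝ) ≤ (PS.N q : ℝ) ^ (-σ) := Real.rpow_nonneg (Nat.cast_nonneg _) _
    have ht1 : (PS.N q : ℝ) ^ (-σ) < 1 :=
      Real.rpow_lt_one_of_one_lt_of_neg (by linarith) (by linarith)
    rw [← one_div, le_div_iff₀ (by linarith)]
    nlinarith

theorem harm {C2 : ℝ} (h2 : Zt ι C2) :
    ∃ K : ℝ, 1 ≤ K ∧ ∀ x : ℕ, 1 ≤ x → ∑ S ∈ Sx ι x, (1 : ℝ) / nm S ≤ K * (1 + Real.log x) := by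
  refine ⟨Real.exp 1 * max C2 1 + 1, ?_, ?_⟩
  · have : 0 ≤ Real.exp 1 * max C2 1 := by positivity
    linarith
  intro x hx
  have hE0 : 0 ≤ Real.exp 1 * max C2 1 := by positivity
  rcases Nat.lt_or_ge x 2 with hlt | hge
  · obtain rfl : x = 1 := by omega
    have h3 : Sx ι 1 = {∅} := by
      ext S
      rw [mem_Sx, mem_singleton]
      constructor
      · intro h
        by_contra hne
        obtain ⟨q, hq⟩ := Finset.nonempty_iff_ne_empty.2 hne
        have h4 := le_nm hq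
        have h5 := PS.two_le q
        omega
      · rintro rfl
        exact nm_empty.le
    rw [h3, Finset.sum_singleton, nm_empty]
    simp only [Nat.cast_one, Real.log_one, add_zero, mul_one, div_one]
    linarith
  · have hxr : (2 : ℝ) ≤ x := by exact_mod_cast hge
    have hL : 0 < Real.log x := Real.log_pos (by linarith)
    obtain ⟨s1, s2, -⟩ := ub_sigma x hge
    have h3 := ub_compare (ι := ι) (fun _ => 1) (fun _ => zero_le_one) x hge
    simp only [Finset.prod_const_one, one_mul] at h3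
    have h4 := h2 (1 + 1 / Real.log x) x s1 s2
    have e1 : C2 / (1 + 1 / Real.log x - 1) = C2 * Real.log x := by
      rw [show 1 + 1 / Real.log x - 1 = 1 / Real.log x by ring, div_div_eq_mul_div, div_one]
    rw [e1] at h4
    have h5 := (ub_euler (ι := ι) x (1 + 1 / Real.log x) s1).trans h4
    calc ∑ S ∈ Sx ι x, (1 : ℝ) / nm S ≤ Real.exp 1 * (C2 * Real.log x) :=
          h3.trans (mul_le_mul_of_nonneg_left h5 (Real.exp_pos 1).le)
      _ ≤ Real.exp 1 * (max C2 1 * Real.log x) := by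
          refine mul_le_mul_of_nonneg_left ?_ (Real.exp_pos 1).le
          exact mul_le_mul_of_nonneg_right (le_max_left _ _) hL.le
      _ ≤ (Real.exp 1 * max C2 1 + 1) * (1 + Real.log x) := by nlinarith

end

end Pool.Agent.Lib.MP_1a91b9_ntH
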